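import Pool.Agent.WE.Core2

/-!
# The hard side, second version
-/

namespace Pool.Agent.WD

open Finset
open scoped NNReal

/-- [Hard3] the hard side, with pointwise approximation and network leaves -/
def St_Hard3 : Prop :=
  ∀ (D : Type) [Fintype D] [DecidableEq D] (F : Set (WFun D)), ¬ AllTame F →
    ∃ c : ℝ, 0 < c ∧ ∃ C : ℕ, ∀ n : ℕ, ∃ I : List (Con D (Fin n)), Over F I ∧
      I.length ≤ C * n ∧ (∀ v, (I.filter fun c => decide (∃ i, c.sc i = v)).length ≤ C) ∧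
      ∀ (s W : ℕ) (P : Program D (Fin n) s W) (q : ℝ≥0), 1 ≤ q →
        (∃ i, ∀ x, wt I x ≤ q * P.val i x ∧ P.val i x ≤ q * wt I x) →
          (2 : ℝ) ^ (c * n) ≤ 2 * q * (s + W)

/-- the edges for a balanced set -/
theorem hard3_J (hPatM : St_PatM) {K : Type} [Fintype K] [DecidableEq K] {E : Finset (K × K)}
    {col : K → Bool} {Δ m : ℕ} (hE : Bip E col Δ) (v₀ : K) {S : Finset K}
    (hS : m ≤ 15 * (E.filter fun e => (e.1 ∈ S ∧ e.2 ∉ S) ∨ (e.1 ∉ S ∧ e.2 ∈ S)).card)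
    (hm : 30 * Δ ≤ m) :
    ∃ J, Pat E J ∧ Ind E J ∧ (∀ e ∈ J, e.1 ≠ v₀ ∧ e.2 ≠ v₀) ∧
        m ≤ 30 * ((2 * Δ + 2) * ((Δ + 1) * Δ)) * J.card ∧
        ∀ e ∈ J, (e.1 ∈ S ∧ e.2 ∉ S) ∨ (e.1 ∉ S ∧ e.2 ∈ S) := by
  classical
  set X0 := E.filter fun e => (e.1 ∈ S ∧ e.2 ∉ S) ∨ (e.1 ∉ S ∧ e.2 ∈ S) with hX0
  set X := X0.filter fun e => e.1 ≠ v₀ ∧ e.2 ≠ v₀ with hX
  have hXE : X ⊆ E := (filter_subset _ _).trans (filter_subset _ _)
  have hXc : X0.card ≤ X.card + Δ := by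
    have h1 : X0 ⊆ X ∪ E.filter (fun e => e.1 = v₀ ∨ e.2 = v₀) := by
      intro e he
      rw [mem_union]
      by_cases h : e.1 = v₀ ∨ e.2 = v₀
      · right; exact mem_filter.2 ⟨(mem_filter.1 he).1, h⟩
      · left
        push Not at h
        exact mem_filter.2 ⟨he, h⟩
    have h2 := (card_le_card h1).trans (card_union_le _ _)
    have h3 := hE.deg v₀
    omega
  obtain ⟨J, hJX, hJ0, hJ1, hJ2⟩ := hPatM K E col Δ hE X hXE
  refine ⟨J, hJ0, hJ1, ?_, ?_, ?_⟩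
  · intro e he
    exact (mem_filter.1 (hJX he)).2
  · have : m ≤ 30 * X.card := by omega
    calc m ≤ 30 * X.card := this
      _ ≤ 30 * ((2 * Δ + 2) * ((Δ + 1) * Δ) * J.card) := Nat.mul_le_mul_left _ hJ2
      _ = _ := by ring
  · intro e he
    exact (mem_filter.1 (mem_filter.1 (hJX he)).1).2

/-- the numeric end -/
theorem hard3_num {η Kc : ℝ} (hη0 : 0 < η) (hη1 : η < 1) (hKc : 1 ≤ Kc) {L : ℕ} (hL : 0 < L)
    {n k s W : ℕ} {q : ℝ≥0}
    (hk : n ≤ L * k) (hb : (1 : ℝ) ≤ 2 * q ^ 2 * s ^ 3 * (Kc * (W + 1) * (1 - η) ^ k)) (hq : 1 ≤ q)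
    {c : ℝ} (hc : c ≤ Real.logb 2 (1 / (1 - η)) / (8 * L))
    (hn : 2 * L * Real.logb 2 Kc ≤ Real.logb 2 (1 / (1 - η)) * n) :
    (2 : ℝ) ^ (c * n) ≤ 2 * q * (s + W) := by
  have hL' : (0 : ℝ) < L := by exact_mod_cast hL
  have h0 : (0 : ℝ) < 1 - η := by linarith
  set l := Real.logb 2 (1 / (1 - η)) with hl
  have hl0 : 0 < l := Real.logb_pos (by norm_num) (by rw [lt_div_iff₀ h0]; linarith)
  have h2l : (2 : ℝ) ^ l = 1 / (1 - η) := by
    rw [hl, Real.rpow_logb (by norm_num) (by norm_num) (by positivity)]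
  have hqr : (1 : ℝ) ≤ q := by exact_mod_cast hq
  have hs1 : (1 : ℝ) ≤ s := by
    rcases Nat.eq_zero_or_pos s with h | h
    · rw [h] at hb; norm_num at hb
    · exact_mod_cast h
  have hW0 : (0 : ℝ) ≤ W := Nat.cast_nonneg W
  have hKc0 : (0 : ℝ) < Kc := by linarith
  -- 2 ^ (l k) ≤ 2 q^2 s^3 Kc (W + 1)
  have h3 : (2 : ℝ) ^ (l * k) ≤ 2 * q ^ 2 * s ^ 3 * (Kc * (W + 1)) := by
    rw [Real.rpow_mul (by norm_num), h2l, Real.rpow_natCast, one_div, inv_pow]
    rw [inv_le_iff_one_le_mul₀ (pow_pos h0 k)]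
    calc (1 : ℝ) ≤ _ := hb
      _ = _ := by ring
  have hnk : (n : ℝ) ≤ L * k := by exact_mod_cast hk
  have h31 : Kc ≤ (2 : ℝ) ^ (l * n / (2 * L)) := by
    calc Kc = (2 : ℝ) ^ Real.logb 2 Kc := (Real.rpow_logb (by norm_num) (by norm_num) hKc0).symm
      _ ≤ (2 : ℝ) ^ (l * n / (2 * L)) := by
          apply Real.rpow_le_rpow_of_exponent_le (by norm_num)
          rw [le_div_iff₀ (by positivity)]
          linarith
  have h32 : (2 : ℝ) ^ (l * n / (2 * L)) * (2 : ℝ) ^ (l * n / (2 * L)) ≤ (2 : ℝ) ^ (l * k) := by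
    rw [← Real.rpow_add (by norm_num)]
    apply Real.rpow_le_rpow_of_exponent_le (by norm_num)
    have e : l * n / (2 * L) + l * n / (2 * L) = l * n / L := by field_simp; ring
    rw [e, div_le_iff₀ hL']
    calc l * n ≤ l * (L * k) := by gcongr
      _ = l * k * L := by ring
  have h33 : (2 : ℝ) ^ (l * n / (2 * L)) ≤ 2 * q ^ 2 * s ^ 3 * (W + 1) := by
    have hpos : (0 : ℝ) < (2 : ℝ) ^ (l * n / (2 * L)) := by positivity
    have e1 : (2 : ℝ) ^ (l * n / (2 * L)) * (2 : ℝ) ^ (l * n / (2 * L)) ≤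
        (2 * q ^ 2 * s ^ 3 * (W + 1)) * (2 : ℝ) ^ (l * n / (2 * L)) := by
      calc _ ≤ (2 : ℝ) ^ (l * k) := h32
        _ ≤ 2 * q ^ 2 * s ^ 3 * (Kc * (W + 1)) := h3
        _ = (2 * q ^ 2 * s ^ 3 * (W + 1)) * Kc := by ring
        _ ≤ _ := by gcongr
    exact le_of_mul_le_mul_right e1 hpos
  have h4 : (2 : ℝ) ^ (c * n * 4) ≤ (2 * q * (s + W)) ^ 4 := by
    calc (2 : ℝ) ^ (c * n * 4) ≤ (2 : ℝ) ^ (l * n / (2 * L)) := by
          apply Real.rpow_le_rpow_of_exponent_le (by norm_num)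
          calc c * n * 4 ≤ (l / (8 * L)) * n * 4 := by gcongr
            _ = l * n / (2 * L) := by field_simp; ring
      _ ≤ 2 * q ^ 2 * s ^ 3 * (W + 1) := h33
      _ ≤ (2 * q * (s + W)) ^ 4 := by
          have e1 : (W : ℝ) + 1 ≤ s + W := by linarith
          have e2 : (s : ℝ) ≤ s + W := by linarith
          have e3 : (s : ℝ) ^ 3 ≤ (s + W) ^ 3 := pow_le_pow_left₀ (by linarith) e2 3
          have e4 : (q : ℝ) ^ 2 ≤ q ^ 4 := pow_le_pow_right₀ hqr (by norm_num)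
          calc 2 * (q : ℝ) ^ 2 * (s : ℝ) ^ 3 * ((W : ℝ) + 1) ≤
                2 * (q : ℝ) ^ 4 * ((s : ℝ) + W) ^ 3 * ((s : ℝ) + W) := by gcongr
            _ ≤ 16 * (q : ℝ) ^ 4 * ((s : ℝ) + W) ^ 3 * ((s : ℝ) + W) := by gcongr; norm_num
            _ = (2 * (q : ℝ) * ((s : ℝ) + W)) ^ 4 := by ring
  have h5 : (2 : ℝ) ^ (c * n * 4) = ((2 : ℝ) ^ (c * n)) ^ 4 := by
    rw [Real.rpow_mul (by norm_num)]
    norm_cast
  rw [h5] at h4
  exact le_of_pow_le_pow_left₀ (by norm_num) (by positivity) h4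

theorem thm_Hard3 (hDec : St_Dec2) (hNet : St_Net2) (hGra : St_Gra) (hPatM : St_PatM)
    (hLift : St_Lift) (hRkM : St_RkM) (hIns : St_Ins) : St_Hard3 := by
  classical
  intro D _ _ F hF
  unfold AllTame at hF
  push Not at hF
  obtain ⟨n₀, I₀, hI₀, hI₀t⟩ := hF
  obtain ⟨R₀, u₀, v₀, π, a, a', b, b', huv, hu, hv, hFour⟩ := not_tame hI₀t
  set M : D → D → ℝ≥0 := fun c d =>
    marg R₀ (wt I₀) (Function.update (Function.update π u₀ c) v₀ d) with hM
  obtain ⟨Δ, m₀, hG⟩ := hGra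
  obtain ⟨η, Kc, hη0, hη1, hKc, hN⟩ := hNet D M ⟨a, a', b, b', hFour⟩ Δ
  set A : ℕ := 2 + Δ * n₀ with hA
  set B : ℕ := (2 * Δ + 2) * ((Δ + 1) * Δ) with hB
  have hl0 : 0 < Real.logb 2 (1 / (1 - η)) :=
    Real.logb_pos (by norm_num) (by rw [lt_div_iff₀ (by linarith)]; linarith)
  set L : ℕ := 60 * A * (B + 1) with hL
  obtain ⟨m₂, hm₂⟩ := exists_nat_ge (2 * L * Real.logb 2 Kc / Real.logb 2 (1 / (1 - η)))
  set m₁ : ℕ := max (max m₀ (30 * Δ + 30)) m₂ with hm₁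
  have hA0 : 0 < A := by omega
  have hLpos : 0 < L := by positivity
  have hm1a : m₀ ≤ m₁ := (le_max_left _ _).trans (le_max_left _ _)
  have hm1b : 30 * Δ + 30 ≤ m₁ := (le_max_right _ _).trans (le_max_left _ _)
  have hm1c : m₂ ≤ m₁ := le_max_right _ _
  have hAm : (0 : ℝ) < A * m₁ := by
    have : 0 < A * m₁ := by
      apply Nat.mul_pos hA0
      omega
    exact_mod_cast this
  refine ⟨min (Real.logb 2 (1 / (1 - η)) / (8 * L)) (1 / (A * m₁)), ?_,
    (Δ + 1) * (I₀.length + 1), ?_⟩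
  · apply lt_min
    · have : (0 : ℝ) < L := by exact_mod_cast hLpos
      positivity
    · positivity
  intro n
  by_cases hn : n < A * m₁
  · -- small n
    refine ⟨[], ?_, ?_, ?_, ?_⟩
    · intro c hc; simp at hc
    · simp
    · intro v; simp
    · rintro s W P q hq ⟨i, hi⟩
      have h1 : (2 : ℝ) ^ (min (Real.logb 2 (1 / (1 - η)) / (8 * L)) (1 / (A * m₁)) * n) ≤
          (2 : ℝ) ^ (1 : ℝ) := by
        apply Real.rpow_le_rpow_of_exponent_le (by norm_num)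
        calc min (Real.logb 2 (1 / (1 - η)) / (8 * L)) (1 / (A * m₁)) * n ≤
              1 / (A * m₁) * n := by gcongr; exact min_le_right _ _
          _ ≤ 1 / (A * m₁) * (A * m₁) := by
              gcongr
              exact_mod_cast hn.le
          _ = 1 := one_div_mul_cancel hAm.ne'
      have h2 : (1 : ℝ) ≤ q := by exact_mod_cast hq
      have h3 : (1 : ℝ) ≤ s + W := by
        have h30 : 1 ≤ s := lt_of_le_of_lt (Nat.zero_le _) i.2
        have h31 : (1 : ℝ) ≤ s := by exact_mod_cast h30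
        have h32 : (0 : ℝ) ≤ W := Nat.cast_nonneg W
        linarith
      rw [Real.rpow_one] at h1
      calc _ ≤ (2 : ℝ) := h1
        _ ≤ 2 * (q * (s + W)) := by
            have : (1 : ℝ) ≤ q * (s + W) := one_le_mul_of_one_le_of_one_le h2 h3
            linarith
        _ = _ := by ring
  · push Not at hn
    set m : ℕ := n / A with hm
    have hmm : m₁ ≤ m := by
      rw [hm, Nat.le_div_iff_mul_le hA0]
      rw [Nat.mul_comm]; exact hn
    have hmn : m * A ≤ n := Nat.div_mul_le_self n A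
    have hnm : n ≤ 2 * A * m := by
      have h1 : n < (m + 1) * A := by
        rw [hm]
        have := Nat.lt_div_mul_add (a := n) (b := A) hA0
        calc n < n / A * A + A := this
          _ = (n / A + 1) * A := by ring
      have h2 : 1 ≤ m := by omega
      nlinarith
    obtain ⟨K, _, _, E, col, hE, ⟨v₁, hv₁⟩, hK1, hK2, hEc, hcut⟩ := hG m (by omega)
    obtain ⟨Q, hQ, hQN⟩ := hN K E col hE v₁ hv₁
    have hbip : ∀ e ∈ E, e.1 ≠ e.2 := by
      intro e he h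
      obtain ⟨c1, c2⟩ := hE.bip e he
      rw [h, c2] at c1
      exact absurd c1 (by simp)
    have hsize : Fintype.card K + E.card * n₀ ≤ n := by
      calc Fintype.card K + E.card * n₀ ≤ 2 * m + Δ * m * n₀ := by gcongr
        _ = m * A := by rw [hA]; ring
        _ ≤ n := hmn
    obtain ⟨I, hI1, hI2, hI3, κ, base, R, hR, hnet⟩ :=
      hIns D F n₀ I₀ hI₀ R₀ u₀ v₀ π huv hu hv K E Δ hE.deg hbip n hsize
    refine ⟨I, hI1, ?_, ?_, ?_⟩
    · rw [hI2]
      calc E.card * I₀.length ≤ (Δ * m) * I₀.length := by gcongr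
        _ ≤ ((Δ + 1) * n) * (I₀.length + 1) := by
            have : m ≤ n := Nat.div_le_self n A
            gcongr
            · omega
            · omega
        _ = _ := by ring
    · intro v
      refine (hI3 v).trans ?_
      gcongr
      omega
    · rintro s W P q hq ⟨i, hi⟩
      obtain ⟨k, hk⟩ : ∃ k, k = (n + L - 1) / L := ⟨_, rfl⟩
      have hJ : ∀ S : Finset K, Fintype.card K ≤ 3 * S.card → 3 * S.card ≤ 2 * Fintype.card K →
          ∃ J, Pat E J ∧ Ind E J ∧ (∀ e ∈ J, e.1 ≠ v₁ ∧ e.2 ≠ v₁) ∧ k ≤ J.card ∧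
            ∀ e ∈ J, (e.1 ∈ S ∧ e.2 ∉ S) ∨ (e.1 ∉ S ∧ e.2 ∈ S) := by
        intro S hS1 hS2
        obtain ⟨J, hJ0, hJ1, hJ2, hJ3, hJ4⟩ := hard3_J hPatM hE v₁ (hcut S hS1 hS2) (by omega)
        refine ⟨J, hJ0, hJ1, hJ2, ?_, hJ4⟩
        have h1 : n ≤ L * J.card := by
          calc n ≤ 2 * A * m := hnm
            _ ≤ 2 * A * (30 * B * J.card) := by gcongr
            _ = 60 * A * B * J.card := by ring
            _ ≤ 60 * A * (B + 1) * J.card := by gcongr; omega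
        rw [hk]
        have h2 : (n + L - 1) / L < J.card + 1 := by
          rw [Nat.div_lt_iff_lt_mul hLpos]
          have : (J.card + 1) * L = L * J.card + L := by ring
          rw [this]
          omega
        omega
      have hb := core_bound2 hDec hLift hRkM hE hη1 hQ hQN hη0 hKc hJ (by omega) κ base R hR
        hnet P i hq (fun x => (hi x).1) (fun x => (hi x).2)
      refine hard3_num hη0 hη1 hKc hLpos (k := k) ?_ hb hq (min_le_left _ _) ?_
      · rw [hk]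
        have := Nat.lt_div_mul_add (a := n + L - 1) (b := L) hLpos
        have e : L * ((n + L - 1) / L) = (n + L - 1) / L * L := by ring
        rw [e]
        omega
      · have h1 : m₂ ≤ n := by
          calc m₂ ≤ m₁ := hm1c
            _ ≤ A * m₁ := Nat.le_mul_of_pos_left _ hA0
            _ ≤ n := hn
        have h2 : (m₂ : ℝ) ≤ n := by exact_mod_cast h1
        have h3 := hm₂.trans h2
        rw [div_le_iff₀ hl0] at h3
        linarith

end Pool.Agent.WD
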