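import Pool.Agent.WD.Bsc

/-!
# Programs with islands and tree tensor networks: definitions
-/

namespace Pool.Agent.WD

open Finset
open scoped NNReal

variable {D V : Type} [Fintype D] [DecidableEq D] [Fintype V] [DecidableEq V]

/-- Across the cut `S` the function `g` has rank at most `W`: it is a sum of `W` products of a real
function of the variables in `S` and a real function of the other variables. -/
def RankLe (W : ℕ) (g : (V → D) → ℝ≥0) (S : Finset V) : Prop :=
  ∃ u v : Fin W → (V → D) → ℝ,
    (∀ i x y, (∀ w ∈ S, x w = y w) → u i x = u i y) ∧
    (∀ i x y, (∀ w, w ∉ S → x w = y w) → v i x = v i y) ∧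
    ∀ x, (g x : ℝ) = ∑ i, u i x * v i x

/-- Binary trees with leaves labelled by variables. -/
inductive VTree (V : Type) : Type
  | leaf (v : V) : VTree V
  | node (l r : VTree V) : VTree V

/-- The variables of a tree. -/
def VTree.vars : VTree V → Finset V
  | .leaf v => {v}
  | .node l r => l.vars ∪ r.vars

/-- At every node of the tree the function `g` has rank at most `W` across the cut into the
variables below the node and the others. -/
def VTree.Cuts (W : ℕ) (g : (V → D) → ℝ≥0) : VTree V → Prop
  | .leaf v => RankLe W g {v}
  | .node l r => RankLe W g (l.vars ∪ r.vars) ∧ l.Cuts W g ∧ r.Cuts W g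

/-- `g` is computed by a real tree tensor network of width `W` (with cancellation). -/
def IsNet (W : ℕ) (g : (V → D) → ℝ≥0) : Prop :=
  ∃ t : VTree V, t.vars = univ ∧ t.Cuts W g

/-- A program of width `W` with `s` gates: gate `i` computes the function `val i ≥ 0`, which depends
only on the variables in `scope i`. It is a tame function, or the function of a real tree tensor
network of width `W`, or a monotone sublinear function of products of two earlier gates with
disjoint scopes contained in `scope i`: at every `x` it is equal to a combination, with coefficients
`≥ 0`, of such products, which is `≤` it everywhere. So sums and combinations, maxima and `p`-norms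
of earlier gates and of products of two earlier gates with disjoint scopes are gates. -/
structure Program (D V : Type) [Fintype D] [DecidableEq D] [Fintype V] [DecidableEq V]
    (s W : ℕ) where
  /-- the function computed by a gate -/
  val : Fin s → (V → D) → ℝ≥0
  /-- the variables a gate depends on -/
  scope : Fin s → Finset V
  dep : ∀ i x y, (∀ v ∈ scope i, x v = y v) → val i x = val i y
  gate : ∀ i, Tame (val i) ∨ IsNet W (val i) ∨ ∀ x, ∃ a : Fin s → Fin s → ℝ≥0,
    (∀ j k, a j k ≠ 0 → j < i ∧ k < i ∧ Disjoint (scope j) (scope k) ∧
      scope j ∪ scope k ⊆ scope i) ∧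
    val i x = ∑ j, ∑ k, a j k * (val j x * val k x) ∧
    ∀ y, ∑ j, ∑ k, a j k * (val j y * val k y) ≤ val i y

end Pool.Agent.WD
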