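import Pool.Agent.WD.St
import Pool.Agent.WE.Model

/-!
# Signatures of the modules of the second version
-/

namespace Pool.Agent.WD

open Finset
open scoped NNReal

/-- [RkM] rank across a cut passes to the core -/
def St_RkM : Prop :=
  ∀ (D V K : Type) [Fintype D] [DecidableEq D] [Fintype V] [DecidableEq V] [Fintype K]
    [DecidableEq K] (κ : K ↪ V) (base : V → D) (R : Finset V) (T : (V → D) → ℝ≥0) (S : Finset V)
    (W : ℕ), RankLe W T S →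
    RankLe W (fun z : K → D => marg R T (Function.extend κ z base))
      (univ.filter fun k => κ k ∈ S)

/-- [Dec2] decomposition of the function computed by a gate -/
def St_Dec2 : Prop :=
  ∀ (D V : Type) [Fintype D] [DecidableEq D] [Fintype V] [DecidableEq V] (s W : ℕ)
    (P : Program D V s W) (i₀ : Fin s) (C : Finset V), 2 ≤ C.card →
    ∃ (ι : Type) (_ : Fintype ι) (T : ι → (V → D) → ℝ≥0) (S : ι → Finset V),
      Fintype.card ι ≤ 2 * s ^ 3 ∧ (∀ x, P.val i₀ x ≤ ∑ t, T t x) ∧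
      ∀ t, (∀ x, T t x ≤ P.val i₀ x) ∧
        C.card ≤ 3 * (S t ∩ C).card ∧ 3 * (S t ∩ C).card ≤ 2 * C.card ∧
        (Broken (T t) (S t) ∨ RankLe W (T t) (S t))

/-- `w` is an end of the edge `e` or a neighbour of an end -/
def Near {K : Type} (E : Finset (K × K)) (e : K × K) (w : K) : Prop :=
  w = e.1 ∨ w = e.2 ∨ (e.1, w) ∈ E ∨ (w, e.2) ∈ E

/-- the patches of the edges in `J` are disjoint -/
def Pat {K : Type} (E J : Finset (K × K)) : Prop :=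
  J ⊆ E ∧ ∀ e ∈ J, ∀ e' ∈ J, e ≠ e' → ∀ w, ¬ (Near E e w ∧ Near E e' w)

/-- [PatM] greedy choice of edges with disjoint patches -/
def St_PatM : Prop :=
  ∀ (K : Type) [Fintype K] [DecidableEq K] (E : Finset (K × K)) (col : K → Bool) (Δ : ℕ),
    Bip E col Δ → ∀ X ⊆ E, ∃ J ⊆ X, Pat E J ∧ Ind E J ∧
      X.card ≤ (2 * Δ + 2) * ((Δ + 1) * Δ) * J.card

/-- [LossA2] rank `W` across `S`, the case of a non-rectangular support -/
def St_LossA2 : Prop :=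
  ∀ (D : Type) [Fintype D] [DecidableEq D] (M : D → D → ℝ≥0) (a a' b b' : D),
    M a b ≠ 0 → M a b' ≠ 0 → M a' b ≠ 0 → M a' b' = 0 → ∀ Δ : ℕ,
    ∃ η : ℝ, 0 < η ∧ η < 1 ∧ ∀ (K : Type) [Fintype K] [DecidableEq K] (E : Finset (K × K))
      (col : K → Bool), Bip E col Δ → ∀ J, Pat E J → Ind E J → ∀ S : Finset K,
      (∀ e ∈ J, (e.1 ∈ S ∧ e.2 ∉ S) ∨ (e.1 ∉ S ∧ e.2 ∈ S)) → ∀ (T : (K → D) → ℝ≥0) (W : ℕ),
      (∀ x, T x ≤ net E M x) → RankLe W T S →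
      ((∑ x ∈ univ.filter (fun x : K → D => ∀ v,
          (col v = true → x v = a ∨ x v = a') ∧ (col v = false → x v = b ∨ x v = b')), T x : ℝ≥0) :
            ℝ) ≤ W * (1 - η) ^ J.card *
        ((∑ x ∈ univ.filter (fun x : K → D => ∀ v,
          (col v = true → x v = a ∨ x v = a') ∧ (col v = false → x v = b ∨ x v = b')),
            net E M x : ℝ≥0) : ℝ)

/-- [RkB] the core estimate in the soft case: `N ≤ C ∏ φ_j (x_j, y_j)` of real rank `W`, where each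
`φ_j`, normalised to `μ_j` with marginals `α_j`, `β_j`, has Bhattacharyya coefficient
`∑ √(μ_j α_j β_j) ≤ exp (-2 h)` -/
def St_RkB : Prop :=
  ∀ h : ℝ, 0 < h → ∃ η Kc : ℝ, 0 < η ∧ η < 1 ∧ 1 ≤ Kc ∧
    ∀ (J X Y : Type) [Fintype J] [DecidableEq J] [Fintype X] [DecidableEq X] [Fintype Y]
      [DecidableEq Y] (μ : J → X → Y → ℝ),
      (∀ j x y, 0 ≤ μ j x y) → (∀ j, ∑ x, ∑ y, μ j x y = 1) →
      (∀ j, ∑ x, ∑ y, Real.sqrt (μ j x y * (∑ y', μ j x y') * (∑ x', μ j x' y)) ≤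
        Real.exp (-2 * h)) →
      ∀ (N : (J → X) → (J → Y) → ℝ) (W : ℕ) (u : Fin W → (J → X) → ℝ) (v : Fin W → (J → Y) → ℝ),
        (∀ x y, 0 ≤ N x y) → (∀ x y, N x y ≤ ∏ j, μ j (x j) (y j)) →
        (∀ x y, N x y = ∑ i, u i x * v i y) →
        ∑ x, ∑ y, N x y ≤ Kc * (W + 1) * (1 - η) ^ Fintype.card J

/-- [LossB2] rank `W` across `S`, the case of a rectangular support -/
def St_LossB2 : Prop :=
  ∀ (D : Type) [Fintype D] [DecidableEq D] (M : D → D → ℝ≥0) (a a' b b' : D),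
    (∀ c c' d d', M c d ≠ 0 → M c d' ≠ 0 → M c' d ≠ 0 → M c' d' ≠ 0) →
    M a b ≠ 0 → M a b' ≠ 0 → M a' b ≠ 0 → M a' b' ≠ 0 → M a b * M a' b' ≠ M a b' * M a' b →
    ∀ Δ : ℕ, ∃ η Kc : ℝ, 0 < η ∧ η < 1 ∧ 1 ≤ Kc ∧ ∀ (K : Type) [Fintype K] [DecidableEq K]
      (E : Finset (K × K)) (col : K → Bool), Bip E col Δ → ∀ v₀ : K, col v₀ = true →
      ∀ J, Ind E J → (∀ e ∈ J, e.1 ≠ v₀ ∧ e.2 ≠ v₀) → ∀ S : Finset K,
      (∀ e ∈ J, (e.1 ∈ S ∧ e.2 ∉ S) ∨ (e.1 ∉ S ∧ e.2 ∈ S)) → ∀ (T : (K → D) → ℝ≥0) (W : ℕ),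
      (∀ x, T x ≤ net E M x) → RankLe W T S →
      ((∑ x ∈ univ.filter (fun x : K → D => x v₀ = a), T x : ℝ≥0) : ℝ) ≤
        Kc * (W + 1) * (1 - η) ^ J.card *
        ((∑ x ∈ univ.filter (fun x : K → D => x v₀ = a), net E M x : ℝ≥0) : ℝ)

/-- [Net2] both kinds of terms, both cases -/
def St_Net2 : Prop :=
  ∀ (D : Type) [Fintype D] [DecidableEq D] (M : D → D → ℝ≥0),
    (∃ a a' b b', ¬ Four (M a b) (M a b') (M a' b) (M a' b')) → ∀ Δ : ℕ,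
    ∃ η Kc : ℝ, 0 < η ∧ η < 1 ∧ 1 ≤ Kc ∧ ∀ (K : Type) [Fintype K] [DecidableEq K]
      (E : Finset (K × K)) (col : K → Bool), Bip E col Δ → ∀ v₀ : K, col v₀ = true →
      ∃ Q : Finset (K → D), 0 < ∑ x ∈ Q, net E M x ∧
        ∀ J, Pat E J → Ind E J → (∀ e ∈ J, e.1 ≠ v₀ ∧ e.2 ≠ v₀) → ∀ S : Finset K,
        (∀ e ∈ J, (e.1 ∈ S ∧ e.2 ∉ S) ∨ (e.1 ∉ S ∧ e.2 ∈ S)) → ∀ (T : (K → D) → ℝ≥0) (W : ℕ),
        (∀ x, T x ≤ net E M x) → ((∀ e ∈ J, PairB T e.1 e.2) ∨ RankLe W T S) →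
        ((∑ x ∈ Q, T x : ℝ≥0) : ℝ) ≤ Kc * (W + 1) * (1 - η) ^ J.card *
          ((∑ x ∈ Q, net E M x : ℝ≥0) : ℝ)

end Pool.Agent.WD
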