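import Pool.Agent.WE.St
import Pool.Agent.WD.Dec

/-!
# [Dec2] decomposition of the function computed by a gate
-/

set_option autoImplicit false

namespace Pool.Agent.WD

open Finset
open scoped NNReal

section

variable {D V : Type} [Fintype D] [DecidableEq D] [Fintype V] [DecidableEq V]

/-- the scopes, the root gets all variables -/
def dec2_sc {s W : ℕ} (P : Program D V s W) (i₀ i : Fin s) : Finset V := if i = i₀ then univ else P.scope i

theorem dec2_sub {s W : ℕ} (P : Program D V s W) (i₀ i : Fin s) : P.scope i ⊆ dec2_sc P i₀ i := by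
  unfold dec2_sc
  split_ifs
  · exact subset_univ _
  · exact Subset.rfl

/-- the first factor of a term -/
def dec2_G {s W : ℕ} (P : Program D V s W) : DecI s → (V → D) → ℝ≥0
  | Sum.inl j => P.val j
  | Sum.inr t => fun y => P.val t.2.1 y * P.val t.2.2 y

/-- the variables which the second factor does not use -/
def dec2_U {s W : ℕ} (P : Program D V s W) (i₀ : Fin s) : DecI s → Finset V
  | Sum.inl j => dec2_sc P i₀ j
  | Sum.inr t => dec2_sc P i₀ t.1

/-- the terms that occur -/
def dec2_ok {s W : ℕ} (P : Program D V s W) (i₀ : Fin s) (C : Finset V) : DecI s → Prop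
  | Sum.inl j => (dec_big C (dec2_sc P i₀ j) ∧ (Tame (P.val j) ∨ IsNet W (P.val j))) ∨
      (¬ dec_big C (dec2_sc P i₀ j) ∧ C.card ≤ 3 * (dec2_sc P i₀ j ∩ C).card)
  | Sum.inr t => dec_big C (dec2_sc P i₀ t.1) ∧ P.scope t.2.1 ∪ P.scope t.2.2 ⊆ dec2_sc P i₀ t.1 ∧
      ¬ dec_big C (P.scope t.2.1 ∪ P.scope t.2.2)

/-- a node of the tree at which the variables below form a balanced set -/
theorem dec2_tree {W : ℕ} {g : (V → D) → ℝ≥0} (U : Finset V) {C : Finset V} (hC : 2 ≤ C.card) :
    ∀ t : VTree V, 2 * C.card < 3 * ((t.vars ∩ U) ∩ C).card → t.Cuts W g →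
      ∃ S : Finset V, C.card ≤ 3 * ((S ∩ U) ∩ C).card ∧ 3 * ((S ∩ U) ∩ C).card ≤ 2 * C.card ∧
        RankLe W g S := by
  intro t
  induction t with
  | leaf v =>
    intro h _
    exfalso
    have h1 : (((VTree.leaf v).vars ∩ U) ∩ C).card ≤ 1 := by
      refine (card_le_card (inter_subset_left.trans inter_subset_left)).trans ?_
      show ({v} : Finset V).card ≤ 1
      rw [card_singleton]
    omega
  | node l r ihl ihr =>
    intro h hcut
    obtain ⟨_, hl, hr⟩ := hcut
    have hsum : (((VTree.node l r).vars ∩ U) ∩ C).card ≤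
        ((l.vars ∩ U) ∩ C).card + ((r.vars ∩ U) ∩ C).card := by
      refine (card_le_card ?_).trans (card_union_le _ _)
      intro v hv
      simp only [VTree.vars, mem_inter, mem_union] at hv ⊢
      tauto
    have hlt : ∀ t : VTree V, t.Cuts W g → RankLe W g t.vars := by
      intro t ht
      cases t with
      | leaf v => exact ht
      | node l r => exact ht.1
    by_cases h1 : 2 * C.card < 3 * ((l.vars ∩ U) ∩ C).card
    · exact ihl h1 hl
    · by_cases h2 : 2 * C.card < 3 * ((r.vars ∩ U) ∩ C).card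
      · exact ihr h2 hr
      · by_cases h3 : C.card ≤ 3 * ((l.vars ∩ U) ∩ C).card
        · exact ⟨l.vars, h3, by omega, hlt l hl⟩
        · exact ⟨r.vars, by omega, by omega, hlt r hr⟩

/-- the rank of a product with a context -/
theorem dec2_rank {W : ℕ} {g b : (V → D) → ℝ≥0} {U S : Finset V} (hg : DepOn g U)
    (hb : DepOn b Uᶜ) (hr : RankLe W g S) : RankLe W (fun y => g y * b y) (S ∩ U) := by
  classical
  obtain ⟨u, v, hu, hv, huv⟩ := hr
  rcases isEmpty_or_nonempty (V → D) with hE | ⟨⟨x₀⟩⟩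
  · exact ⟨fun _ _ => 0, fun _ _ => 0, fun _ _ _ _ => rfl, fun _ _ _ _ => rfl,
      fun x => (hE.false x).elim⟩
  -- replace the variables outside `U` by `x₀`
  refine ⟨fun i x => u i (U.piecewise x x₀), fun i x => v i (U.piecewise x x₀) * b x, ?_, ?_, ?_⟩
  · intro i x y hxy
    apply hu
    intro w hw
    by_cases hU : w ∈ U
    · rw [Finset.piecewise_eq_of_mem _ _ _ hU, Finset.piecewise_eq_of_mem _ _ _ hU]
      exact hxy w (mem_inter.2 ⟨hw, hU⟩)
    · rw [Finset.piecewise_eq_of_notMem _ _ _ hU, Finset.piecewise_eq_of_notMem _ _ _ hU]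
  · intro i x y hxy
    have e1 : v i (U.piecewise x x₀) = v i (U.piecewise y x₀) := by
      apply hv
      intro w hw
      by_cases hU : w ∈ U
      · rw [Finset.piecewise_eq_of_mem _ _ _ hU, Finset.piecewise_eq_of_mem _ _ _ hU]
        exact hxy w fun h => hw (mem_inter.1 h).1
      · rw [Finset.piecewise_eq_of_notMem _ _ _ hU, Finset.piecewise_eq_of_notMem _ _ _ hU]
    have e2 : b x = b y := hb x y fun w hw => hxy w fun h => by
      exact (mem_compl.1 hw) (mem_inter.1 h).2
    show v i (U.piecewise x x₀) * b x = v i (U.piecewise y x₀) * b y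
    rw [e1, e2]
  · intro x
    have e1 : g x = g (U.piecewise x x₀) := hg x _ fun w hw => by
      rw [Finset.piecewise_eq_of_mem _ _ _ hw]
    show ((g x * b x : ℝ≥0) : ℝ) = _
    rw [NNReal.coe_mul, e1, huv, Finset.sum_mul]
    refine Finset.sum_congr rfl fun i _ => ?_
    ring

theorem dec2_S (hBro : St_Bro) {s W : ℕ} (P : Program D V s W) (i₀ : Fin s) {C : Finset V}
    (hC : 2 ≤ C.card) (t : DecI s) (ht : dec2_ok P i₀ C t) :
    ∃ S : Finset V, C.card ≤ 3 * (S ∩ C).card ∧ 3 * (S ∩ C).card ≤ 2 * C.card ∧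
      ∀ b : (V → D) → ℝ≥0, DepOn b (dec2_U P i₀ t)ᶜ →
        Broken (fun y => dec2_G P t y * b y) S ∨ RankLe W (fun y => dec2_G P t y * b y) S := by
  rcases t with j | ⟨i, j, k⟩
  · rcases ht with ⟨h1, h2 | h2⟩ | ⟨h1, h2⟩
    · obtain ⟨S, _, hSU, hS1, hS2⟩ := dec_between (empty_subset (dec2_sc P i₀ j)) (by simp) h1 hC
      refine ⟨S, hS1, hS2, fun b hb => Or.inl ?_⟩
      exact (hBro D V (P.val j) b S (dec2_sc P i₀ j)).2 h2
        (dec_dep_mono (P.dep j : DepOn (P.val j) (P.scope j)) (dec2_sub P i₀ j)) hb hSU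
    · obtain ⟨t, ht, hcut⟩ := h2
      obtain ⟨S, hS1, hS2, hr⟩ := dec2_tree (dec2_sc P i₀ j) hC t
        (by unfold dec_big at h1; rw [ht, univ_inter]; exact h1) hcut
      refine ⟨S ∩ dec2_sc P i₀ j, hS1, hS2, fun b hb => Or.inr ?_⟩
      exact dec2_rank (dec_dep_mono (P.dep j : DepOn (P.val j) (P.scope j)) (dec2_sub P i₀ j))
        hb hr
    · refine ⟨dec2_sc P i₀ j, h2, ?_, fun b hb => Or.inl ?_⟩
      · unfold dec_big at h1
        omega
      · exact (hBro D V (P.val j) b (dec2_sc P i₀ j) univ).1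
          (dec_dep_mono (P.dep j : DepOn (P.val j) (P.scope j)) (dec2_sub P i₀ j)) hb
  · obtain ⟨h1, h2, h3⟩ := ht
    dsimp only at h1 h2 h3
    obtain ⟨S, hSA, hSU, hS1, hS2⟩ := dec_between h2 (by unfold dec_big at h3; omega) h1 hC
    refine ⟨S, hS1, hS2, fun b hb => Or.inl ?_⟩
    refine (hBro D V (fun y => P.val j y * P.val k y) b S univ).1 (dec_dep_mul ?_ ?_) ?_
    · exact dec_dep_mono (P.dep j : DepOn (P.val j) (P.scope j)) (subset_union_left.trans hSA)
    · exact dec_dep_mono (P.dep k : DepOn (P.val k) (P.scope k)) (subset_union_right.trans hSA)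
    · refine dec_dep_mono hb ?_
      rw [compl_subset_compl]
      exact hSU

/-- the functions of the state -/
def dec2_H {s W : ℕ} (P : Program D V s W) : Fin s ⊕ DecI s → (V → D) → ℝ≥0
  | Sum.inl j => P.val j
  | Sum.inr t => dec2_G P t

/-- the scopes of the state -/
def dec2_W {s W : ℕ} (P : Program D V s W) (i₀ : Fin s) : Fin s ⊕ DecI s → Finset V
  | Sum.inl j => dec2_sc P i₀ j
  | Sum.inr t => dec2_U P i₀ t

/-- the indices of the state that may occur at time `m` -/
def dec2_at {s W : ℕ} (P : Program D V s W) (i₀ : Fin s) (C : Finset V) (m : ℕ) : Fin s ⊕ DecI s → Prop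
  | Sum.inl j => (j : ℕ) < m ∧ dec_big C (dec2_sc P i₀ j)
  | Sum.inr t => dec2_ok P i₀ C t

/-- one product -/
theorem dec2_pair {s W : ℕ} (P : Program D V s W) (i₀ : Fin s) {C : Finset V}
    {i j k : Fin s} (hi : (i : ℕ) ≤ i₀) (hbig : dec_big C (dec2_sc P i₀ i)) (hj : j < i) (hk : k < i)
    (hjk : Disjoint (P.scope j) (P.scope k)) (hU : P.scope j ∪ P.scope k ⊆ P.scope i)
    (c : (V → D) → ℝ≥0) (hc : DepOn c (dec2_sc P i₀ i)ᶜ) (α : ℝ≥0) :
    ∃ (q : Fin s ⊕ DecI s) (φ : (V → D) → ℝ≥0), dec2_at P i₀ C i q ∧ DepOn φ (dec2_W P i₀ q)ᶜ ∧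
      ∀ y, α * (P.val j y * P.val k y) * c y = dec2_H P q y * φ y := by
  have hj0 : dec2_sc P i₀ j = P.scope j := by
    unfold dec2_sc
    rw [if_neg]
    rintro rfl
    exact absurd hj (not_lt.2 (by exact_mod_cast hi))
  have hk0 : dec2_sc P i₀ k = P.scope k := by
    unfold dec2_sc
    rw [if_neg]
    rintro rfl
    exact absurd hk (not_lt.2 (by exact_mod_cast hi))
  have hU' := hU.trans (dec2_sub P i₀ i)
  have hcj : DepOn c (P.scope j)ᶜ := by
    refine dec_dep_mono hc ?_
    rw [compl_subset_compl]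
    exact subset_union_left.trans hU'
  have hck : DepOn c (P.scope k)ᶜ := by
    refine dec_dep_mono hc ?_
    rw [compl_subset_compl]
    exact subset_union_right.trans hU'
  have hkj : DepOn (P.val k) (P.scope j)ᶜ :=
    dec_dep_mono (P.dep k : DepOn (P.val k) (P.scope k)) (subset_compl_iff_disjoint_left.2 hjk)
  have hjk' : DepOn (P.val j) (P.scope k)ᶜ :=
    dec_dep_mono (P.dep j : DepOn (P.val j) (P.scope j)) (subset_compl_iff_disjoint_right.2 hjk)
  have hφj : DepOn (fun y => α * P.val k y * c y) (P.scope j)ᶜ :=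
    dec_dep_mul (dec_dep_mul (dec_dep_const _ α) hkj) hcj
  have hφk : DepOn (fun y => α * P.val j y * c y) (P.scope k)ᶜ :=
    dec_dep_mul (dec_dep_mul (dec_dep_const _ α) hjk') hck
  by_cases hbj : dec_big C (P.scope j)
  · refine ⟨Sum.inl j, fun y => α * P.val k y * c y, ⟨hj, by rw [hj0]; exact hbj⟩, ?_, ?_⟩
    · show DepOn _ (dec2_sc P i₀ j)ᶜ
      rw [hj0]; exact hφj
    · intro y
      show _ = P.val j y * _
      ring
  by_cases hbk : dec_big C (P.scope k)
  · refine ⟨Sum.inl k, fun y => α * P.val j y * c y, ⟨hk, by rw [hk0]; exact hbk⟩, ?_, ?_⟩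
    · show DepOn _ (dec2_sc P i₀ k)ᶜ
      rw [hk0]; exact hφk
    · intro y
      show _ = P.val k y * _
      ring
  by_cases hlj : C.card ≤ 3 * (P.scope j ∩ C).card
  · refine ⟨Sum.inr (Sum.inl j), fun y => α * P.val k y * c y, Or.inr ⟨?_, ?_⟩, ?_, ?_⟩
    · rw [hj0]; exact hbj
    · rw [hj0]; exact hlj
    · show DepOn _ (dec2_sc P i₀ j)ᶜ
      rw [hj0]; exact hφj
    · intro y
      show _ = P.val j y * _
      ring
  by_cases hlk : C.card ≤ 3 * (P.scope k ∩ C).card
  · refine ⟨Sum.inr (Sum.inl k), fun y => α * P.val j y * c y, Or.inr ⟨?_, ?_⟩, ?_, ?_⟩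
    · rw [hk0]; exact hbk
    · rw [hk0]; exact hlk
    · show DepOn _ (dec2_sc P i₀ k)ᶜ
      rw [hk0]; exact hφk
    · intro y
      show _ = P.val k y * _
      ring
  · refine ⟨Sum.inr (Sum.inr (i, j, k)), fun y => α * c y, ⟨hbig, hU', ?_⟩,
      dec_dep_mul (dec_dep_const _ α) hc, ?_⟩
    · dsimp only
      unfold dec_big
      have h5 : ((P.scope j ∪ P.scope k) ∩ C).card ≤
          (P.scope j ∩ C).card + (P.scope k ∩ C).card := by
        rw [union_inter_distrib_right]
        exact card_union_le _ _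
      omega
    · intro y
      show _ = (P.val j y * P.val k y) * _
      ring

/-- the induction for one assignment `x` -/
theorem dec2_ind {s W : ℕ} (P : Program D V s W) (i₀ : Fin s) {C : Finset V} (x : V → D) :
    ∀ (m : ℕ), m ≤ i₀ + 1 → ∀ (β : Fin s ⊕ DecI s → (V → D) → ℝ≥0),
      (∀ q, ¬ dec2_at P i₀ C m q → ∀ y, β q y = 0) →
      (∀ q, DepOn (β q) (dec2_W P i₀ q)ᶜ) →
      (∀ y, ∑ q, dec2_H P q y * β q y ≤ P.val i₀ y) →
      (∑ q, dec2_H P q x * β q x = P.val i₀ x) →
      ∃ b : DecI s → (V → D) → ℝ≥0,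
        (∀ t, ¬ dec2_ok P i₀ C t → ∀ y, b t y = 0) ∧ (∀ t, DepOn (b t) (dec2_U P i₀ t)ᶜ) ∧
        (∀ y, ∑ t, dec2_G P t y * b t y ≤ P.val i₀ y) ∧
        (∑ t, dec2_G P t x * b t x = P.val i₀ x) := by
  classical
  intro m
  induction m with
  | zero =>
    intro _ β h1 h2 h3 h4
    have h0 : ∀ j y, β (Sum.inl j) y = 0 := by
      intro j y
      apply h1
      rintro ⟨h, _⟩
      exact absurd h (Nat.not_lt_zero _)
    have hs : ∀ y, ∑ q, dec2_H P q y * β q y = ∑ t, dec2_G P t y * β (Sum.inr t) y := by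
      intro y
      rw [Fintype.sum_sum_type]
      have : ∑ j, dec2_H P (Sum.inl j) y * β (Sum.inl j) y = 0 :=
        Finset.sum_eq_zero fun j _ => by rw [h0, mul_zero]
      rw [this, zero_add]
      rfl
    refine ⟨fun t => β (Sum.inr t), fun t ht y => h1 (Sum.inr t) ht y, fun t => h2 (Sum.inr t), ?_, ?_⟩
    · intro y; rw [← hs]; exact h3 y
    · rw [← hs]; exact h4
  | succ m ih =>
    intro hm β h1 h2 h3 h4
    have hms : m < s := lt_of_lt_of_le (Nat.lt_of_succ_le (by omega : m + 1 ≤ i₀ + 1)) i₀.2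
    set i : Fin s := ⟨m, hms⟩ with hi
    have him : (i : ℕ) = m := rfl
    by_cases hbig : dec_big C (dec2_sc P i₀ i)
    · -- expand gate i
      have key : ∃ (ι : Type) (_ : Fintype ι) (τ : ι → Fin s ⊕ DecI s) (φ : ι → (V → D) → ℝ≥0),
          (∀ p, dec2_at P i₀ C m (τ p)) ∧ (∀ p, DepOn (φ p) (dec2_W P i₀ (τ p))ᶜ) ∧
          (∀ y, ∑ p, dec2_H P (τ p) y * φ p y ≤ P.val i y * β (Sum.inl i) y) ∧
          (∑ p, dec2_H P (τ p) x * φ p x = P.val i x * β (Sum.inl i) x) := by
        rcases or_assoc.2 (P.gate i) with hT | hg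
        · refine ⟨Unit, inferInstance, fun _ => Sum.inr (Sum.inl i), fun _ => β (Sum.inl i),
            fun _ => Or.inl ⟨hbig, hT⟩, fun _ => h2 (Sum.inl i), ?_, ?_⟩
          · intro y; simp [dec2_H, dec2_G]
          · simp [dec2_H, dec2_G]
        · obtain ⟨a, ha, ha1, ha2⟩ := hg x
          have hp : ∀ p : {p : Fin s × Fin s // a p.1 p.2 ≠ 0},
              ∃ (q : Fin s ⊕ DecI s) (φ : (V → D) → ℝ≥0), dec2_at P i₀ C i q ∧
                DepOn φ (dec2_W P i₀ q)ᶜ ∧
                ∀ y, a p.1.1 p.1.2 * (P.val p.1.1 y * P.val p.1.2 y) * β (Sum.inl i) y =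
                  dec2_H P q y * φ y := by
            rintro ⟨⟨j, k⟩, hjk⟩
            obtain ⟨e1, e2, e3, e4⟩ := ha j k hjk
            exact dec2_pair P i₀ (by omega) hbig e1 e2 e3 e4 _ (h2 (Sum.inl i)) _
          choose τ φ hτ hφ hτφ using hp
          have hsum : ∀ y, ∑ p, dec2_H P (τ p) y * φ p y =
              (∑ j, ∑ k, a j k * (P.val j y * P.val k y)) * β (Sum.inl i) y := by
            intro y
            rw [Finset.sum_congr rfl fun p _ => (hτφ p y).symm, ← Finset.sum_mul,
              ← Fintype.sum_prod_type' (f := fun j k => a j k * (P.val j y * P.val k y)),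
              ← Finset.sum_subtype (univ.filter fun p : Fin s × Fin s => a p.1 p.2 ≠ 0)
                (fun p => by simp) (fun p => a p.1 p.2 * (P.val p.1 y * P.val p.2 y))]
            congr 1
            refine Finset.sum_filter_of_ne ?_
            intro p _ hp h0
            exact hp (by rw [h0, zero_mul])
          refine ⟨_, inferInstance, τ, φ, hτ, hφ, ?_, ?_⟩
          · intro y
            rw [hsum]
            exact mul_le_mul_left (ha2 y) _
          · rw [hsum, ← ha1]
      obtain ⟨ι, _, τ, φ, e1, e2, e3, e4⟩ := key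
      set β' : Fin s ⊕ DecI s → (V → D) → ℝ≥0 := fun q y =>
        (if q = Sum.inl i then 0 else β q y) + ∑ p ∈ univ.filter (fun p => τ p = q), φ p y with hβ'
      have hnew : ∀ y, (∑ q, dec2_H P q y * β' q y) + P.val i y * β (Sum.inl i) y =
          (∑ q, dec2_H P q y * β q y) + ∑ p, dec2_H P (τ p) y * φ p y := by
        intro y
        have f1 : ∑ q, dec2_H P q y * β' q y =
            ∑ q, dec2_H P q y * (if q = Sum.inl i then 0 else β q y) +
              ∑ q, dec2_H P q y * ∑ p ∈ univ.filter (fun p => τ p = q), φ p y := by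
          rw [← Finset.sum_add_distrib]
          exact Finset.sum_congr rfl fun q _ => mul_add _ _ _
        have f2 : ∑ q, dec2_H P q y * ∑ p ∈ univ.filter (fun p => τ p = q), φ p y =
            ∑ p, dec2_H P (τ p) y * φ p y := by
          rw [← Finset.sum_fiberwise (s := univ) (g := τ)]
          refine Finset.sum_congr rfl fun q _ => ?_
          rw [Finset.mul_sum]
          refine Finset.sum_congr rfl fun p hp => ?_
          rw [(mem_filter.1 hp).2]
        have f3 : ∑ q, dec2_H P q y * (if q = Sum.inl i then 0 else β q y) +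
            P.val i y * β (Sum.inl i) y = ∑ q, dec2_H P q y * β q y := by
          rw [← Finset.sum_erase_add _ _ (mem_univ (Sum.inl i : Fin s ⊕ DecI s)),
            ← Finset.sum_erase_add univ (fun q => dec2_H P q y * β q y)
              (mem_univ (Sum.inl i : Fin s ⊕ DecI s)), if_pos rfl, mul_zero, add_zero]
          congr 1
          refine Finset.sum_congr rfl fun q hq => ?_
          rw [if_neg (ne_of_mem_erase hq)]
        rw [f1, f2, ← f3]
        ring
      apply ih (by omega) β'
      · intro q hq y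
        have g1 : (if q = Sum.inl i then 0 else β q y) = 0 := by
          split_ifs with h
          · rfl
          · apply h1
            intro hat
            apply hq
            rcases q with j | t
            · refine ⟨?_, hat.2⟩
              have := hat.1
              have hne : (j : ℕ) ≠ m := fun hh => h (by rw [Sum.inl.injEq]; exact Fin.ext hh)
              omega
            · exact hat
        have g2 : ∑ p ∈ univ.filter (fun p => τ p = q), φ p y = 0 := by
          rw [Finset.filter_false_of_mem, Finset.sum_empty]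
          intro p _ hp
          exact hq (hp ▸ e1 p)
        show (if q = Sum.inl i then 0 else β q y) + _ = 0
        rw [g1, g2, add_zero]
      · intro q
        refine dec_dep_add ?_ (dec_dep_sum fun p hp => ?_)
        · split_ifs with h
          · exact dec_dep_const _ 0
          · exact h2 q
        · rw [← (mem_filter.1 hp).2]
          exact e2 p
      · intro y
        have g1 := hnew y
        have g2 := e3 y
        have g3 := h3 y
        have g4 : (∑ q, dec2_H P q y * β' q y) + P.val i y * β (Sum.inl i) y ≤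
            P.val i₀ y + P.val i y * β (Sum.inl i) y := by
          rw [g1]
          exact add_le_add g3 g2
        exact le_of_add_le_add_right g4
      · have g1 := hnew x
        rw [e4, h4] at g1
        exact add_right_cancel g1
    · -- gate i is not big: its context is zero
      apply ih (by omega) β _ h2 h3 h4
      intro q hq y
      apply h1
      intro hat
      apply hq
      rcases q with j | t
      · refine ⟨?_, hat.2⟩
        have := hat.1
        have hne : (j : ℕ) ≠ m := by
          intro hh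
          have : j = i := Fin.ext hh
          rw [this] at hat
          exact hbig hat.2
        omega
      · exact hat

end

theorem thm_Dec2 (hBro : St_Bro) : St_Dec2 := by
  classical
  intro D V _ _ _ _ s W P i₀ C hC
  have hroot : dec2_sc P i₀ i₀ = univ := by unfold dec2_sc; rw [if_pos rfl]
  have hx : ∀ x : V → D, ∃ b : DecI s → (V → D) → ℝ≥0,
        (∀ t, ¬ dec2_ok P i₀ C t → ∀ y, b t y = 0) ∧ (∀ t, DepOn (b t) (dec2_U P i₀ t)ᶜ) ∧
        (∀ y, ∑ t, dec2_G P t y * b t y ≤ P.val i₀ y) ∧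
        (∑ t, dec2_G P t x * b t x = P.val i₀ x) := by
    intro x
    have hs : ∀ y, ∑ q, dec2_H P q y * (if q = Sum.inl i₀ then 1 else 0 : ℝ≥0) = P.val i₀ y := by
      intro y
      rw [Finset.sum_eq_single (Sum.inl i₀)]
      · rw [if_pos rfl, mul_one]; rfl
      · intro q _ hq; rw [if_neg hq, mul_zero]
      · intro h; exact absurd (mem_univ _) h
    refine dec2_ind P i₀ x (i₀ + 1) le_rfl (fun q _ => if q = Sum.inl i₀ then 1 else 0) ?_ ?_ ?_ ?_
    · intro q hq y
      rw [if_neg]
      rintro rfl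
      apply hq
      refine ⟨Nat.lt_succ_self _, ?_⟩
      unfold dec_big
      rw [hroot, univ_inter]
      omega
    · intro q
      exact dec_dep_const _ _
    · intro y; exact (hs y).le
    · exact hs x
  choose b hb1 hb2 hb3 hb4 using hx
  have hS : ∀ t : DecI s, ∃ S : Finset V, dec2_ok P i₀ C t →
      C.card ≤ 3 * (S ∩ C).card ∧ 3 * (S ∩ C).card ≤ 2 * C.card ∧
      ∀ b : (V → D) → ℝ≥0, DepOn b (dec2_U P i₀ t)ᶜ →
        Broken (fun y => dec2_G P t y * b y) S ∨ RankLe W (fun y => dec2_G P t y * b y) S := by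
    intro t
    by_cases ht : dec2_ok P i₀ C t
    · obtain ⟨S, hS⟩ := dec2_S hBro P i₀ hC t ht
      exact ⟨S, fun _ => hS⟩
    · exact ⟨∅, fun h => absurd h ht⟩
  choose S hS using hS
  -- the second factors: maximum over all assignments
  set B : DecI s → (V → D) → ℝ≥0 := fun t y => univ.sup fun x => b x t y with hB
  have hBdep : ∀ t, DepOn (B t) (dec2_U P i₀ t)ᶜ := by
    intro t y z hyz
    simp only [hB]
    congr 1
    funext x
    exact hb2 x t y z hyz
  have hBle : ∀ t y, dec2_G P t y * B t y ≤ P.val i₀ y := by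
    intro t y
    have hne : (univ : Finset (V → D)).Nonempty := ⟨y, mem_univ y⟩
    obtain ⟨x, _, hx⟩ := Finset.exists_mem_eq_sup univ hne fun x => b x t y
    have : B t y = b x t y := hx
    rw [this]
    refine le_trans ?_ (hb3 x y)
    exact Finset.single_le_sum (f := fun t => dec2_G P t y * b x t y) (fun _ _ => zero_le)
      (mem_univ t)
  refine ⟨{t : DecI s // dec2_ok P i₀ C t}, inferInstance, fun t y => dec2_G P t.1 y * B t.1 y,
    fun t => S t.1, ?_, ?_, ?_⟩
  · refine (Fintype.card_subtype_le _).trans ?_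
    have hs : 1 ≤ s := lt_of_le_of_lt (Nat.zero_le _) i₀.2
    have e : Fintype.card (DecI s) = s + s * (s * s) := by
      simp [DecI, Fintype.card_sum, Fintype.card_prod]
    rw [e]
    have h4 : s * 1 ≤ s * (s * s) := Nat.mul_le_mul_left _ (by nlinarith)
    have h6 : 2 * s ^ 3 = s * (s * s) + s * (s * s) := by ring
    rw [h6]
    omega
  · intro x
    rw [← hb4 x]
    have e1 : ∑ t, dec2_G P t x * b x t x =
        ∑ t : {t : DecI s // dec2_ok P i₀ C t}, dec2_G P t.1 x * b x t.1 x := by
      rw [← Finset.sum_subtype (univ.filter fun t : DecI s => dec2_ok P i₀ C t)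
        (fun t => by simp) (fun t => dec2_G P t x * b x t x)]
      symm
      refine Finset.sum_filter_of_ne ?_
      intro t _ ht
      by_contra hno
      exact ht (by rw [hb1 x t hno x, mul_zero])
    rw [e1]
    refine Finset.sum_le_sum fun t _ => mul_le_mul' le_rfl ?_
    exact Finset.le_sup (f := fun z => b z t.1 x) (mem_univ x)
  · intro t
    exact ⟨hBle t.1, (hS t.1 t.2).1, (hS t.1 t.2).2.1, (hS t.1 t.2).2.2 _ (hBdep t.1)⟩

end Pool.Agent.WD
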