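import Pool.Agent.WE.St
import Pool.Agent.WD.LossA

/-!
# [LossA2] rank `W` across a cut, the case of a non-rectangular support
-/

namespace Pool.Agent.WD

open Finset
open scoped NNReal

/-- a triangular matrix with nonzero diagonal and rank at most `W` has at most `W` rows -/
lemma lossa2_tri {ι : Type} [Fintype ι] {W : ℕ} (u v : ι → Fin W → ℝ) (φ : ι → ℕ)
    (h0 : ∀ A, ∑ i, u A i * v A i ≠ 0)
    (h1 : ∀ A B, A ≠ B → φ A ≤ φ B → ∑ i, u A i * v B i = 0) : Fintype.card ι ≤ W := by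
  classical
  have hli : LinearIndependent ℝ v := by
    rw [Fintype.linearIndependent_iff]
    intro g hg
    by_contra hcon
    push Not at hcon
    obtain ⟨A₁, hA₁⟩ := hcon
    obtain ⟨A, hA, hmin⟩ := exists_min_image (univ.filter fun A => g A ≠ 0) φ
      ⟨A₁, mem_filter.2 ⟨mem_univ _, hA₁⟩⟩
    have h2 : ∑ B, g B * ∑ i, u A i * v B i = 0 := by
      have h3 : ∑ i, u A i * (∑ B, g B • v B) i = 0 := by
        rw [hg]
        simp
      rw [← h3]
      simp only [Finset.sum_apply, Pi.smul_apply, smul_eq_mul, mul_sum]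
      rw [sum_comm]
      exact sum_congr rfl fun i _ => sum_congr rfl fun B _ => by ring
    rw [sum_eq_single A] at h2
    · exact (mul_ne_zero (mem_filter.1 hA).2 (h0 A)) h2
    · intro B _ hB
      by_cases hgB : g B = 0
      · rw [hgB, zero_mul]
      · rw [h1 A B hB.symm (hmin B (mem_filter.2 ⟨mem_univ _, hgB⟩)), mul_zero]
    · intro h
      exact absurd (mem_univ _) h
  have h4 := hli.fintype_card_le_finrank
  rwa [Module.finrank_fin_fun] at h4

section

variable {D K : Type}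

/-- the patch of `e` has one of the two special values -/
def lossa2_act (E : Finset (K × K)) (a a' b b' : D) (e : K × K) (x : K → D) : Prop :=
  ((x e.1 = a' ∧ x e.2 = b) ∨ (x e.1 = a ∧ x e.2 = b')) ∧
    (∀ w, w ≠ e.2 → (e.1, w) ∈ E → x w = b) ∧ ∀ w, w ≠ e.1 → (w, e.2) ∈ E → x w = a

lemma lossa2_act_congr {E : Finset (K × K)} {a a' b b' : D} {e : K × K} {x y : K → D}
    (h : ∀ w, Near E e w → x w = y w) :
    lossa2_act E a a' b b' e x ↔ lossa2_act E a a' b b' e y := by
  have h1 : x e.1 = y e.1 := h _ (Or.inl rfl)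
  have h2 : x e.2 = y e.2 := h _ (Or.inr (Or.inl rfl))
  have h3 : ∀ w, (e.1, w) ∈ E → x w = y w := fun w hw => h w (Or.inr (Or.inr (Or.inl hw)))
  have h4 : ∀ w, (w, e.2) ∈ E → x w = y w := fun w hw => h w (Or.inr (Or.inr (Or.inr hw)))
  unfold lossa2_act
  rw [h1, h2]
  refine and_congr Iff.rfl (and_congr ?_ ?_)
  · exact forall_congr' fun w => imp_congr_right fun _ => forall_congr' fun hw => by rw [h3 w hw]
  · exact forall_congr' fun w => imp_congr_right fun _ => forall_congr' fun hw => by rw [h4 w hw]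

open scoped Classical in
/-- the active edges -/
noncomputable def lossa2_N (E J : Finset (K × K)) (a a' b b' : D) (x : K → D) :
    Finset (K × K) := J.filter fun e => lossa2_act E a a' b b' e x

lemma lossa2_mem_N {E J : Finset (K × K)} {a a' b b' : D} {x : K → D} {e : K × K} :
    e ∈ lossa2_N E J a a' b b' x ↔ e ∈ J ∧ lossa2_act E a a' b b' e x := by
  classical
  unfold lossa2_N
  exact mem_filter

variable [DecidableEq K]

/-- set the ends of the edges in `N` to the special values, the second one on `A` -/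
def lossa2_set (a a' b b' : D) (A N : Finset (K × K)) (x : K → D) : K → D := fun w =>
  if w ∈ N.image Prod.fst then (if w ∈ A.image Prod.fst then a else a')
  else if w ∈ N.image Prod.snd then (if w ∈ A.image Prod.snd then b' else b) else x w

/-- `J` is a matching and no left end is a right end -/
def lossa2_M (J : Finset (K × K)) : Prop :=
  (∀ e ∈ J, ∀ f ∈ J, e.1 = f.1 → e = f) ∧ (∀ e ∈ J, ∀ f ∈ J, e.2 = f.2 → e = f) ∧
    ∀ e ∈ J, ∀ f ∈ J, e.1 ≠ f.2

lemma lossa2_fst {J : Finset (K × K)} (hM : lossa2_M J) {A N : Finset (K × K)} (hN : N ⊆ J)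
    (hA : A ⊆ N) {a a' b b' : D} (x : K → D) {e : K × K} (he : e ∈ N) :
    lossa2_set a a' b b' A N x e.1 = if e ∈ A then a else a' := by
  unfold lossa2_set
  rw [if_pos (mem_image_of_mem _ he)]
  have h1 : e.1 ∈ A.image Prod.fst ↔ e ∈ A := by
    constructor
    · intro h
      obtain ⟨f, hf, hfe⟩ := mem_image.1 h
      rw [← hM.1 f (hN (hA hf)) e (hN he) hfe]
      exact hf
    · exact fun h => mem_image_of_mem _ h
  by_cases h : e ∈ A
  · rw [if_pos (h1.2 h), if_pos h]
  · rw [if_neg (fun h' => h (h1.1 h')), if_neg h]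

lemma lossa2_snd {J : Finset (K × K)} (hM : lossa2_M J) {A N : Finset (K × K)} (hN : N ⊆ J)
    (hA : A ⊆ N) {a a' b b' : D} (x : K → D) {e : K × K} (he : e ∈ N) :
    lossa2_set a a' b b' A N x e.2 = if e ∈ A then b' else b := by
  unfold lossa2_set
  rw [if_neg, if_pos (mem_image_of_mem _ he)]
  · have h1 : e.2 ∈ A.image Prod.snd ↔ e ∈ A := by
      constructor
      · intro h
        obtain ⟨f, hf, hfe⟩ := mem_image.1 h
        rw [← hM.2.1 f (hN (hA hf)) e (hN he) hfe]
        exact hf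
      · exact fun h => mem_image_of_mem _ h
    by_cases h : e ∈ A
    · rw [if_pos (h1.2 h), if_pos h]
    · rw [if_neg (fun h' => h (h1.1 h')), if_neg h]
  · intro h
    obtain ⟨f, hf, hfe⟩ := mem_image.1 h
    exact hM.2.2 f (hN hf) e (hN he) hfe

lemma lossa2_off {A N : Finset (K × K)} {a a' b b' : D} (x : K → D) {w : K}
    (hw : ∀ e ∈ N, w ≠ e.1 ∧ w ≠ e.2) : lossa2_set a a' b b' A N x w = x w := by
  unfold lossa2_set
  rw [if_neg, if_neg]
  · intro h
    obtain ⟨f, hf, hfe⟩ := mem_image.1 h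
    exact (hw f hf).2 hfe.symm
  · intro h
    obtain ⟨f, hf, hfe⟩ := mem_image.1 h
    exact (hw f hf).1 hfe.symm

/-- extensionality: values at the left ends, at the right ends and elsewhere -/
lemma lossa2_ext {N : Finset (K × K)} {x y : K → D} (h1 : ∀ e ∈ N, x e.1 = y e.1)
    (h2 : ∀ e ∈ N, x e.2 = y e.2) (h3 : ∀ w, (∀ e ∈ N, w ≠ e.1 ∧ w ≠ e.2) → x w = y w) :
    x = y := by
  funext w
  by_cases h : ∀ e ∈ N, w ≠ e.1 ∧ w ≠ e.2
  · exact h3 w h
  · push Not at h
    obtain ⟨e, he, h4⟩ := h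
    by_cases h5 : w = e.1
    · rw [h5]
      exact h1 e he
    · rw [h4 h5]
      exact h2 e he

lemma lossa2_set_set {J : Finset (K × K)} (hM : lossa2_M J) {A B N : Finset (K × K)} (hN : N ⊆ J)
    (hA : A ⊆ N) (hB : B ⊆ N) {a a' b b' : D} (x : K → D) :
    lossa2_set a a' b b' A N (lossa2_set a a' b b' B N x) = lossa2_set a a' b b' A N x := by
  refine lossa2_ext (N := N) ?_ ?_ ?_
  · intro e he
    rw [lossa2_fst hM hN hA _ he, lossa2_fst hM hN hA _ he]
  · intro e he
    rw [lossa2_snd hM hN hA _ he, lossa2_snd hM hN hA _ he]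
  · intro w hw
    rw [lossa2_off _ hw, lossa2_off _ hw, lossa2_off _ hw]

variable {E J : Finset (K × K)} {col : K → Bool}

lemma lossa2_matching (hbip : ∀ e ∈ E, col e.1 = true ∧ col e.2 = false) (hJ : Ind E J) :
    lossa2_M J := by
  refine ⟨fun e he f hf h => ?_, fun e he f hf h => ?_, fun e he f hf h => ?_⟩
  · by_contra hne
    exact (hJ.2 e he f hf hne e.1 f.1 (Or.inl rfl) (Or.inl rfl)).1 h
  · by_contra hne
    exact (hJ.2 e he f hf hne e.2 f.2 (Or.inr rfl) (Or.inr rfl)).1 h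
  · have h1 := (hbip e (hJ.1 he)).1
    have h2 := (hbip f (hJ.1 hf)).2
    rw [h, h2] at h1
    exact absurd h1 (by simp)

/-- a neighbour of an end of an edge of `J` is not an end of another edge of `J` -/
lemma lossa2_nb1 (hbip : ∀ e ∈ E, col e.1 = true ∧ col e.2 = false) (hJ : Ind E J) {e : K × K}
    (he : e ∈ J) {w : K} (hw : w ≠ e.2) (hew : (e.1, w) ∈ E) : ∀ f ∈ J, w ≠ f.1 ∧ w ≠ f.2 := by
  intro f hf
  by_cases hfe : f = e
  · subst hfe
    refine ⟨fun h => ?_, hw⟩
    have h1 := (hbip _ hew)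
    simp only at h1
    rw [h, h1.1] at h1
    exact absurd h1.2 (by simp)
  · have hI := hJ.2 e he f hf (fun h => hfe h.symm)
    refine ⟨fun h => ?_, fun h => ?_⟩
    · exact (hI e.1 f.1 (Or.inl rfl) (Or.inl rfl)).2.1 (h ▸ hew)
    · exact (hI e.1 f.2 (Or.inl rfl) (Or.inr rfl)).2.1 (h ▸ hew)

lemma lossa2_nb2 (hbip : ∀ e ∈ E, col e.1 = true ∧ col e.2 = false) (hJ : Ind E J) {e : K × K}
    (he : e ∈ J) {w : K} (hw : w ≠ e.1) (hew : (w, e.2) ∈ E) : ∀ f ∈ J, w ≠ f.1 ∧ w ≠ f.2 := by
  intro f hf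
  by_cases hfe : f = e
  · subst hfe
    refine ⟨hw, fun h => ?_⟩
    have h1 := (hbip _ hew)
    simp only at h1
    rw [h, h1.2] at h1
    exact absurd h1.1 (by simp)
  · have hI := hJ.2 e he f hf (fun h => hfe h.symm)
    refine ⟨fun h => ?_, fun h => ?_⟩
    · exact (hI e.2 f.1 (Or.inr rfl) (Or.inl rfl)).2.2 (h ▸ hew)
    · exact (hI e.2 f.2 (Or.inr rfl) (Or.inr rfl)).2.2 (h ▸ hew)

/-- the set of active edges does not change -/
lemma lossa2_N_set (hbip : ∀ e ∈ E, col e.1 = true ∧ col e.2 = false) (hJ : Ind E J)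
    (hP : Pat E J) {a a' b b' : D} {A : Finset (K × K)} {x : K → D}
    (hA : A ⊆ lossa2_N E J a a' b b' x) :
    lossa2_N E J a a' b b' (lossa2_set a a' b b' A (lossa2_N E J a a' b b' x) x) =
      lossa2_N E J a a' b b' x := by
  set N := lossa2_N E J a a' b b' x with hN
  have hNJ : N ⊆ J := fun e he => (lossa2_mem_N.1 he).1
  have hM := lossa2_matching hbip hJ
  ext e
  rw [lossa2_mem_N]
  by_cases heN : e ∈ N
  · have heJ := hNJ heN
    have hact := (lossa2_mem_N.1 heN).2
    refine ⟨fun _ => heN, fun _ => ⟨heJ, ?_, fun w hw hew => ?_, fun w hw hew => ?_⟩⟩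
    · rw [lossa2_fst hM hNJ hA _ heN, lossa2_snd hM hNJ hA _ heN]
      by_cases h : e ∈ A
      · rw [if_pos h, if_pos h]
        exact Or.inr ⟨rfl, rfl⟩
      · rw [if_neg h, if_neg h]
        exact Or.inl ⟨rfl, rfl⟩
    · rw [lossa2_off _ (fun f hf => lossa2_nb1 hbip hJ heJ hw hew f (hNJ hf))]
      exact hact.2.1 w hw hew
    · rw [lossa2_off _ (fun f hf => lossa2_nb2 hbip hJ heJ hw hew f (hNJ hf))]
      exact hact.2.2 w hw hew
  · refine ⟨fun h => ?_, fun h => absurd h heN⟩
    obtain ⟨heJ, hact⟩ := h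
    exfalso
    apply heN
    refine lossa2_mem_N.2 ⟨heJ, ?_⟩
    refine (lossa2_act_congr fun w hw => ?_).1 hact
    refine lossa2_off _ fun f hf => ?_
    have hne : e ≠ f := fun h => heN (h ▸ hf)
    exact ⟨fun h => hP.2 e heJ f (hNJ hf) hne w ⟨hw, Or.inl h⟩,
      fun h => hP.2 e heJ f (hNJ hf) hne w ⟨hw, Or.inr (Or.inl h)⟩⟩

variable [Fintype D] [DecidableEq D] [Fintype K]

lemma lossa2_set_mem (hbip : ∀ e ∈ E, col e.1 = true ∧ col e.2 = false) (hJ : Ind E J)
    {a a' b b' : D} {A N : Finset (K × K)} (hN : N ⊆ J) (hA : A ⊆ N) {x : K → D}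
    (hx : x ∈ lossa_Q col a a' b b') : lossa2_set a a' b b' A N x ∈ lossa_Q col a a' b b' := by
  have hM := lossa2_matching hbip hJ
  have hx' := (mem_filter.1 hx).2
  refine mem_filter.2 ⟨mem_univ _, fun w => ?_⟩
  by_cases h : ∀ e ∈ N, w ≠ e.1 ∧ w ≠ e.2
  · rw [lossa2_off _ h]
    exact hx' w
  · push Not at h
    obtain ⟨e, he, h4⟩ := h
    have hb := hbip e (hJ.1 (hN he))
    by_cases h5 : w = e.1
    · rw [h5, lossa2_fst hM hN hA _ he, hb.1]
      refine ⟨fun _ => ?_, fun h => absurd h (by simp)⟩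
      by_cases h6 : e ∈ A
      · rw [if_pos h6]
        exact Or.inl rfl
      · rw [if_neg h6]
        exact Or.inr rfl
    · rw [h4 h5, lossa2_snd hM hN hA _ he, hb.2]
      refine ⟨fun h => absurd h (by simp), fun _ => ?_⟩
      by_cases h6 : e ∈ A
      · rw [if_pos h6]
        exact Or.inr rfl
      · rw [if_neg h6]
        exact Or.inl rfl

/-- comparison of the weights of two assignments which differ at the ends of one edge only -/
lemma lossa2_ratio {M : D → D → ℝ≥0} {m0 m1 : ℝ≥0} (hm : m0 ≤ m1) (Δ : ℕ)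
    (hdeg : ∀ v, (E.filter fun e => e.1 = v ∨ e.2 = v).card ≤ Δ) (u v : K) {x y : K → D}
    (hxy : ∀ w, w ≠ u → w ≠ v → x w = y w)
    (hx : ∀ e ∈ E, (e.1 = u ∨ e.2 = u) ∨ (e.1 = v ∨ e.2 = v) → M (x e.1) (x e.2) ≤ m1)
    (hy : ∀ e ∈ E, (e.1 = u ∨ e.2 = u) ∨ (e.1 = v ∨ e.2 = v) → m0 ≤ M (y e.1) (y e.2)) :
    net E M x * m0 ^ (2 * Δ) ≤ net E M y * m1 ^ (2 * Δ) := by
  classical
  set A := E.filter fun e => (e.1 = u ∨ e.2 = u) ∨ (e.1 = v ∨ e.2 = v) with hA
  have hAE : A ⊆ E := filter_subset _ _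
  have hsplit : ∀ z : K → D, net E M z =
      (∏ e ∈ E \ A, M (z e.1) (z e.2)) * ∏ e ∈ A, M (z e.1) (z e.2) := by
    intro z
    unfold net
    rw [prod_sdiff hAE]
  have hoff : ∏ e ∈ E \ A, M (x e.1) (x e.2) = ∏ e ∈ E \ A, M (y e.1) (y e.2) := by
    refine prod_congr rfl fun e he => ?_
    obtain ⟨heE, heA⟩ := mem_sdiff.1 he
    have h4 : ¬ ((e.1 = u ∨ e.2 = u) ∨ (e.1 = v ∨ e.2 = v)) := fun h => heA (mem_filter.2 ⟨heE, h⟩)
    push Not at h4
    rw [hxy e.1 h4.1.1 h4.2.1, hxy e.2 h4.1.2 h4.2.2]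
  have hup : ∏ e ∈ A, M (x e.1) (x e.2) ≤ m1 ^ A.card := by
    refine prod_le_pow_card _ _ _ fun e he => ?_
    exact hx e (mem_filter.1 he).1 (mem_filter.1 he).2
  have hlo : m0 ^ A.card ≤ ∏ e ∈ A, M (y e.1) (y e.2) := by
    refine pow_card_le_prod _ _ _ fun e he => ?_
    exact hy e (mem_filter.1 he).1 (mem_filter.1 he).2
  have hcard : A.card ≤ 2 * Δ := by
    have h1 : A = (E.filter fun e => e.1 = u ∨ e.2 = u) ∪ (E.filter fun e => e.1 = v ∨ e.2 = v) := by
      rw [hA, filter_or]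
    rw [h1]
    refine le_trans (card_union_le _ _) ?_
    have := hdeg u
    have := hdeg v
    omega
  obtain ⟨t, ht⟩ := Nat.exists_eq_add_of_le hcard
  rw [hsplit x, hsplit y, hoff, ht, pow_add, pow_add]
  set P := ∏ e ∈ E \ A, M (y e.1) (y e.2)
  calc P * (∏ e ∈ A, M (x e.1) (x e.2)) * (m0 ^ A.card * m0 ^ t)
      ≤ P * m1 ^ A.card * ((∏ e ∈ A, M (y e.1) (y e.2)) * m1 ^ t) := by
        gcongr
    _ = P * (∏ e ∈ A, M (y e.1) (y e.2)) * (m1 ^ A.card * m1 ^ t) := by ring

/-- the values at the edges at an end of an active edge -/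
lemma lossa2_vals {M : D → D → ℝ≥0} (hbip : ∀ e ∈ E, col e.1 = true ∧ col e.2 = false)
    {a a' b b' : D} {e : K × K} (heE : e ∈ E) {x : K → D}
    (hact : lossa2_act E a a' b b' e x) (f : K × K) (hf : f ∈ E)
    (h : (f.1 = e.1 ∨ f.2 = e.1) ∨ (f.1 = e.2 ∨ f.2 = e.2)) :
    M (x f.1) (x f.2) = M a b ∨ M (x f.1) (x f.2) = M a b' ∨ M (x f.1) (x f.2) = M a' b := by
  have hbe := hbip e heE
  have hbf := hbip f hf
  have n1 : f.2 ≠ e.1 := by
    intro h'
    rw [h', hbe.1] at hbf
    exact absurd hbf.2 (by simp)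
  have n2 : f.1 ≠ e.2 := by
    intro h'
    rw [h', hbe.2] at hbf
    exact absurd hbf.1 (by simp)
  have h' : f.1 = e.1 ∨ f.2 = e.2 := by tauto
  obtain ⟨hends, hn1, hn2⟩ := hact
  by_cases h1 : f.1 = e.1
  · by_cases h2 : f.2 = e.2
    · rw [h1, h2]
      rcases hends with ⟨p, q⟩ | ⟨p, q⟩
      · rw [p, q]
        exact Or.inr (Or.inr rfl)
      · rw [p, q]
        exact Or.inr (Or.inl rfl)
    · have h3 : x f.2 = b := hn1 f.2 h2 (by rw [← h1]; exact hf)
      rw [h1, h3]
      rcases hends with ⟨p, q⟩ | ⟨p, q⟩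
      · rw [p]
        exact Or.inr (Or.inr rfl)
      · rw [p]
        exact Or.inl rfl
  · have h2 : f.2 = e.2 := h'.resolve_left h1
    have h3 : x f.1 = a := hn2 f.1 h1 (by rw [← h2]; exact hf)
    rw [h2, h3]
    rcases hends with ⟨p, q⟩ | ⟨p, q⟩
    · rw [q]
      exact Or.inl rfl
    · rw [q]
      exact Or.inr (Or.inl rfl)

/-- each element of a class has a small share of the mass of the class -/
lemma lossa2_share {M : D → D → ℝ≥0} {a a' b b' : D} {m0 m1 : ℝ≥0} (h1 : m0 ≤ M a b)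
    (h2 : m0 ≤ M a b') (h3 : m0 ≤ M a' b) (k1 : M a b ≤ m1) (k2 : M a b' ≤ m1) (k3 : M a' b ≤ m1)
    (p0 : 0 < m0) (hbip : ∀ e ∈ E, col e.1 = true ∧ col e.2 = false) (Δ : ℕ)
    (hdeg : ∀ v, (E.filter fun e => e.1 = v ∨ e.2 = v).card ≤ Δ) (hJ : Ind E J) (hP : Pat E J)
    (z : K → D) (A : Finset (K × K)) (hA : A ⊆ lossa2_N E J a a' b b' z) :
    (net E M (lossa2_set a a' b b' A (lossa2_N E J a a' b b' z) z) : ℝ) *
      (1 + ((m0 : ℝ) / m1) ^ (2 * Δ)) ^ (lossa2_N E J a a' b b' z).card ≤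
      ∑ B ∈ (lossa2_N E J a a' b b' z).powerset,
        (net E M (lossa2_set a a' b b' B (lossa2_N E J a a' b b' z) z) : ℝ) := by
  classical
  set N := lossa2_N E J a a' b b' z with hN
  have hNJ : N ⊆ J := fun e he => (lossa2_mem_N.1 he).1
  have hM := lossa2_matching hbip hJ
  set t : ℝ := ((m0 : ℝ) / m1) ^ (2 * Δ) with ht
  have hm : m0 ≤ m1 := le_trans h1 k1
  have p1 : 0 < m1 := lt_of_lt_of_le p0 hm
  have p1' : (0 : ℝ) < m1 := NNReal.coe_pos.2 p1
  have ht0 : 0 ≤ t := by positivity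
  set g : Finset (K × K) → ℝ := fun B => (net E M (lossa2_set a a' b b' B N z) : ℝ) with hg
  have hg0 : ∀ B, 0 ≤ g B := fun B => NNReal.coe_nonneg _
  -- changing one bit
  have hactive : ∀ C ⊆ N, ∀ e ∈ N, lossa2_act E a a' b b' e (lossa2_set a a' b b' C N z) := by
    intro C hC e he
    have h4 := lossa2_N_set hbip hJ hP hC
    have h5 : e ∈ lossa2_N E J a a' b b' (lossa2_set a a' b b' C (lossa2_N E J a a' b b' z) z) := by
      rw [h4]
      exact he
    exact (lossa2_mem_N.1 h5).2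
  have hratio : ∀ C ⊆ N, ∀ C' ⊆ N, ∀ e ∈ N, (∀ f, f ≠ e → (f ∈ C ↔ f ∈ C')) →
      g C * t ≤ g C' := by
    intro C hC C' hC' e he hCC
    have heE : e ∈ E := hJ.1 (hNJ he)
    have hr := lossa2_ratio (M := M) hm Δ hdeg e.1 e.2
      (x := lossa2_set a a' b b' C N z) (y := lossa2_set a a' b b' C' N z) (by
        intro w hw1 hw2
        by_cases h : ∀ f ∈ N, w ≠ f.1 ∧ w ≠ f.2
        · rw [lossa2_off _ h, lossa2_off _ h]
        · push Not at h
          obtain ⟨f, hf, h4⟩ := h
          by_cases h5 : w = f.1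
          · have hfe : f ≠ e := fun h => hw1 (h ▸ h5)
            rw [h5, lossa2_fst hM hNJ hC _ hf, lossa2_fst hM hNJ hC' _ hf]
            have := hCC f hfe
            by_cases h6 : f ∈ C
            · rw [if_pos h6, if_pos (this.1 h6)]
            · rw [if_neg h6, if_neg (fun h => h6 (this.2 h))]
          · have h7 := h4 h5
            have hfe : f ≠ e := fun h => hw2 (h ▸ h7)
            rw [h7, lossa2_snd hM hNJ hC _ hf, lossa2_snd hM hNJ hC' _ hf]
            have := hCC f hfe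
            by_cases h6 : f ∈ C
            · rw [if_pos h6, if_pos (this.1 h6)]
            · rw [if_neg h6, if_neg (fun h => h6 (this.2 h))])
      (by
        intro f hf hfe
        rcases lossa2_vals (M := M) hbip heE (hactive C hC e he) f hf hfe with h | h | h <;> rw [h]
        · exact k1
        · exact k2
        · exact k3)
      (by
        intro f hf hfe
        rcases lossa2_vals (M := M) hbip heE (hactive C' hC' e he) f hf hfe with h | h | h <;>
          rw [h]
        · exact h1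
        · exact h2
        · exact h3)
    have hr' := NNReal.coe_le_coe.2 hr
    push_cast at hr'
    rw [hg, ht, div_pow, mul_div_assoc', div_le_iff₀ (by positivity)]
    exact hr'
  -- induction
  have key : ∀ N' ⊆ N, g A * (1 + t) ^ N'.card ≤ ∑ B ∈ N'.powerset, g (B ∪ (A \ N')) := by
    intro N'
    induction N' using Finset.induction_on with
    | empty =>
      intro _
      simp
    | insert e N' heN' ih =>
      intro hsub
      have heN : e ∈ N := hsub (mem_insert_self _ _)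
      have hN'N : N' ⊆ N := fun f hf => hsub (mem_insert_of_mem hf)
      have ih' := ih hN'N
      rw [sum_powerset_insert heN', card_insert_of_notMem heN', pow_succ, ← mul_assoc]
      refine le_trans (mul_le_mul_of_nonneg_right ih' (by positivity)) ?_
      rw [sum_mul, ← sum_add_distrib]
      refine sum_le_sum fun B hB => ?_
      have hBN' : B ⊆ N' := mem_powerset.1 hB
      have heB : e ∉ B := fun h => heN' (hBN' h)
      set A₀ := B ∪ (A \ insert e N') with hA₀
      set A₁ := insert e B ∪ (A \ insert e N') with hA₁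
      have hA₀N : A₀ ⊆ N := union_subset (hBN'.trans hN'N) (sdiff_subset.trans hA)
      have hA₁N : A₁ ⊆ N := union_subset (insert_subset heN (hBN'.trans hN'N))
        (sdiff_subset.trans hA)
      have hdiff : ∀ f, f ≠ e → (f ∈ A₀ ↔ f ∈ A₁) := by
        intro f hf
        rw [hA₀, hA₁, mem_union, mem_union, mem_insert]
        tauto
      have r01 := hratio A₀ hA₀N A₁ hA₁N e heN hdiff
      have r10 := hratio A₁ hA₁N A₀ hA₀N e heN (fun f hf => (hdiff f hf).symm)
      by_cases heA : e ∈ A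
      · have h4 : B ∪ (A \ N') = A₁ := by
          ext f
          rw [hA₁, mem_union, mem_union, mem_sdiff, mem_sdiff, mem_insert, mem_insert]
          by_cases hf : f = e
          · subst hf
            simp [heA, heN']
          · tauto
        rw [h4, mul_add, mul_one]
        linarith
      · have h4 : B ∪ (A \ N') = A₀ := by
          ext f
          rw [hA₀, mem_union, mem_union, mem_sdiff, mem_sdiff, mem_insert]
          by_cases hf : f = e
          · subst hf
            simp [heA]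
          · tauto
        rw [h4, mul_add, mul_one]
        linarith
  have h5 := key N subset_rfl
  have h6 : ∑ B ∈ N.powerset, g (B ∪ (A \ N)) = ∑ B ∈ N.powerset, g B := by
    refine sum_congr rfl fun B _ => ?_
    rw [sdiff_eq_empty_iff_subset.2 hA, union_empty]
  rw [h6] at h5
  exact h5

/-- in a class at most `W` elements have `T ≠ 0` -/
lemma lossa2_rank {M : D → D → ℝ≥0} {a a' b b' : D} (hz : M a' b' = 0)
    (hbip : ∀ e ∈ E, col e.1 = true ∧ col e.2 = false) (hJ : Ind E J) {S : Finset K}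
    (hS : ∀ e ∈ J, (e.1 ∈ S ∧ e.2 ∉ S) ∨ (e.1 ∉ S ∧ e.2 ∈ S)) {T : (K → D) → ℝ≥0} {W : ℕ}
    (hT : ∀ x, T x ≤ net E M x) (hR : RankLe W T S) {N : Finset (K × K)} (hNJ : N ⊆ J)
    (z : K → D) :
    (N.powerset.filter fun A => T (lossa2_set a a' b b' A N z) ≠ 0).card ≤ W := by
  classical
  have hM := lossa2_matching hbip hJ
  obtain ⟨u, v, hu, hv, huv⟩ := hR
  set L := N.powerset.filter fun A => T (lossa2_set a a' b b' A N z) ≠ 0 with hL
  set X : Finset (K × K) → K → D := fun A => lossa2_set a a' b b' A N z with hX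
  have hLN : ∀ A ∈ L, A ⊆ N := fun A hA => mem_powerset.1 (mem_filter.1 hA).1
  set N₁ := N.filter fun e => e.1 ∈ S with hN₁
  set φ : Finset (K × K) → ℕ := fun A => (A ∩ N₁).card + ((N \ N₁) \ A).card with hφ
  have hmix : ∀ A B, (T (S.piecewise (X A) (X B)) : ℝ) = ∑ i, u i (X A) * v i (X B) := by
    intro A B
    rw [huv]
    refine sum_congr rfl fun i _ => ?_
    rw [hu i (S.piecewise (X A) (X B)) (X A) (fun w hw => piecewise_eq_of_mem _ _ _ hw),
      hv i (S.piecewise (X A) (X B)) (X B) (fun w hw => piecewise_eq_of_notMem _ _ _ hw)]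
  have hzero : ∀ x : K → D, (∃ e ∈ J, x e.1 = a' ∧ x e.2 = b') → T x = 0 := by
    rintro x ⟨e, he, hx1, hx2⟩
    have h3 : net E M x = 0 := by
      unfold net
      refine prod_eq_zero (hJ.1 he) ?_
      rw [hx1, hx2, hz]
    exact le_antisymm (h3 ▸ hT x) bot_le
  have h := lossa2_tri (ι := L) (W := W) (fun A i => u i (X A)) (fun A i => v i (X A))
    (fun A => φ A) (by
      intro A
      rw [← hmix, piecewise_same]
      exact NNReal.coe_ne_zero.2 (mem_filter.1 A.2).2) (by
      rintro ⟨A, hA⟩ ⟨B, hB⟩ hne hle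
      have hne' : A ≠ B := fun h => hne (Subtype.ext h)
      simp only at hle ⊢
      rw [← hmix, NNReal.coe_eq_zero]
      apply hzero
      by_contra hcon
      push Not at hcon
      have c1 : ∀ e ∈ N₁, e ∈ B → e ∈ A := by
        intro e he heB
        obtain ⟨heN, heS⟩ := mem_filter.1 he
        by_contra heA
        have h2 : e.2 ∉ S := by
          rcases hS e (hNJ heN) with h | h
          · exact h.2
          · exact absurd heS h.1
        apply hcon e (hNJ heN)
        · rw [piecewise_eq_of_mem _ _ _ heS]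
          show lossa2_set a a' b b' A N z e.1 = a'
          rw [lossa2_fst hM hNJ (hLN A hA) _ heN, if_neg heA]
        · rw [piecewise_eq_of_notMem _ _ _ h2]
          show lossa2_set a a' b b' B N z e.2 = b'
          rw [lossa2_snd hM hNJ (hLN B hB) _ heN, if_pos heB]
      have c2 : ∀ e ∈ N \ N₁, e ∈ A → e ∈ B := by
        intro e he heA
        obtain ⟨heN, heN₁⟩ := mem_sdiff.1 he
        have heS : e.1 ∉ S := fun h => heN₁ (mem_filter.2 ⟨heN, h⟩)
        by_contra heB
        have h2 : e.2 ∈ S := by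
          rcases hS e (hNJ heN) with h | h
          · exact absurd h.1 heS
          · exact h.2
        apply hcon e (hNJ heN)
        · rw [piecewise_eq_of_notMem _ _ _ heS]
          show lossa2_set a a' b b' B N z e.1 = a'
          rw [lossa2_fst hM hNJ (hLN B hB) _ heN, if_neg heB]
        · rw [piecewise_eq_of_mem _ _ _ h2]
          show lossa2_set a a' b b' A N z e.2 = b'
          rw [lossa2_snd hM hNJ (hLN A hA) _ heN, if_pos heA]
      have s1 : B ∩ N₁ ⊆ A ∩ N₁ := by
        intro e he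
        obtain ⟨h5, h6⟩ := mem_inter.1 he
        exact mem_inter.2 ⟨c1 e h6 h5, h6⟩
      have s2 : (N \ N₁) \ B ⊆ (N \ N₁) \ A := by
        intro e he
        obtain ⟨h5, h6⟩ := mem_sdiff.1 he
        exact mem_sdiff.2 ⟨h5, fun h7 => h6 (c2 e h5 h7)⟩
      have l1 := card_le_card s1
      have l2 := card_le_card s2
      have e1 : B ∩ N₁ = A ∩ N₁ := eq_of_subset_of_card_le s1 (by simp only [hφ] at hle; omega)
      have e2 : (N \ N₁) \ B = (N \ N₁) \ A :=
        eq_of_subset_of_card_le s2 (by simp only [hφ] at hle; omega)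
      apply hne'
      ext e
      constructor
      · intro he
        by_cases h5 : e ∈ N₁
        · have : e ∈ B ∩ N₁ := by
            rw [e1]
            exact mem_inter.2 ⟨he, h5⟩
          exact (mem_inter.1 this).1
        · exact c2 e (mem_sdiff.2 ⟨hLN A hA he, h5⟩) he
      · intro he
        by_cases h5 : e ∈ N₁
        · exact c1 e h5 he
        · by_contra h6
          have : e ∈ (N \ N₁) \ B := by
            rw [e2]
            exact mem_sdiff.2 ⟨mem_sdiff.2 ⟨hLN B hB he, h5⟩, h6⟩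
          exact (mem_sdiff.1 this).2 he)
  rwa [Fintype.card_coe] at h

/-- the mass of `T` on the box -/
lemma lossa2_mass {M : D → D → ℝ≥0} {a a' b b' : D} (ha : a ≠ a') {m0 m1 : ℝ≥0} (h1 : m0 ≤ M a b)
    (h2 : m0 ≤ M a b') (h3 : m0 ≤ M a' b) (k1 : M a b ≤ m1) (k2 : M a b' ≤ m1) (k3 : M a' b ≤ m1)
    (p0 : 0 < m0) (hz : M a' b' = 0)
    (hbip : ∀ e ∈ E, col e.1 = true ∧ col e.2 = false) (Δ : ℕ)
    (hdeg : ∀ v, (E.filter fun e => e.1 = v ∨ e.2 = v).card ≤ Δ) (hJ : Ind E J) (hP : Pat E J)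
    {S : Finset K} (hS : ∀ e ∈ J, (e.1 ∈ S ∧ e.2 ∉ S) ∨ (e.1 ∉ S ∧ e.2 ∈ S))
    {T : (K → D) → ℝ≥0} {W : ℕ} (hT : ∀ x, T x ≤ net E M x) (hR : RankLe W T S) :
    ∑ x ∈ lossa_Q col a a' b b', (T x : ℝ) ≤
      W * ∑ x ∈ lossa_Q col a a' b b', (net E M x : ℝ) *
        (1 / (1 + ((m0 : ℝ) / m1) ^ (2 * Δ))) ^ (lossa2_N E J a a' b b' x).card := by
  classical
  set Q : Finset (K → D) := lossa_Q col a a' b b' with hQ
  set t : ℝ := ((m0 : ℝ) / m1) ^ (2 * Δ) with ht
  have ht0 : 0 ≤ t := by positivity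
  have hM := lossa2_matching hbip hJ
  set N : (K → D) → Finset (K × K) := lossa2_N E J a a' b b' with hN
  have hNJ : ∀ x, N x ⊆ J := fun x e he => (lossa2_mem_N.1 he).1
  set ρ : (K → D) → (K → D) := fun x => lossa2_set a a' b b' ∅ (N x) x with hρ
  have hρQ : ∀ x ∈ Q, ρ x ∈ Q := fun x hx => lossa2_set_mem hbip hJ (hNJ x) (empty_subset _) hx
  have hNρ : ∀ x, N (ρ x) = N x := fun x => lossa2_N_set hbip hJ hP (empty_subset _)
  rw [← sum_fiberwise_of_maps_to hρQ (fun x => (T x : ℝ)),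
    ← sum_fiberwise_of_maps_to hρQ (fun x => (net E M x : ℝ) *
      (1 / (1 + t)) ^ (lossa2_N E J a a' b b' x).card), mul_sum]
  refine sum_le_sum fun z hzQ => ?_
  rcases (Q.filter fun x => ρ x = z).eq_empty_or_nonempty with hemp | ⟨x₀, hx₀⟩
  · rw [hemp, sum_empty, sum_empty, mul_zero]
  obtain ⟨hx₀Q, hx₀z⟩ := mem_filter.1 hx₀
  have hNz : N z = N x₀ := by rw [← hx₀z, hNρ]
  have hz0 : lossa2_set a a' b b' ∅ (N z) z = z := by
    have h4 : z = lossa2_set a a' b b' ∅ (N z) x₀ := by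
      rw [hNz, ← hx₀z]
    calc lossa2_set a a' b b' ∅ (N z) z =
          lossa2_set a a' b b' ∅ (N z) (lossa2_set a a' b b' ∅ (N z) x₀) := by rw [← h4]
      _ = lossa2_set a a' b b' ∅ (N z) x₀ :=
          lossa2_set_set hM (hNJ z) (empty_subset _) (empty_subset _) x₀
      _ = z := h4.symm
  have hfib : Q.filter (fun x => ρ x = z) =
      (N z).powerset.image fun A => lossa2_set a a' b b' A (N z) z := by
    ext x
    rw [mem_filter, mem_image]
    constructor
    · rintro ⟨hxQ, hxz⟩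
      have hNx : N x = N z := by rw [← hxz, hNρ]
      refine ⟨(N z).filter fun e => x e.1 = a, mem_powerset.2 (filter_subset _ _), ?_⟩
      refine lossa2_ext (N := N z) ?_ ?_ ?_
      · intro e he
        rw [lossa2_fst hM (hNJ z) (filter_subset _ _) _ he]
        have hact := (lossa2_mem_N.1 (hNx ▸ he : e ∈ N x)).2.1
        by_cases h4 : x e.1 = a
        · rw [if_pos (mem_filter.2 ⟨he, h4⟩), h4]
        · have h5 : e ∉ (N z).filter fun e => x e.1 = a := fun h => h4 (mem_filter.1 h).2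
          rw [if_neg h5]
          rcases hact with h | h
          · exact h.1.symm
          · exact absurd h.1 h4
      · intro e he
        rw [lossa2_snd hM (hNJ z) (filter_subset _ _) _ he]
        have hact := (lossa2_mem_N.1 (hNx ▸ he : e ∈ N x)).2.1
        by_cases h4 : x e.1 = a
        · rw [if_pos (mem_filter.2 ⟨he, h4⟩)]
          rcases hact with h | h
          · exact absurd (h4.symm.trans h.1) ha
          · exact h.2.symm
        · have h5 : e ∉ (N z).filter fun e => x e.1 = a := fun h => h4 (mem_filter.1 h).2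
          rw [if_neg h5]
          rcases hact with h | h
          · exact h.2.symm
          · exact absurd h.1 h4
      · intro w hw
        rw [lossa2_off _ hw, ← hxz]
        show lossa2_set a a' b b' ∅ (N x) x w = x w
        rw [hNx]
        exact lossa2_off _ hw
    · rintro ⟨A, hA, rfl⟩
      have hA' := mem_powerset.1 hA
      refine ⟨lossa2_set_mem hbip hJ (hNJ z) hA' hzQ, ?_⟩
      show lossa2_set a a' b b' ∅ (N (lossa2_set a a' b b' A (N z) z))
        (lossa2_set a a' b b' A (N z) z) = z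
      have h4 : N (lossa2_set a a' b b' A (N z) z) = N z := lossa2_N_set hbip hJ hP hA'
      rw [h4, lossa2_set_set hM (hNJ z) (empty_subset _) hA', hz0]
  have hinj : Set.InjOn (fun A => lossa2_set a a' b b' A (N z) z) ((N z).powerset : Set _) := by
    intro A hA B hB hAB
    have hA' : A ⊆ N z := mem_powerset.1 (mem_coe.1 hA)
    have hB' : B ⊆ N z := mem_powerset.1 (mem_coe.1 hB)
    have h4 : ∀ e ∈ N z, (e ∈ A ↔ e ∈ B) := by
      intro e he
      have h5 := congrFun hAB e.1
      simp only at h5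
      rw [lossa2_fst hM (hNJ z) hA' _ he, lossa2_fst hM (hNJ z) hB' _ he] at h5
      by_cases h6 : e ∈ A <;> by_cases h7 : e ∈ B
      · exact ⟨fun _ => h7, fun _ => h6⟩
      · rw [if_pos h6, if_neg h7] at h5
        exact absurd h5 ha
      · rw [if_neg h6, if_pos h7] at h5
        exact absurd h5.symm ha
      · exact ⟨fun h => absurd h h6, fun h => absurd h h7⟩
    ext e
    exact ⟨fun h => (h4 e (hA' h)).1 h, fun h => (h4 e (hB' h)).2 h⟩
  rw [hfib, sum_image hinj, sum_image hinj]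
  have hcN : ∀ A ∈ (N z).powerset, (N (lossa2_set a a' b b' A (N z) z)).card = (N z).card :=
    fun A hA => by
      have h4 : N (lossa2_set a a' b b' A (N z) z) = N z :=
        lossa2_N_set hbip hJ hP (mem_powerset.1 hA)
      rw [h4]
  set s : ℝ := ∑ B ∈ (N z).powerset, (net E M (lossa2_set a a' b b' B (N z) z) : ℝ) with hs
  have hR1 : ∑ A ∈ (N z).powerset, (net E M (lossa2_set a a' b b' A (N z) z) : ℝ) *
      (1 / (1 + t)) ^ (N (lossa2_set a a' b b' A (N z) z)).card = s * (1 / (1 + t)) ^ (N z).card := by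
    rw [hs, sum_mul]
    exact sum_congr rfl fun A hA => by rw [hcN A hA]
  rw [hR1]
  have hsh : ∀ A ∈ (N z).powerset, (net E M (lossa2_set a a' b b' A (N z) z) : ℝ) ≤
      s * (1 / (1 + t)) ^ (N z).card := by
    intro A hA
    have h4 := lossa2_share (M := M) h1 h2 h3 k1 k2 k3 p0 hbip Δ hdeg hJ hP z A (mem_powerset.1 hA)
    rw [one_div, inv_pow, ← div_eq_mul_inv, le_div_iff₀ (by positivity)]
    exact h4
  calc ∑ A ∈ (N z).powerset, (T (lossa2_set a a' b b' A (N z) z) : ℝ)
      = ∑ A ∈ (N z).powerset.filter (fun A => T (lossa2_set a a' b b' A (N z) z) ≠ 0),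
          (T (lossa2_set a a' b b' A (N z) z) : ℝ) := by
        symm
        refine sum_subset (filter_subset _ _) fun A hA hA' => ?_
        by_contra h4
        exact hA' (mem_filter.2 ⟨hA, fun h5 => h4 (by rw [h5, NNReal.coe_zero])⟩)
    _ ≤ ∑ A ∈ (N z).powerset.filter (fun A => T (lossa2_set a a' b b' A (N z) z) ≠ 0),
          s * (1 / (1 + t)) ^ (N z).card := by
        refine sum_le_sum fun A hA => ?_
        exact le_trans (NNReal.coe_le_coe.2 (hT _)) (hsh A (mem_filter.1 hA).1)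
    _ = ((N z).powerset.filter (fun A => T (lossa2_set a a' b b' A (N z) z) ≠ 0)).card *
          (s * (1 / (1 + t)) ^ (N z).card) := by
        rw [sum_const, nsmul_eq_mul]
    _ ≤ W * (s * (1 / (1 + t)) ^ (N z).card) := by
        have h5 : 0 ≤ s := sum_nonneg fun A _ => NNReal.coe_nonneg _
        refine mul_le_mul_of_nonneg_right ?_ (by positivity)
        exact_mod_cast lossa2_rank hz hbip hJ hS hT hR (hNJ z) z

/-- one more edge -/
lemma lossa2_step {M : D → D → ℝ≥0} {a a' b b' : D} (ha : a ≠ a') (hb : b ≠ b') {m0 m1 : ℝ≥0}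
    (h1 : m0 ≤ M a b) (h2 : m0 ≤ M a b') (h3 : m0 ≤ M a' b) (k1 : M a b ≤ m1) (k2 : M a b' ≤ m1)
    (k3 : M a' b ≤ m1) (k4 : M a' b' ≤ m1)
    (hbip : ∀ e ∈ E, col e.1 = true ∧ col e.2 = false) (Δ : ℕ)
    (hdeg : ∀ v, (E.filter fun e => e.1 = v ∨ e.2 = v).card ≤ Δ) (hP : Pat E J)
    {J' : Finset (K × K)} (hJ' : J' ⊆ J) {e : K × K} (he : e ∈ J) (heJ' : e ∉ J') (θ : ℝ)
    (hθ : 0 ≤ θ) :
    (∑ x ∈ lossa_Q col a a' b b', (net E M x : ℝ) * θ ^ (lossa2_N E J' a a' b b' x).card) *
        (m0 : ℝ) ^ (2 * Δ * Δ) ≤ 2 ^ (2 * Δ) * (m1 : ℝ) ^ (2 * Δ * Δ) *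
      ∑ x ∈ (lossa_Q col a a' b b').filter (fun x => e ∈ lossa2_N E J a a' b b' x),
        (net E M x : ℝ) * θ ^ (lossa2_N E J' a a' b b' x).card := by
  classical
  set Q : Finset (K → D) := lossa_Q col a a' b b' with hQ
  have heE : (e.1, e.2) ∈ E := hP.1 he
  have hbe := hbip _ heE
  simp only at hbe
  set st : (K → D) → (K → D) := lossa_st E e.1 e.2 a b a' b with hst
  set F : (K → D) → ℝ := fun x => (net E M x : ℝ) * θ ^ (lossa2_N E J' a a' b b' x).card with hF
  have hF0 : ∀ x, 0 ≤ F x := fun x => mul_nonneg (NNReal.coe_nonneg _) (pow_nonneg hθ _)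
  have hcd : (a' = a ∧ b = b) ∨ (a' = a ∧ b = b') ∨ (a' = a' ∧ b = b) := Or.inr (Or.inr ⟨rfl, rfl⟩)
  have hstQ : ∀ x ∈ Q, st x ∈ Q := fun x hx =>
    lossa_st_mem hbip heE (Or.inr rfl) (Or.inl rfl) hx
  have hNst : ∀ x, lossa2_N E J' a a' b b' (st x) = lossa2_N E J' a a' b b' x := by
    intro x
    ext f
    rw [lossa2_mem_N, lossa2_mem_N]
    refine and_congr_right fun hf => ?_
    refine lossa2_act_congr fun w hw => ?_
    refine lossa_st_off E heE _ _ _ _ x w fun hW => ?_
    have hne : f ≠ e := fun h => heJ' (h ▸ hf)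
    have h4 := (mem_filter.1 hW).2
    exact hP.2 f (hJ' hf) e he hne w ⟨hw, Or.inr (Or.inr h4)⟩
  have hact : ∀ x, e ∈ lossa2_N E J a a' b b' (st x) := by
    intro x
    have hne : e.2 ≠ e.1 := by
      intro h
      rw [h, hbe.1] at hbe
      exact absurd hbe.2 (by simp)
    refine lossa2_mem_N.2 ⟨he, Or.inl ⟨?_, ?_⟩, fun w hw hew => ?_, fun w hw hew => ?_⟩
    · rw [hst]
      unfold lossa_st
      rw [if_pos rfl]
    · rw [hst]
      unfold lossa_st
      rw [if_neg hne, if_pos rfl]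
    · have h4 : w ≠ e.1 := by
        intro h
        have h5 := (hbip _ hew).2
        simp only at h5
        rw [h, hbe.1] at h5
        exact absurd h5 (by simp)
      rw [hst]
      unfold lossa_st
      rw [if_neg h4, if_neg hw, if_pos hew]
    · have h4 : w ≠ e.2 := by
        intro h
        have h5 := (hbip _ hew).1
        simp only at h5
        rw [h, hbe.2] at h5
        exact absurd h5 (by simp)
      have h6 : ¬ (e.1, w) ∈ E := by
        intro h
        have h5 := (hbip _ hew).1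
        have h7 := (hbip _ h).2
        simp only at h5 h7
        rw [h5] at h7
        exact absurd h7 (by simp)
      rw [hst]
      unfold lossa_st
      rw [if_neg hw, if_neg h4, if_neg h6, if_pos hew]
  calc (∑ x ∈ Q, F x) * (m0 : ℝ) ^ (2 * Δ * Δ)
      = ∑ x ∈ Q, F x * (m0 : ℝ) ^ (2 * Δ * Δ) := sum_mul _ _ _
    _ ≤ ∑ x ∈ Q, F (st x) * (m1 : ℝ) ^ (2 * Δ * Δ) := by
        refine sum_le_sum fun x hx => ?_
        have h4 := NNReal.coe_le_coe.2
          (lossa_net (M := M) h1 h2 h3 k1 k2 k3 k4 hbip Δ hdeg heE hcd hx)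
        push_cast at h4
        rw [hF]
        simp only
        rw [hNst x]
        have h5 : 0 ≤ θ ^ (lossa2_N E J' a a' b b' x).card := pow_nonneg hθ _
        calc (net E M x : ℝ) * θ ^ (lossa2_N E J' a a' b b' x).card * (m0 : ℝ) ^ (2 * Δ * Δ)
            = ((net E M x : ℝ) * (m0 : ℝ) ^ (2 * Δ * Δ)) *
                θ ^ (lossa2_N E J' a a' b b' x).card := by ring
          _ ≤ ((net E M (st x) : ℝ) * (m1 : ℝ) ^ (2 * Δ * Δ)) *
                θ ^ (lossa2_N E J' a a' b b' x).card := mul_le_mul_of_nonneg_right h4 h5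
          _ = _ := by ring
    _ = (∑ x ∈ Q, F (st x)) * (m1 : ℝ) ^ (2 * Δ * Δ) := (sum_mul _ _ _).symm
    _ ≤ (2 ^ (2 * Δ) * ∑ x ∈ Q.filter (fun x => e ∈ lossa2_N E J a a' b b' x), F x) *
          (m1 : ℝ) ^ (2 * Δ * Δ) := by
        refine mul_le_mul_of_nonneg_right ?_ (by positivity)
        rw [sum_comp F st, mul_sum]
        refine le_trans (sum_le_sum (g := fun z => 2 ^ (2 * Δ) * F z) fun z _ => ?_)
          (sum_le_sum_of_subset_of_nonneg ?_ fun z _ _ => mul_nonneg (by positivity) (hF0 z))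
        · rw [nsmul_eq_mul]
          refine mul_le_mul_of_nonneg_right ?_ (hF0 z)
          have h4 := lossa_fib ha hb Δ hdeg heE a' b Q subset_rfl z
          exact_mod_cast h4
        · intro z hz
          obtain ⟨x, hx, rfl⟩ := mem_image.1 hz
          exact mem_filter.2 ⟨hstQ x hx, hact x⟩
    _ = _ := by ring

end

theorem thm_LossA2 : St_LossA2 := by
  intro D _ _ M a a' b b' hab hab' ha'b hz Δ
  classical
  have ha : a ≠ a' := by
    rintro rfl
    exact hab' hz
  have hb : b ≠ b' := by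
    rintro rfl
    exact ha'b hz
  set m0 : ℝ≥0 := min (M a b) (min (M a b') (M a' b)) with hm0
  set m1 : ℝ≥0 := max (M a b) (max (M a b') (M a' b)) with hm1
  have h1 : m0 ≤ M a b := min_le_left _ _
  have h2 : m0 ≤ M a b' := le_trans (min_le_right _ _) (min_le_left _ _)
  have h3 : m0 ≤ M a' b := le_trans (min_le_right _ _) (min_le_right _ _)
  have k1 : M a b ≤ m1 := le_max_left _ _
  have k2 : M a b' ≤ m1 := le_trans (le_max_left _ _) (le_max_right _ _)
  have k3 : M a' b ≤ m1 := le_trans (le_max_right _ _) (le_max_right _ _)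
  have k4 : M a' b' ≤ m1 := by
    rw [hz]
    exact bot_le
  have p0 : 0 < m0 := lt_min (pos_iff_ne_zero.2 hab) (lt_min (pos_iff_ne_zero.2 hab')
    (pos_iff_ne_zero.2 ha'b))
  have p01 : m0 ≤ m1 := le_trans h1 k1
  have p1 : 0 < m1 := lt_of_lt_of_le p0 p01
  have p0' : (0 : ℝ) < m0 := NNReal.coe_pos.2 p0
  have p1' : (0 : ℝ) < m1 := NNReal.coe_pos.2 p1
  set c0 : ℝ := (m0 : ℝ) ^ (2 * Δ * Δ) with hc0
  set c1 : ℝ := 2 ^ (2 * Δ) * (m1 : ℝ) ^ (2 * Δ * Δ) with hc1
  have q0 : 0 < c0 := by positivity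
  have q1 : 0 < c1 := by positivity
  have q01 : c0 ≤ c1 := by
    have e1 : c0 ≤ (m1 : ℝ) ^ (2 * Δ * Δ) := by
      rw [hc0]
      gcongr
    have e2 : (1 : ℝ) ≤ 2 ^ (2 * Δ) := one_le_pow₀ (by norm_num)
    have e3 : 0 ≤ (m1 : ℝ) ^ (2 * Δ * Δ) := le_trans q0.le e1
    rw [hc1]
    nlinarith
  set t : ℝ := ((m0 : ℝ) / m1) ^ (2 * Δ) with ht
  have ht0 : 0 < t := by positivity
  set θ : ℝ := 1 / (1 + t) with hθ
  have hθ0 : 0 < θ := by positivity
  have hθ1 : θ < 1 := by
    rw [hθ, div_lt_one (by positivity)]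
    linarith
  have r0 : 0 < c0 / c1 := by positivity
  have r1 : c0 / c1 ≤ 1 := (div_le_one q1).2 q01
  set η : ℝ := (1 - θ) * (c0 / c1) with hη
  have hη0 : 0 < η := mul_pos (by linarith) r0
  have hη1 : η < 1 := by
    rw [hη]
    nlinarith
  refine ⟨η, hη0, hη1, ?_⟩
  intro K _ _ E col hB J hP hJ S hS T W hT hR
  have hbip := hB.bip
  have hdeg := hB.deg
  change ((∑ x ∈ lossa_Q col a a' b b', T x : ℝ≥0) : ℝ) ≤ _ *
    ((∑ x ∈ lossa_Q col a a' b b', net E M x : ℝ≥0) : ℝ)
  push_cast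
  have hmass := lossa2_mass (col := col) ha h1 h2 h3 k1 k2 k3 p0 hz hbip Δ hdeg hJ hP hS hT hR
  rw [← ht, ← hθ] at hmass
  have key : ∀ J' ⊆ J, ∑ x ∈ lossa_Q col a a' b b', (net E M x : ℝ) *
      θ ^ (lossa2_N E J' a a' b b' x).card ≤
      (1 - η) ^ J'.card * ∑ x ∈ lossa_Q col a a' b b', (net E M x : ℝ) := by
    intro J'
    induction J' using Finset.induction_on with
    | empty =>
      intro _
      have h4 : ∀ x : K → D, lossa2_N E ∅ a a' b b' x = ∅ := by
        intro x
        ext e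
        rw [lossa2_mem_N]
        simp
      simp only [h4, card_empty, pow_zero, mul_one, one_mul, le_refl]
    | insert e J' heJ' ih =>
      intro hsub
      have heJ : e ∈ J := hsub (mem_insert_self _ _)
      have hJ'J : J' ⊆ J := fun f hf => hsub (mem_insert_of_mem hf)
      have ih' := ih hJ'J
      have hstep := lossa2_step (col := col) ha hb h1 h2 h3 k1 k2 k3 k4 hbip Δ hdeg hP hJ'J heJ
        heJ' θ hθ0.le
      set Q : Finset (K → D) := lossa_Q col a a' b b' with hQ
      set F : (K → D) → ℝ := fun x => (net E M x : ℝ) * θ ^ (lossa2_N E J' a a' b b' x).card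
        with hF
      -- splitting
      have hsplit : ∀ x ∈ Q, (net E M x : ℝ) * θ ^ (lossa2_N E (insert e J') a a' b b' x).card =
          F x - (1 - θ) * (if e ∈ lossa2_N E J a a' b b' x then F x else 0) := by
        intro x _
        by_cases h : e ∈ lossa2_N E J a a' b b' x
        · have h4 : lossa2_N E (insert e J') a a' b b' x =
              insert e (lossa2_N E J' a a' b b' x) := by
            ext f
            rw [lossa2_mem_N, mem_insert, mem_insert, lossa2_mem_N]
            by_cases hf : f = e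
            · subst hf
              simp [(lossa2_mem_N.1 h).2]
            · tauto
          have h5 : e ∉ lossa2_N E J' a a' b b' x := fun h => heJ' (lossa2_mem_N.1 h).1
          rw [h4, card_insert_of_notMem h5, if_pos h, hF, pow_succ]
          ring
        · have h4 : lossa2_N E (insert e J') a a' b b' x = lossa2_N E J' a a' b b' x := by
            ext f
            rw [lossa2_mem_N, mem_insert, lossa2_mem_N]
            by_cases hf : f = e
            · subst hf
              have h6 : ¬ lossa2_act E a a' b b' f x := fun h7 => h (lossa2_mem_N.2 ⟨heJ, h7⟩)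
              tauto
            · tauto
          rw [h4, if_neg h, mul_zero, sub_zero]
      rw [sum_congr rfl hsplit, sum_sub_distrib, ← mul_sum, ← sum_filter]
      set S1 : ℝ := ∑ x ∈ Q, F x with hS1
      set S2 : ℝ := ∑ x ∈ Q.filter (fun x => e ∈ lossa2_N E J a a' b b' x), F x with hS2
      set S0 : ℝ := ∑ x ∈ Q, (net E M x : ℝ) with hS0
      have hS1n : 0 ≤ S1 := sum_nonneg fun x _ => mul_nonneg (NNReal.coe_nonneg _)
        (pow_nonneg hθ0.le _)
      have e2 : S1 * (c0 / c1) ≤ S2 := by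
        rw [mul_div_assoc', div_le_iff₀ q1, mul_comm S2]
        exact hstep
      rw [card_insert_of_notMem heJ', pow_succ]
      have e6 : 0 ≤ 1 - η := by linarith
      calc S1 - (1 - θ) * S2 ≤ S1 - (1 - θ) * (S1 * (c0 / c1)) := by
            have : 0 ≤ 1 - θ := by linarith
            nlinarith
        _ = S1 * (1 - η) := by rw [hη]; ring
        _ ≤ ((1 - η) ^ J'.card * S0) * (1 - η) := mul_le_mul_of_nonneg_right ih' e6
        _ = _ := by ring
  calc ∑ x ∈ lossa_Q col a a' b b', (T x : ℝ)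
      ≤ W * ∑ x ∈ lossa_Q col a a' b b', (net E M x : ℝ) *
        θ ^ (lossa2_N E J a a' b b' x).card := hmass
    _ ≤ W * ((1 - η) ^ J.card * ∑ x ∈ lossa_Q col a a' b b', (net E M x : ℝ)) :=
        mul_le_mul_of_nonneg_left (key J subset_rfl) (Nat.cast_nonneg _)
    _ = _ := by ring

end Pool.Agent.WD
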