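import Pool.Agent.WD.LossB
import Pool.Agent.WE.St

/-!
# [LossB2] rank `W` across a cut, the case of a rectangular support
-/

set_option autoImplicit false

namespace Pool.Agent.WD

open Finset
open scoped NNReal

theorem lossb2_sqrt {s t : ℝ} (hs : 0 ≤ s) (ht : 0 ≤ t) (hs1 : s ≤ 1) (ht1 : t ≤ 1) :
    (t - s) ^ 2 / 4 ≤ (Real.sqrt s - Real.sqrt t) ^ 2 := by
  have e1 := Real.sq_sqrt hs
  have e2 := Real.sq_sqrt ht
  have l1 : Real.sqrt s ≤ 1 := Real.sqrt_le_one.2 hs1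
  have l2 : Real.sqrt t ≤ 1 := Real.sqrt_le_one.2 ht1
  have p1 := Real.sqrt_nonneg s
  have p2 := Real.sqrt_nonneg t
  have e3 : (t - s) ^ 2 = (Real.sqrt s - Real.sqrt t) ^ 2 * (Real.sqrt s + Real.sqrt t) ^ 2 := by
    have : t - s = -((Real.sqrt s - Real.sqrt t) * (Real.sqrt s + Real.sqrt t)) := by
      linear_combination e1 - e2
    rw [this, neg_sq, mul_pow]
  have e4 : (Real.sqrt s + Real.sqrt t) ^ 2 ≤ 4 := by nlinarith
  have e5 : (Real.sqrt s - Real.sqrt t) ^ 2 * (Real.sqrt s + Real.sqrt t) ^ 2 ≤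
      (Real.sqrt s - Real.sqrt t) ^ 2 * 4 := mul_le_mul_of_nonneg_left e4 (sq_nonneg _)
  rw [e3]
  linarith

/-- the Bhattacharyya coefficient of a matrix with a large minor and its product of marginals -/
theorem lossb2_bc {X Y : Type} [Fintype X] [Fintype Y] (μ : X → Y → ℝ) (h0 : ∀ x y, 0 ≤ μ x y)
    (h1 : ∑ x, ∑ y, μ x y = 1) (a a' : X) (b b' : Y) {θ κ ε : ℝ} (hε : 0 < ε) (k1 : ε ≤ κ / 5)
    (k2 : ε ≤ θ / 2) (t1 : θ ≤ μ a b) (t2 : θ ≤ μ a b') (t3 : θ ≤ μ a' b) (t4 : θ ≤ μ a' b')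
    (hκ : κ ≤ |μ a b * μ a' b' - μ a b' * μ a' b|) :
    ∑ x, ∑ y, Real.sqrt (μ x y * (∑ y', μ x y') * (∑ x', μ x' y)) ≤ 1 - ε ^ 2 / 8 := by
  obtain ⟨α, hα⟩ : ∃ α : X → ℝ, α = fun x => ∑ y', μ x y' := ⟨_, rfl⟩
  obtain ⟨β, hβ⟩ : ∃ β : Y → ℝ, β = fun y => ∑ x', μ x' y := ⟨_, rfl⟩
  have a0 : ∀ x, 0 ≤ α x := fun x => by
    rw [hα]
    exact Finset.sum_nonneg fun y _ => h0 x y
  have b0 : ∀ y, 0 ≤ β y := fun y => by
    rw [hβ]
    exact Finset.sum_nonneg fun x _ => h0 x y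
  have as : ∑ x, α x = 1 := by rw [hα]; exact h1
  have bs : ∑ y, β y = 1 := by rw [hβ, ← h1, Finset.sum_comm]
  have a1 : ∀ x, α x ≤ 1 := fun x => by
    rw [← as]
    exact Finset.single_le_sum (fun x _ => a0 x) (Finset.mem_univ x)
  have b1 : ∀ y, β y ≤ 1 := fun y => by
    rw [← bs]
    exact Finset.single_le_sum (fun y _ => b0 y) (Finset.mem_univ y)
  have m1 : ∀ x y, μ x y ≤ 1 := fun x y => by
    refine le_trans ?_ (a1 x)
    rw [hα]
    exact Finset.single_le_sum (fun y _ => h0 x y) (Finset.mem_univ y)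
  have n0 : ∀ x y, 0 ≤ α x * β y := fun x y => mul_nonneg (a0 x) (b0 y)
  have n1 : ∀ x y, α x * β y ≤ 1 := fun x y => mul_le_one₀ (a1 x) (b0 y) (b1 y)
  have key : ∃ x y, ε ≤ |α x * β y - μ x y| := by
    rcases lossb_four (n1 := α a * β b) (n2 := α a * β b') (n3 := α a' * β b)
      (n4 := α a' * β b') hε k1 k2 t1 t2 t3 t4 (m1 _ _) (m1 _ _) (n1 _ _) (n1 _ _) hκ
      (Or.inl (by ring)) with h | h | h | h
    · exact ⟨_, _, h⟩
    · exact ⟨_, _, h⟩
    · exact ⟨_, _, h⟩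
    · exact ⟨_, _, h⟩
  obtain ⟨x₀, y₀, hxy⟩ := key
  have e : ∀ x y, (Real.sqrt (μ x y) - Real.sqrt (α x * β y)) ^ 2 =
      μ x y + α x * β y - 2 * Real.sqrt (μ x y * (∑ y', μ x y') * (∑ x', μ x' y)) := by
    intro x y
    have e1 : μ x y * (∑ y', μ x y') * (∑ x', μ x' y) = μ x y * (α x * β y) := by
      rw [hα, hβ, mul_assoc]
    have e2 := Real.sq_sqrt (h0 x y)
    have e3 := Real.sq_sqrt (n0 x y)
    rw [e1, Real.sqrt_mul (h0 x y)]
    linear_combination e2 + e3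
  have hsum : ∑ x, ∑ y, (Real.sqrt (μ x y) - Real.sqrt (α x * β y)) ^ 2 =
      2 - 2 * ∑ x, ∑ y, Real.sqrt (μ x y * (∑ y', μ x y') * (∑ x', μ x' y)) := by
    rw [Finset.sum_congr rfl fun x _ => Finset.sum_congr rfl fun y _ => e x y]
    simp only [Finset.sum_sub_distrib, Finset.sum_add_distrib, ← Finset.mul_sum]
    rw [h1, bs]
    simp only [mul_one]
    rw [as]
    ring
  have hlow : ε ^ 2 / 4 ≤ ∑ x, ∑ y, (Real.sqrt (μ x y) - Real.sqrt (α x * β y)) ^ 2 := by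
    calc ε ^ 2 / 4 ≤ (α x₀ * β y₀ - μ x₀ y₀) ^ 2 / 4 := by
          have : ε ^ 2 ≤ (α x₀ * β y₀ - μ x₀ y₀) ^ 2 := by
            rw [← sq_abs (α x₀ * β y₀ - μ x₀ y₀)]
            exact pow_le_pow_left₀ hε.le hxy 2
          linarith
      _ ≤ (Real.sqrt (μ x₀ y₀) - Real.sqrt (α x₀ * β y₀)) ^ 2 :=
          lossb2_sqrt (h0 _ _) (n0 _ _) (m1 _ _) (n1 _ _)
      _ ≤ ∑ y, (Real.sqrt (μ x₀ y) - Real.sqrt (α x₀ * β y)) ^ 2 :=
          Finset.single_le_sum (f := fun y => (Real.sqrt (μ x₀ y) - Real.sqrt (α x₀ * β y)) ^ 2)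
            (fun y _ => sq_nonneg _) (Finset.mem_univ y₀)
      _ ≤ _ :=
          Finset.single_le_sum
            (f := fun x => ∑ y, (Real.sqrt (μ x y) - Real.sqrt (α x * β y)) ^ 2)
            (fun x _ => Finset.sum_nonneg fun y _ => sq_nonneg _) (Finset.mem_univ x₀)
  linarith

/-- the pair of values on the ends of `f`, when the value at the end in `S` is `x` and the value at
the other end is `y` -/
def lossb2_o {D K : Type} [DecidableEq K] {J : Finset (K × K)} (S : Finset K) (f : J) (x y : D) :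
    D × D :=
  if f.1.1 ∈ S then (x, y) else (y, x)

theorem lossb2_sum {D K : Type} [Fintype D] [DecidableEq K] {J : Finset (K × K)} (S : Finset K)
    (f : J) (g : D × D → ℝ) : ∑ x, ∑ y, g (lossb2_o S f x y) = ∑ o, g o := by
  rw [Fintype.sum_prod_type]
  unfold lossb2_o
  by_cases h : f.1.1 ∈ S
  · simp only [if_pos h]
  · simp only [if_neg h]
    rw [Finset.sum_comm]

theorem lossb2_sumw {D K : Type} [Fintype D] [DecidableEq D] [DecidableEq K]
    {J : Finset (K × K)} (S : Finset K) (g : (J → D × D) → ℝ) :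
    ∑ x : J → D, ∑ y : J → D, g (fun f => lossb2_o S f (x f) (y f)) = ∑ w, g w := by
  rw [← Fintype.sum_prod_type']
  refine Finset.sum_nbij' (fun p : (J → D) × (J → D) => fun f => lossb2_o S f (p.1 f) (p.2 f))
    (fun w => (fun f => (lossb2_o S f (w f).1 (w f).2).1, fun f =>
      (lossb2_o S f (w f).1 (w f).2).2)) (fun _ _ => Finset.mem_univ _)
    (fun _ _ => Finset.mem_univ _) ?_ ?_ ?_
  · rintro ⟨x, y⟩ _
    refine Prod.ext (funext fun f => ?_) (funext fun f => ?_)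
    · unfold lossb2_o
      by_cases h : f.1.1 ∈ S
      · simp only [if_pos h]
      · simp only [if_neg h]
    · unfold lossb2_o
      by_cases h : f.1.1 ∈ S
      · simp only [if_pos h]
      · simp only [if_neg h]
  · intro w _
    funext f
    unfold lossb2_o
    by_cases h : f.1.1 ∈ S
    · simp only [if_pos h]
    · simp only [if_neg h]
  · intro p _
    rfl

/-! ### the loss for fixed values off the ends of `J` -/

theorem lossb2_fixed {η Kc h : ℝ} (hη1 : η < 1) (hKc : 1 ≤ Kc)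
    (hcore : ∀ (J X Y : Type) [Fintype J] [DecidableEq J] [Fintype X] [DecidableEq X] [Fintype Y]
      [DecidableEq Y] (μ : J → X → Y → ℝ),
      (∀ j x y, 0 ≤ μ j x y) → (∀ j, ∑ x, ∑ y, μ j x y = 1) →
      (∀ j, ∑ x, ∑ y, Real.sqrt (μ j x y * (∑ y', μ j x y') * (∑ x', μ j x' y)) ≤
        Real.exp (-2 * h)) →
      ∀ (N : (J → X) → (J → Y) → ℝ) (W : ℕ) (u : Fin W → (J → X) → ℝ) (v : Fin W → (J → Y) → ℝ),
        (∀ x y, 0 ≤ N x y) → (∀ x y, N x y ≤ ∏ j, μ j (x j) (y j)) →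
        (∀ x y, N x y = ∑ i, u i x * v i y) →
        ∑ x, ∑ y, N x y ≤ Kc * (W + 1) * (1 - η) ^ Fintype.card J)
    {D K : Type} [Fintype D] [DecidableEq D] [Fintype K]
    [DecidableEq K] (M : D → D → ℝ≥0) (a a' b b' : D)
    (hr : ∀ c c' d d', M c d ≠ 0 → M c d' ≠ 0 → M c' d ≠ 0 → M c' d' ≠ 0)
    (hab : M a b ≠ 0) (hab' : M a b' ≠ 0) (ha'b : M a' b ≠ 0)
    (m X : ℝ≥0) (hm0 : 0 < m) (hm : ∀ c d, M c d ≠ 0 → m ≤ M c d) (hX : ∀ c d, M c d ≤ X)
    (hmX : m ≤ X) (Δ : ℕ) (θ κ ε : ℝ)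
    (hθ : θ = ((m : ℝ) / X) ^ (2 * Δ) / (Fintype.card (D × D) : ℝ))
    (hκ : κ = θ ^ 2 * |(M a b : ℝ) * M a' b' / (M a b' * M a' b) - 1|)
    (hε : 0 < ε) (h1 : ε ≤ κ / 5) (h2 : ε ≤ θ / 2) (h3 : 1 - ε ^ 2 / 8 ≤ Real.exp (-2 * h))
    {E J : Finset (K × K)} {col : K → Bool} (hE : Bip E col Δ) (G : lossb_Geo E col J)
    (v₀ : K) (hv : col v₀ = true) (hv1 : v₀ ∉ lossb_P J) (T : (K → D) → ℝ≥0)
    (hT : ∀ x, T x ≤ net E M x) (S : Finset K)
    (hS : ∀ e ∈ J, (e.1 ∈ S ∧ e.2 ∉ S) ∨ (e.1 ∉ S ∧ e.2 ∈ S)) (W : ℕ) (hW : RankLe W T S)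
    (z : K → D) (hz : z v₀ = a) :
    ((marg (lossb_P J) T z : ℝ≥0) : ℝ) ≤ Kc * (W + 1) * (1 - η) ^ J.card *
      ((marg (lossb_P J) (net E M) z : ℝ≥0) : ℝ) := by
  rw [lossb_marg G.mat, lossb_marg G.mat]
  have hη : 0 < 1 - η := by linarith
  have hKc0 : 0 ≤ Kc := by linarith
  rcases eq_or_ne (∑ w : J → D × D, T (lossb_comb J z w)) 0 with h0 | h0
  · rw [h0, NNReal.coe_zero]
    positivity
  -- some term is not zero
  obtain ⟨w₀, hw₀⟩ : ∃ w₀, T (lossb_comb J z w₀) ≠ 0 := by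
    by_contra h
    push Not at h
    exact h0 (Finset.sum_eq_zero fun w _ => h w)
  have hnet : net E M (lossb_comb J z w₀) ≠ 0 := by
    intro h
    have := hT (lossb_comb J z w₀)
    rw [h] at this
    exact hw₀ (le_antisymm this zero_le)
  have hX0 : 0 < X := lt_of_lt_of_le hm0 hmX
  -- lower bounds
  have hlow : ∀ (f : J) (c d : D), (c = a ∨ c = a') → (d = b ∨ d = b') →
      m ^ (lossb_tch E f).card ≤ lossb_phi E M z f (c, d) := by
    intro f c d hc hd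
    apply lossb_le_phi M z f (c, d) m hm
    apply lossb_nz G hE M a b hr hab z w₀ hnet v₀ hv hv1 hz f (c, d)
    · rcases hc with rfl | rfl
      · exact hab
      · exact ha'b
    · rcases hd with rfl | rfl
      · exact hab
      · exact hab'
  have hpos : ∀ f : J, 0 < ∑ o, lossb_phi E M z f o := by
    intro f
    have k1 := hlow f a b (Or.inl rfl) (Or.inl rfl)
    have k2 : lossb_phi E M z f (a, b) ≤ ∑ o, lossb_phi E M z f o :=
      Finset.single_le_sum (fun _ _ => zero_le) (Finset.mem_univ (a, b))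
    exact lt_of_lt_of_le (pow_pos hm0 _) (k1.trans k2)
  have hsum : ∀ f : J, ((∑ o, lossb_phi E M z f o : ℝ≥0) : ℝ) ≤
      (Fintype.card (D × D) : ℝ) * (X : ℝ) ^ (lossb_tch E f).card := by
    intro f
    have : ∑ o, lossb_phi E M z f o ≤ ∑ _o : D × D, X ^ (lossb_tch E f).card :=
      Finset.sum_le_sum fun o _ => lossb_phi_le M z f o X hX
    rw [Finset.sum_const, Finset.card_univ, nsmul_eq_mul] at this
    exact_mod_cast this
  have hcardD : (0 : ℝ) < (Fintype.card (D × D) : ℝ) := by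
    have : 0 < Fintype.card (D × D) := Fintype.card_pos_iff.2 ⟨(a, b)⟩
    exact_mod_cast this
  have hmR : (0 : ℝ) < m := by exact_mod_cast hm0
  have hXR : (0 : ℝ) < X := by exact_mod_cast hX0
  have hmXR : (m : ℝ) ≤ X := by exact_mod_cast hmX
  have hθb : ∀ (f : J) (c d : D), (c = a ∨ c = a') → (d = b ∨ d = b') →
      θ * ((∑ o, lossb_phi E M z f o : ℝ≥0) : ℝ) ≤ (lossb_phi E M z f (c, d) : ℝ) := by
    intro f c d hc hd
    have k1 : (m : ℝ) ^ (lossb_tch E f).card ≤ (lossb_phi E M z f (c, d) : ℝ) := by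
      exact_mod_cast hlow f c d hc hd
    have k2 : ((m : ℝ) / X) ^ (2 * Δ) ≤ ((m : ℝ) / X) ^ (lossb_tch E f).card :=
      pow_le_pow_of_le_one (by positivity) ((div_le_one hXR).2 hmXR) (lossb_card hE f)
    calc θ * ((∑ o, lossb_phi E M z f o : ℝ≥0) : ℝ)
        ≤ (((m : ℝ) / X) ^ (lossb_tch E f).card / (Fintype.card (D × D) : ℝ)) *
          ((Fintype.card (D × D) : ℝ) * (X : ℝ) ^ (lossb_tch E f).card) := by
          apply mul_le_mul _ (hsum f) NNReal.zero_le_coe (by positivity)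
          rw [hθ]
          exact div_le_div_of_nonneg_right k2 hcardD.le
      _ = (m : ℝ) ^ (lossb_tch E f).card := by
          rw [div_pow]
          field_simp
      _ ≤ _ := k1
  -- the minor
  have hM1 : (M a b' : ℝ) ≠ 0 := by exact_mod_cast hab'
  have hM2 : (M a' b : ℝ) ≠ 0 := by exact_mod_cast ha'b
  have hθ0 : 0 ≤ θ := by
    rw [hθ]
    positivity
  have hκb : ∀ f : J, κ * ((∑ o, lossb_phi E M z f o : ℝ≥0) : ℝ) ^ 2 ≤
      |(lossb_phi E M z f (a, b) : ℝ) * lossb_phi E M z f (a', b') -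
        lossb_phi E M z f (a, b') * lossb_phi E M z f (a', b)| := by
    intro f
    have k1 : (lossb_phi E M z f (a, b) : ℝ) * lossb_phi E M z f (a', b') *
        (M a b' * M a' b) = lossb_phi E M z f (a, b') * lossb_phi E M z f (a', b) *
        (M a b * M a' b') := by exact_mod_cast lossb_minor G M z f a a' b b'
    have k2 : (lossb_phi E M z f (a, b) : ℝ) * lossb_phi E M z f (a', b') -
        lossb_phi E M z f (a, b') * lossb_phi E M z f (a', b) =
        (lossb_phi E M z f (a, b') * lossb_phi E M z f (a', b)) *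
        ((M a b : ℝ) * M a' b' / (M a b' * M a' b) - 1) := by
      have : (lossb_phi E M z f (a, b) : ℝ) * lossb_phi E M z f (a', b') =
          lossb_phi E M z f (a, b') * lossb_phi E M z f (a', b) *
          (M a b * M a' b') / (M a b' * M a' b) := by
        rw [eq_div_iff (mul_ne_zero hM1 hM2)]
        exact k1
      rw [this]
      ring
    rw [k2, abs_mul, abs_of_nonneg (by positivity), hκ]
    have k3 := hθb f a b' (Or.inl rfl) (Or.inr rfl)
    have k4 := hθb f a' b (Or.inr rfl) (Or.inl rfl)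
    have k5 : θ * ((∑ o, lossb_phi E M z f o : ℝ≥0) : ℝ) *
        (θ * ((∑ o, lossb_phi E M z f o : ℝ≥0) : ℝ)) ≤
        (lossb_phi E M z f (a, b') : ℝ) * lossb_phi E M z f (a', b) :=
      mul_le_mul k3 k4 (by positivity) (by positivity)
    calc θ ^ 2 * |(M a b : ℝ) * M a' b' / (M a b' * M a' b) - 1| *
        ((∑ o, lossb_phi E M z f o : ℝ≥0) : ℝ) ^ 2
        = (θ * ((∑ o, lossb_phi E M z f o : ℝ≥0) : ℝ) *
          (θ * ((∑ o, lossb_phi E M z f o : ℝ≥0) : ℝ))) *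
          |(M a b : ℝ) * M a' b' / (M a b' * M a' b) - 1| := by ring
      _ ≤ _ := mul_le_mul_of_nonneg_right k5 (abs_nonneg _)
  -- the normalised factors
  obtain ⟨Φ, hΦ⟩ : ∃ Φ : J → ℝ, Φ = fun f => ((∑ o, lossb_phi E M z f o : ℝ≥0) : ℝ) := ⟨_, rfl⟩
  have hΦ0 : ∀ f, 0 < Φ f := fun f => by
    rw [hΦ]
    exact_mod_cast hpos f
  obtain ⟨ν, hν⟩ : ∃ ν : J → D × D → ℝ, ν = fun f o => (lossb_phi E M z f o : ℝ) / Φ f :=
    ⟨_, rfl⟩
  have hν0 : ∀ f o, 0 ≤ ν f o := fun f o => by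
    rw [hν]
    exact div_nonneg NNReal.zero_le_coe (hΦ0 f).le
  have hν1 : ∀ f, ∑ o, ν f o = 1 := fun f => by
    rw [hν]
    simp only
    rw [← Finset.sum_div, div_eq_one_iff_eq (hΦ0 f).ne', hΦ]
    simp only
    rw [NNReal.coe_sum]
  have hνθ : ∀ (f : J) (c d : D), (c = a ∨ c = a') → (d = b ∨ d = b') → θ ≤ ν f (c, d) := by
    intro f c d hc hd
    rw [hν]
    simp only
    rw [le_div_iff₀ (hΦ0 f), hΦ]
    exact hθb f c d hc hd
  have hνκ : ∀ f : J, κ ≤ |ν f (a, b) * ν f (a', b') - ν f (a, b') * ν f (a', b)| := by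
    intro f
    have hf := hκb f
    rw [hν]
    simp only
    rw [div_mul_div_comm, div_mul_div_comm, ← sub_div, abs_div, ← sq,
      abs_of_pos (pow_pos (hΦ0 f) 2), le_div_iff₀ (pow_pos (hΦ0 f) 2), hΦ]
    exact hf
  have hC0 : lossb_C E M J z ≠ 0 := by
    intro h
    rw [lossb_net G, h, zero_mul] at hnet
    exact hnet rfl
  obtain ⟨B, hB⟩ : ∃ B : ℝ, B = (lossb_C E M J z : ℝ) * ∏ f : J, Φ f := ⟨_, rfl⟩
  have hB0 : 0 < B := by
    rw [hB]
    apply mul_pos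
    · exact_mod_cast pos_iff_ne_zero.2 hC0
    · exact Finset.prod_pos fun f _ => hΦ0 f
  have hnetB : ∀ w : J → D × D, (net E M (lossb_comb J z w) : ℝ) = B * ∏ f : J, ν f (w f) := by
    intro w
    rw [lossb_net G, hB, NNReal.coe_mul, mul_assoc, ← Finset.prod_mul_distrib, NNReal.coe_prod]
    refine congrArg _ (Finset.prod_congr rfl fun f _ => ?_)
    rw [hν]
    simp only
    rw [mul_div_cancel₀ _ (hΦ0 f).ne']
  have hnetS : ((∑ w : J → D × D, net E M (lossb_comb J z w) : ℝ≥0) : ℝ) = B := by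
    rw [NNReal.coe_sum, Finset.sum_congr rfl fun w _ => hnetB w, ← Finset.mul_sum]
    have : ∑ w : J → D × D, ∏ f : J, ν f (w f) = ∏ f : J, ∑ o, ν f o := by
      rw [Finset.prod_univ_sum, Fintype.piFinset_univ]
    rw [this, Finset.prod_eq_one fun f _ => hν1 f, mul_one]
  -- the values on the two sides of the cut
  have hin : ∀ (x y y' : J → D) (k : K), k ∈ S →
      lossb_comb J z (fun f => lossb2_o S f (x f) (y f)) k =
        lossb_comb J z (fun f => lossb2_o S f (x f) (y' f)) k := by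
    intro x y y' k hk
    by_cases hkP : k ∈ lossb_P J
    · rw [lossb_mem] at hkP
      obtain ⟨f, hf | hf⟩ := hkP
      · rw [← hf] at hk ⊢
        rw [lossb_comb1 G.mat, lossb_comb1 G.mat]
        unfold lossb2_o
        rw [if_pos hk, if_pos hk]
      · rw [← hf] at hk ⊢
        have hf1 : f.1.1 ∉ S := by
          rcases hS f.1 f.2 with h | h
          · exact absurd hk h.2
          · exact h.1
        rw [lossb_comb2 G.mat, lossb_comb2 G.mat]
        unfold lossb2_o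
        rw [if_neg hf1, if_neg hf1]
    · rw [lossb_comb0 z _ k hkP, lossb_comb0 z _ k hkP]
  have hout : ∀ (x x' y : J → D) (k : K), k ∉ S →
      lossb_comb J z (fun f => lossb2_o S f (x f) (y f)) k =
        lossb_comb J z (fun f => lossb2_o S f (x' f) (y f)) k := by
    intro x x' y k hk
    by_cases hkP : k ∈ lossb_P J
    · rw [lossb_mem] at hkP
      obtain ⟨f, hf | hf⟩ := hkP
      · rw [← hf] at hk ⊢
        rw [lossb_comb1 G.mat, lossb_comb1 G.mat]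
        unfold lossb2_o
        rw [if_neg hk, if_neg hk]
      · rw [← hf] at hk ⊢
        have hf1 : f.1.1 ∈ S := by
          rcases hS f.1 f.2 with h | h
          · exact h.1
          · exact absurd h.2 hk
        rw [lossb_comb2 G.mat, lossb_comb2 G.mat]
        unfold lossb2_o
        rw [if_pos hf1, if_pos hf1]
    · rw [lossb_comb0 z _ k hkP, lossb_comb0 z _ k hkP]
  obtain ⟨u, v, hu, hv', huv⟩ := hW
  have hfin := hcore J D D (fun f x y => ν f (lossb2_o S f x y)) (fun f x y => hν0 f _)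
    (fun f => by rw [lossb2_sum S f (ν f)]; exact hν1 f)
    (fun f => by
      refine le_trans ?_ h3
      have s1 : ∑ x, ∑ y, ν f (lossb2_o S f x y) = 1 := by
        rw [lossb2_sum S f (ν f)]; exact hν1 f
      by_cases hf : f.1.1 ∈ S
      · have o1 : ∀ x y : D, lossb2_o S f x y = (x, y) := fun x y => if_pos hf
        refine lossb2_bc (fun x y => ν f (lossb2_o S f x y)) (fun x y => hν0 f _) s1 a a' b b'
          hε h1 h2 ?_ ?_ ?_ ?_ ?_
        · rw [o1]; exact hνθ f a b (Or.inl rfl) (Or.inl rfl)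
        · rw [o1]; exact hνθ f a b' (Or.inl rfl) (Or.inr rfl)
        · rw [o1]; exact hνθ f a' b (Or.inr rfl) (Or.inl rfl)
        · rw [o1]; exact hνθ f a' b' (Or.inr rfl) (Or.inr rfl)
        · rw [o1, o1, o1, o1]; exact hνκ f
      · have o1 : ∀ x y : D, lossb2_o S f x y = (y, x) := fun x y => if_neg hf
        refine lossb2_bc (fun x y => ν f (lossb2_o S f x y)) (fun x y => hν0 f _) s1 b b' a a'
          hε h1 h2 ?_ ?_ ?_ ?_ ?_
        · rw [o1]; exact hνθ f a b (Or.inl rfl) (Or.inl rfl)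
        · rw [o1]; exact hνθ f a' b (Or.inr rfl) (Or.inl rfl)
        · rw [o1]; exact hνθ f a b' (Or.inl rfl) (Or.inr rfl)
        · rw [o1]; exact hνθ f a' b' (Or.inr rfl) (Or.inr rfl)
        · rw [o1, o1, o1, o1, mul_comm (ν f (a', b))]; exact hνκ f)
    (fun x y => (T (lossb_comb J z (fun f => lossb2_o S f (x f) (y f))) : ℝ) / B) W
    (fun i x => u i (lossb_comb J z (fun f => lossb2_o S f (x f) a)) / B)
    (fun i y => v i (lossb_comb J z (fun f => lossb2_o S f a (y f))))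
    (fun x y => div_nonneg NNReal.zero_le_coe hB0.le)
    (fun x y => by
      rw [div_le_iff₀ hB0, mul_comm, ← hnetB]
      exact_mod_cast hT _)
    (fun x y => by
      rw [huv, Finset.sum_div]
      refine Finset.sum_congr rfl fun i _ => ?_
      rw [hu i _ _ (fun k hk => hin x y (fun _ => a) k hk),
        hv' i _ _ (fun k hk => hout x (fun _ => a) y k hk)]
      ring)
  rw [lossb2_sumw S (fun w => (T (lossb_comb J z w) : ℝ) / B), ← Finset.sum_div,
    div_le_iff₀ hB0, Fintype.card_coe] at hfin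
  rw [hnetS, NNReal.coe_sum]
  exact hfin

theorem thm_LossB2 (hRk : St_RkB) : St_LossB2 := by
  intro D _ _ M a a' b b' hr hab hab' ha'b ha'b' hne Δ
  -- extreme values
  obtain ⟨p, hp, hpm⟩ := Finset.exists_min_image
    (univ.filter fun p : D × D => M p.1 p.2 ≠ 0) (fun p => M p.1 p.2)
    ⟨(a, b), Finset.mem_filter.2 ⟨Finset.mem_univ _, hab⟩⟩
  obtain ⟨q, _, hqm⟩ := Finset.exists_max_image (univ : Finset (D × D)) (fun p => M p.1 p.2)
    ⟨(a, b), Finset.mem_univ _⟩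
  rw [Finset.mem_filter] at hp
  have hm0 : 0 < M p.1 p.2 := pos_iff_ne_zero.2 hp.2
  have hm : ∀ c d, M c d ≠ 0 → M p.1 p.2 ≤ M c d := fun c d h =>
    hpm (c, d) (Finset.mem_filter.2 ⟨Finset.mem_univ _, h⟩)
  have hX : ∀ c d, M c d ≤ M q.1 q.2 := fun c d => hqm (c, d) (Finset.mem_univ _)
  have hmX : M p.1 p.2 ≤ M q.1 q.2 := hX _ _
  have hmR : (0 : ℝ) < (M p.1 p.2 : ℝ) := by exact_mod_cast hm0
  have hXR : (0 : ℝ) < (M q.1 q.2 : ℝ) := by exact_mod_cast lt_of_lt_of_le hm0 hmX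
  have hmXR : (M p.1 p.2 : ℝ) ≤ (M q.1 q.2 : ℝ) := by exact_mod_cast hmX
  have hcard1 : 1 ≤ (Fintype.card (D × D) : ℝ) := by
    have : 0 < Fintype.card (D × D) := Fintype.card_pos_iff.2 ⟨(a, b)⟩
    exact_mod_cast this
  obtain ⟨θ, hθ⟩ : ∃ θ : ℝ, θ = ((M p.1 p.2 : ℝ) / (M q.1 q.2)) ^ (2 * Δ) /
    (Fintype.card (D × D) : ℝ) := ⟨_, rfl⟩
  have hθ0 : 0 < θ := by
    rw [hθ]
    positivity
  have hθ1 : θ ≤ 1 := by
    rw [hθ]
    rw [div_le_one (by linarith)]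
    refine le_trans ?_ hcard1
    exact pow_le_one₀ (by positivity) ((div_le_one hXR).2 hmXR)
  have hM1 : (M a b' : ℝ) ≠ 0 := by exact_mod_cast hab'
  have hM2 : (M a' b : ℝ) ≠ 0 := by exact_mod_cast ha'b
  obtain ⟨κ, hκ⟩ : ∃ κ : ℝ, κ = θ ^ 2 * |(M a b : ℝ) * M a' b' / (M a b' * M a' b) - 1| :=
    ⟨_, rfl⟩
  have hκ0 : 0 < κ := by
    rw [hκ]
    apply mul_pos (pow_pos hθ0 2)
    rw [abs_pos, sub_ne_zero]
    intro h
    rw [div_eq_one_iff_eq (mul_ne_zero hM1 hM2)] at h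
    exact hne (by exact_mod_cast h)
  obtain ⟨ε, hε⟩ : ∃ ε : ℝ, ε = min (κ / 5) (θ / 2) := ⟨_, rfl⟩
  have hε0 : 0 < ε := by
    rw [hε]
    exact lt_min (by linarith) (by linarith)
  have h1 : ε ≤ κ / 5 := by rw [hε]; exact min_le_left _ _
  have h2 : ε ≤ θ / 2 := by rw [hε]; exact min_le_right _ _
  have h3 : ε ≤ 1 := by linarith
  have h4 : 0 < 1 - ε ^ 2 / 8 := by nlinarith
  have h5 : 1 - ε ^ 2 / 8 < 1 := by
    have : 0 < ε ^ 2 := pow_pos hε0 2
    linarith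
  have h6 : 0 < -(Real.log (1 - ε ^ 2 / 8) / 2) := by
    have := Real.log_neg h4 h5
    linarith
  obtain ⟨η, Kc, hη0, hη1, hKc, hcore⟩ := hRk _ h6
  refine ⟨η, Kc, hη0, hη1, hKc, ?_⟩
  intro K _ _ E col hE v₀ hv J hJ hJv S hS T W hT hW
  have G := lossb_geo hE hJ
  have hv1 : v₀ ∉ lossb_P J := by
    rw [lossb_mem]
    rintro ⟨f, hf | hf⟩
    · exact (hJv _ f.2).1 hf
    · exact (hJv _ f.2).2 hf
  rw [lossb_total J v₀ a hv1 T, lossb_total J v₀ a hv1 (net E M), NNReal.coe_sum,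
    NNReal.coe_sum, Finset.mul_sum]
  refine Finset.sum_le_sum fun z hz => ?_
  rw [Finset.mem_filter] at hz
  refine lossb2_fixed hη1 hKc hcore M a a' b b' ?_ hab hab' ha'b (M p.1 p.2) (M q.1 q.2) hm0 hm
    hX hmX Δ θ κ ε hθ hκ hε0 h1 h2 ?_ hE G v₀ hv hv1 T hT S hS W hW z hz.2.1
  · intro c c' d d'
    exact hr c c' d d'
  · have : -2 * -(Real.log (1 - ε ^ 2 / 8) / 2) = Real.log (1 - ε ^ 2 / 8) := by ring
    rw [this, Real.exp_log h4]

end Pool.Agent.WD
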