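import Pool.Agent.WE.St
import Pool.Agent.WD.Net

namespace Pool.Agent.WD

open Finset
open scoped NNReal

/-- arithmetic of the two bounds -/
theorem net2_pow {η η' Kc A : ℝ} {k W : ℕ} (h0 : 0 < η) (hle : η ≤ η') (h1 : η' < 1)
    (hK : 1 ≤ Kc) (hA : 0 ≤ A) : (1 - η') ^ k * A ≤ Kc * (W + 1) * (1 - η) ^ k * A := by
  apply mul_le_mul_of_nonneg_right _ hA
  have e1 : (1 - η') ^ k ≤ (1 - η) ^ k := pow_le_pow_left₀ (by linarith) (by linarith) k
  have e2 : (0 : ℝ) ≤ (1 - η) ^ k := pow_nonneg (by linarith) k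
  have e3 : (1 : ℝ) ≤ Kc * (W + 1) := by
    have : (1 : ℝ) ≤ W + 1 := by
      have := Nat.cast_nonneg (α := ℝ) W
      linarith
    exact one_le_mul_of_one_le_of_one_le hK this
  calc (1 - η') ^ k ≤ (1 - η) ^ k := e1
    _ = 1 * (1 - η) ^ k := by ring
    _ ≤ Kc * (W + 1) * (1 - η) ^ k := mul_le_mul_of_nonneg_right e3 e2

theorem net2_pow' {η η' Kc Kc' A : ℝ} {k W : ℕ} (h0 : 0 < η) (hle : η ≤ η') (h1 : η' < 1)
    (hK : 0 ≤ Kc') (hKK : Kc' ≤ Kc) (hA : 0 ≤ A) :
    Kc' * (W + 1) * (1 - η') ^ k * A ≤ Kc * (W + 1) * (1 - η) ^ k * A := by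
  apply mul_le_mul_of_nonneg_right _ hA
  have e1 : (1 - η') ^ k ≤ (1 - η) ^ k := pow_le_pow_left₀ (by linarith) (by linarith) k
  have e2 : (0 : ℝ) ≤ (1 - η') ^ k := pow_nonneg (by linarith) k
  have hW : (0 : ℝ) ≤ W + 1 := by positivity
  apply mul_le_mul _ e1 e2 (by
    apply mul_nonneg (le_trans hK hKK) hW)
  exact mul_le_mul_of_nonneg_right hKK hW

theorem net2_all {D : Type} {M : D → D → ℝ≥0}
    (hr : ∀ c c' d d', M c d ≠ 0 → M c d' ≠ 0 → M c' d ≠ 0 → M c' d' ≠ 0) {a a' b b' : D}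
    (h : ¬ Four (M a b) (M a b') (M a' b) (M a' b')) :
    M a b ≠ 0 ∧ M a b' ≠ 0 ∧ M a' b ≠ 0 ∧ M a' b' ≠ 0 ∧ M a b * M a' b' ≠ M a b' * M a' b := by
  unfold Four at h
  push Not at h
  obtain ⟨h1, h2, h3⟩ := h
  by_cases hp : M a b = 0
  · have hs := h2 hp
    have hqr : M a b' * M a' b ≠ 0 := by
      intro h0
      apply h1
      rw [h0, hp, zero_mul]
    have hq := left_ne_zero_of_mul hqr
    have hr' := right_ne_zero_of_mul hqr
    exact absurd hp (hr a' a b' b hs hr' hq)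
  · by_cases hs : M a' b' = 0
    · have hqr : M a b' * M a' b ≠ 0 := by
        intro h0
        apply h1
        rw [h0, hs, mul_zero]
      have hq := left_ne_zero_of_mul hqr
      have hr' := right_ne_zero_of_mul hqr
      exact absurd hs (hr a a' b b' hp hq hr')
    · by_cases hq : M a b' = 0
      · have hr' := h3 hq
        exact absurd hq (hr a' a b b' hr' hs hp)
      · refine ⟨hp, hq, ?_, hs, h1⟩
        intro hr'
        exact hr a a' b' b hq hp hs hr'

theorem thm_Net2 (hA : St_LossA) (hB : St_LossB) (hA2 : St_LossA2) (hB2 : St_LossB2) :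
    St_Net2 := by
  intro D _ _ M hM Δ
  by_cases hr : ∀ c c' d d', M c d ≠ 0 → M c d' ≠ 0 → M c' d ≠ 0 → M c' d' ≠ 0
  · -- rectangular support
    obtain ⟨a, a', b, b', h⟩ := hM
    obtain ⟨hp, hq, hr', hs, h1⟩ := net2_all hr h
    obtain ⟨η₁, hη0, hη1, H⟩ := hB D M a a' b b' hr hp hq hr' hs h1 Δ
    obtain ⟨η₂, Kc, hθ0, hθ1, hKc, H2⟩ := hB2 D M a a' b b' hr hp hq hr' hs h1 Δ
    refine ⟨min η₁ η₂, Kc, lt_min hη0 hθ0, (min_le_left _ _).trans_lt hη1, hKc, ?_⟩
    intro K _ _ E col hE v₀ hv₀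
    refine ⟨univ.filter (fun x : K → D => x v₀ = a), ?_, ?_⟩
    · have h0 : 0 < net E M (fun v => if col v = true then a else b) := by
        apply net_pos
        intro e he
        obtain ⟨h1, h2⟩ := hE.bip e he
        simp [h1, h2, hp]
      refine lt_of_lt_of_le h0 ?_
      refine Finset.single_le_sum (f := fun x => net E M x) (fun _ _ => zero_le) ?_
      simp [hv₀]
    · intro J _ hJ hJv S hJS T W hT hP
      rcases hP with hP | hP
      · exact (H K E col hE v₀ hv₀ J hJ hJv T hT hP).trans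
          (net2_pow (lt_min hη0 hθ0) (min_le_left _ _) hη1 hKc (NNReal.coe_nonneg _))
      · exact (H2 K E col hE v₀ hv₀ J hJ hJv S hJS T W hT hP).trans
          (net2_pow' (lt_min hη0 hθ0) (min_le_right _ _) hθ1 (by linarith) le_rfl
            (NNReal.coe_nonneg _))
  · -- non-rectangular support
    push Not at hr
    obtain ⟨a, a', b, b', hp, hq, hr', hs⟩ := hr
    obtain ⟨η₁, hη0, hη1, H⟩ := hA D M a a' b b' hp hq hr' hs Δ
    obtain ⟨η₂, hθ0, hθ1, H2⟩ := hA2 D M a a' b b' hp hq hr' hs Δ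
    refine ⟨min η₁ η₂, 1, lt_min hη0 hθ0, (min_le_left _ _).trans_lt hη1, le_rfl, ?_⟩
    intro K _ _ E col hE v₀ hv₀
    refine ⟨univ.filter (fun x : K → D => ∀ v,
          (col v = true → x v = a ∨ x v = a') ∧ (col v = false → x v = b ∨ x v = b')), ?_, ?_⟩
    · have h0 : 0 < net E M (fun v => if col v = true then a else b) := by
        apply net_pos
        intro e he
        obtain ⟨h1, h2⟩ := hE.bip e he
        simp [h1, h2, hp]
      refine lt_of_lt_of_le h0 ?_
      refine Finset.single_le_sum (f := fun x => net E M x) (fun _ _ => zero_le) ?_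
      simp only [mem_filter, mem_univ, true_and]
      intro v
      constructor
      · intro h; left; simp [h]
      · intro h; left; simp [h]
    · intro J hPat hJ _ S hJS T W hT hP
      rcases hP with hP | hP
      · exact (H K E col hE J hJ T hT hP).trans
          (net2_pow (lt_min hη0 hθ0) (min_le_left _ _) hη1 le_rfl (NNReal.coe_nonneg _))
      · refine (H2 K E col hE J hPat hJ S hJS T W hT hP).trans ?_
        apply mul_le_mul_of_nonneg_right _ (NNReal.coe_nonneg _)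
        have e1 : (1 - η₂) ^ J.card ≤ (1 - min η₁ η₂) ^ J.card :=
          pow_le_pow_left₀ (by linarith) (by linarith [min_le_right η₁ η₂]) _
        have e2 : (0 : ℝ) ≤ (1 - η₂) ^ J.card := pow_nonneg (by linarith) _
        calc (W : ℝ) * (1 - η₂) ^ J.card ≤ (W + 1) * (1 - min η₁ η₂) ^ J.card := by
              apply mul_le_mul (by linarith) e1 e2 (by positivity)
          _ = 1 * (W + 1) * (1 - min η₁ η₂) ^ J.card := by ring

end Pool.Agent.WD
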