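import Pool.Agent.WE.St
import Pool.Agent.WD.IndM

/-!
# WE / PatM: greedy choice of edges with disjoint patches
-/

namespace Pool.Agent.WD

open Finset
open scoped NNReal

section

variable {K : Type} [DecidableEq K]

theorem patm_near {E : Finset (K × K)} {e : K × K} {w : K} (h : Near E e w) :
    w ∈ indm_N E e := by
  rcases h with h | h | h | h
  · exact indm_N_mem (Or.inl rfl) (Or.inl h.symm)
  · exact indm_N_mem (Or.inr rfl) (Or.inl h.symm)
  · exact indm_N_mem (Or.inl rfl) (Or.inr (Or.inl h))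
  · exact indm_N_mem (Or.inr rfl) (Or.inr (Or.inr h))

/-- the edges near `w` -/
def patm_E (E : Finset (K × K)) (w : K) : Finset (K × K) :=
  (insert w (indm_nb E w)).biUnion fun v => E.filter fun e' => e'.1 = v ∨ e'.2 = v

theorem patm_E_card {E : Finset (K × K)} {Δ : ℕ}
    (hΔ : ∀ v, (E.filter fun e => e.1 = v ∨ e.2 = v).card ≤ Δ) (w : K) :
    (patm_E E w).card ≤ (Δ + 1) * Δ := by
  refine (card_biUnion_le_card_mul _ _ Δ fun v _ => hΔ v).trans ?_
  refine Nat.mul_le_mul_right _ ?_
  refine (card_insert_le _ _).trans ?_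
  exact Nat.add_le_add_right (card_image_le.trans (hΔ w)) 1

theorem patm_E_mem {E : Finset (K × K)} {e : K × K} {w : K} (he : e ∈ E) (h : Near E e w) :
    e ∈ patm_E E w := by
  unfold patm_E
  rw [mem_biUnion]
  rcases h with h | h | h | h
  · exact ⟨w, mem_insert_self _ _, mem_filter.2 ⟨he, Or.inl h.symm⟩⟩
  · exact ⟨w, mem_insert_self _ _, mem_filter.2 ⟨he, Or.inr h.symm⟩⟩
  · exact ⟨e.1, mem_insert_of_mem (indm_nb_right h), mem_filter.2 ⟨he, Or.inl rfl⟩⟩
  · exact ⟨e.2, mem_insert_of_mem (indm_nb_left h), mem_filter.2 ⟨he, Or.inr rfl⟩⟩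

theorem patm_ind [Fintype K] {E J : Finset (K × K)} {col : K → Bool} {Δ : ℕ}
    (hE : Bip E col Δ) (hJ : Pat E J) : Ind E J := by
  refine ⟨hJ.1, fun e he e' he' hne u v hu hv => ?_⟩
  have h0 := hJ.2 e he e' he' hne
  have hc := hE.bip e (hJ.1 he)
  have hc' := hE.bip e' (hJ.1 he')
  have nu : Near E e u := by
    rcases hu with hu | hu
    · exact Or.inl hu
    · exact Or.inr (Or.inl hu)
  have nv : Near E e' v := by
    rcases hv with hv | hv
    · exact Or.inl hv
    · exact Or.inr (Or.inl hv)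
  refine ⟨?_, ?_, ?_⟩
  · rintro rfl
    exact h0 u ⟨nu, nv⟩
  · intro h
    have h1 := hE.bip _ h
    have h2 : u = e.1 := by
      rcases hu with hu | hu
      · exact hu
      · exfalso
        rw [hu] at h1
        have := h1.1.symm.trans hc.2
        exact Bool.noConfusion this
    refine h0 v ⟨Or.inr (Or.inr (Or.inl ?_)), nv⟩
    rw [← h2]
    exact h
  · intro h
    have h1 := hE.bip _ h
    have h2 : v = e'.1 := by
      rcases hv with hv | hv
      · exact hv
      · exfalso
        rw [hv] at h1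
        have := h1.1.symm.trans hc'.2
        exact Bool.noConfusion this
    refine h0 u ⟨nu, Or.inr (Or.inr (Or.inl ?_))⟩
    rw [← h2]
    exact h

end

theorem thm_PatM : St_PatM := by
  classical
  intro K _ _ E col Δ hE X hX
  have hne : (X.powerset.filter fun J => Pat E J).Nonempty := by
    refine ⟨∅, mem_filter.2 ⟨empty_mem_powerset _, empty_subset _, ?_⟩⟩
    intro e he
    exact absurd he (notMem_empty _)
  obtain ⟨J, hJ, hmax⟩ := Finset.exists_max_image _ (fun J => J.card) hne
  rw [mem_filter, mem_powerset] at hJ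
  refine ⟨J, hJ.1, hJ.2, patm_ind hE hJ.2, ?_⟩
  have hcov : X ⊆ J.biUnion fun e => (indm_N E e).biUnion fun w => patm_E E w := by
    intro e' he'
    by_contra hcon
    have hno : ∀ e ∈ J, ∀ w, ¬ (Near E e w ∧ Near E e' w) := by
      rintro e he w ⟨h1, h2⟩
      exact hcon (mem_biUnion.2 ⟨e, he, mem_biUnion.2 ⟨w, patm_near h1,
        patm_E_mem (hX he') h2⟩⟩)
    have hnot : e' ∉ J := fun h => hno e' h e'.1 ⟨Or.inl rfl, Or.inl rfl⟩
    have hins : insert e' J ∈ X.powerset.filter fun J => Pat E J := by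
      refine mem_filter.2 ⟨mem_powerset.2 (insert_subset he' hJ.1),
        insert_subset (hX he') hJ.2.1, ?_⟩
      intro e1 he1 e2 he2 hne' w hw
      rw [mem_insert] at he1 he2
      rcases he1 with rfl | he1
      · rcases he2 with rfl | he2
        · exact hne' rfl
        · exact hno e2 he2 w ⟨hw.2, hw.1⟩
      · rcases he2 with rfl | he2
        · exact hno e1 he1 w hw
        · exact hJ.2.2 e1 he1 e2 he2 hne' w hw
    have := hmax _ hins
    rw [card_insert_of_notMem hnot] at this
    omega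
  calc X.card ≤ _ := card_le_card hcov
    _ ≤ J.card * ((2 * Δ + 2) * ((Δ + 1) * Δ)) := by
        refine card_biUnion_le_card_mul _ _ _ fun e _ => ?_
        refine (card_biUnion_le_card_mul _ _ ((Δ + 1) * Δ) fun w _ =>
          patm_E_card hE.deg w).trans ?_
        exact Nat.mul_le_mul_right _ (indm_N_card hE.deg e)
    _ = (2 * Δ + 2) * ((Δ + 1) * Δ) * J.card := Nat.mul_comm _ _

end Pool.Agent.WD
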