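import Pool.Agent.WE.St

/-!
# [RkB] the core estimate in the soft case
-/

namespace Pool.Agent.WD

open Finset
open scoped NNReal

/-- a matrix of rank at most `W` and size `W + 1` is not strictly diagonally dominant -/
theorem rkb_rank (W : ℕ) (G : Matrix (Fin (W + 1)) (Fin (W + 1)) ℝ)
    (a : Fin (W + 1) → Fin W → ℝ) (b : Fin W → Fin (W + 1) → ℝ)
    (hG : ∀ i j, G i j = ∑ l, a i l * b l j)
    (hd : ∀ i, ∑ j ∈ univ.erase i, |G i j| < |G i i|) : False := by
  have h1 : G = Matrix.of a * Matrix.of b := by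
    ext i j
    rw [hG, Matrix.mul_apply]
    rfl
  have h2 : G.det ≠ 0 := det_ne_zero_of_sum_row_lt_diag (fun i => hd i)
  have h3 : G.rank = W + 1 := by
    rw [Matrix.rank_of_isUnit G ((Matrix.isUnit_iff_isUnit_det G).2 (isUnit_iff_ne_zero.2 h2)),
      Fintype.card_fin]
  have h4 : G.rank ≤ W := by
    rw [h1]
    exact (Matrix.rank_mul_le_left _ _).trans (Matrix.rank_le_width _)
  omega

/-- rows of large mass -/
theorem rkb_markov {P : Type} [Fintype P] (α g : P → ℝ) (s : ℝ) (hs : 0 < s)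
    (hα : ∀ x, 0 ≤ α x) (hg : ∀ x, 0 ≤ g x) (h : ∑ x, α x * g x ≤ s * s) :
    ∑ x, (if s < g x then α x else 0) ≤ s := by
  have h1 : ∀ x, s * (if s < g x then α x else 0) ≤ α x * g x := by
    intro x
    split_ifs with hx
    · rw [mul_comm]
      exact mul_le_mul_of_nonneg_left hx.le (hα x)
    · rw [mul_zero]
      exact mul_nonneg (hα x) (hg x)
  have h2 : s * ∑ x, (if s < g x then α x else 0) ≤ s * s := by
    rw [Finset.mul_sum]
    exact (Finset.sum_le_sum fun x _ => h1 x).trans h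
  exact le_of_mul_le_mul_left h2 hs

theorem rkb_core {P Q : Type} [Fintype P] [Fintype Q] (μ : P → Q → ℝ)
    (h0 : ∀ x y, 0 ≤ μ x y) (h1 : ∑ x, ∑ y, μ x y = 1) (ε : ℝ) (hε : 0 < ε) (hε1 : ε ≤ 1)
    (hB : ∑ x, ∑ y, Real.sqrt (μ x y * (∑ y', μ x y') * (∑ x', μ x' y)) ≤ ε ^ 8)
    (N : P → Q → ℝ) (W : ℕ) (u : Fin W → P → ℝ) (v : Fin W → Q → ℝ)
    (hN0 : ∀ x y, 0 ≤ N x y) (hN1 : ∀ x y, N x y ≤ μ x y)
    (hr : ∀ x y, N x y = ∑ i, u i x * v i y) :
    ∑ x, ∑ y, N x y ≤ 8 * (W + 1) * ε := by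
  classical
  by_contra hcon
  push Not at hcon
  set α : P → ℝ := fun x => ∑ y, μ x y with hα
  set β : Q → ℝ := fun y => ∑ x, μ x y with hβ
  have hα0 : ∀ x, 0 ≤ α x := fun x => Finset.sum_nonneg fun y _ => h0 x y
  have hβ0 : ∀ y, 0 ≤ β y := fun y => Finset.sum_nonneg fun x _ => h0 x y
  have hμα : ∀ x y, μ x y ≤ α x := fun x y =>
    Finset.single_le_sum (f := fun y => μ x y) (fun y _ => h0 x y) (Finset.mem_univ y)
  have hμβ : ∀ x y, μ x y ≤ β y := fun x y =>
    Finset.single_le_sum (f := fun x => μ x y) (fun x _ => h0 x y) (Finset.mem_univ x)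
  have hp2 : (0 : ℝ) < ε ^ 2 := by positivity
  have hp4 : (0 : ℝ) < ε ^ 4 := by positivity
  have hp8 : (0 : ℝ) < ε ^ 8 := by positivity
  have hε2 : ε ^ 2 ≤ ε := by nlinarith
  have hε4 : ε ^ 4 ≤ ε ^ 2 := by
    have : ε ^ 4 = ε ^ 2 * ε ^ 2 := by ring
    nlinarith
  have hm1 : ∑ x, ∑ y, N x y ≤ 1 := by
    rw [← h1]
    exact Finset.sum_le_sum fun x _ => Finset.sum_le_sum fun y _ => hN1 x y
  have hWε : ((W : ℝ) + 1) * ε < 1 / 8 := by linarith
  -- the conflicts
  set C : P → Q → Prop := fun x y => α x * β y < ε ^ 4 * μ x y with hC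
  set g1 : P → ℝ := fun x => ∑ y, (if C x y then β y else 0) with hg1
  set g2 : Q → ℝ := fun y => ∑ x, (if C x y then α x else 0) with hg2
  have hg10 : ∀ x, 0 ≤ g1 x := fun x => Finset.sum_nonneg fun y _ => by
    split_ifs
    · exact hβ0 y
    · exact le_refl _
  have hg20 : ∀ y, 0 ≤ g2 y := fun y => Finset.sum_nonneg fun x _ => by
    split_ifs
    · exact hα0 x
    · exact le_refl _
  have hC4 : ∀ x y, (if C x y then α x * β y else 0) ≤ ε ^ 4 * μ x y := by
    intro x y
    split_ifs with h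
    · exact h.le
    · exact mul_nonneg hp4.le (h0 x y)
  have hm4 : ∑ x, ∑ y, ε ^ 4 * μ x y = ε ^ 2 * ε ^ 2 := by
    simp only [← Finset.mul_sum]
    rw [h1]
    ring
  have hs1 : ∑ x, α x * g1 x ≤ ε ^ 2 * ε ^ 2 := by
    rw [← hm4]
    refine Finset.sum_le_sum fun x _ => ?_
    rw [hg1, Finset.mul_sum]
    refine Finset.sum_le_sum fun y _ => ?_
    rw [mul_ite, mul_zero]
    exact hC4 x y
  have hs2 : ∑ y, β y * g2 y ≤ ε ^ 2 * ε ^ 2 := by
    rw [← hm4, Finset.sum_comm]
    refine Finset.sum_le_sum fun y _ => ?_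
    rw [hg2, Finset.mul_sum]
    refine Finset.sum_le_sum fun x _ => le_trans (le_of_eq ?_) (hC4 x y)
    rw [mul_ite, mul_zero]
    split_ifs
    · ring
    · rfl
  have hb1 := rkb_markov α g1 (ε ^ 2) hp2 hα0 hg10 hs1
  have hb2 := rkb_markov β g2 (ε ^ 2) hp2 hβ0 hg20 hs2
  -- the good pairs
  set A : P → Q → Prop := fun x y => ε ^ 2 * μ x y ≤ N x y ∧ α x * β y ≤ ε ^ 8 * μ x y ∧
    0 < μ x y ∧ g1 x ≤ ε ^ 2 ∧ g2 y ≤ ε ^ 2 with hA
  have hsq : ∀ x y, ε ^ 4 * (if ε ^ 8 * μ x y < α x * β y then μ x y else 0) ≤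
      Real.sqrt (μ x y * α x * β y) := by
    intro x y
    split_ifs with h
    · refine Real.le_sqrt_of_sq_le ?_
      have e1 : (ε ^ 4 * μ x y) ^ 2 = μ x y * (ε ^ 8 * μ x y) := by ring
      rw [e1, mul_assoc]
      exact mul_le_mul_of_nonneg_left h.le (h0 x y)
    · rw [mul_zero]
      exact Real.sqrt_nonneg _
  have hb3 : ∑ x, ∑ y, (if ε ^ 8 * μ x y < α x * β y then μ x y else 0) ≤ ε ^ 4 := by
    have e1 : ε ^ 4 * ∑ x, ∑ y, (if ε ^ 8 * μ x y < α x * β y then μ x y else 0) ≤
        ε ^ 4 * ε ^ 4 := by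
      have e2 : ε ^ 4 * ε ^ 4 = ε ^ 8 := by ring
      rw [e2]
      refine le_trans ?_ hB
      rw [Finset.mul_sum]
      refine Finset.sum_le_sum fun x _ => ?_
      rw [Finset.mul_sum]
      exact Finset.sum_le_sum fun y _ => hsq x y
    exact le_of_mul_le_mul_left e1 hp4
  have hmass : 4 * ((W : ℝ) + 1) * ε < ∑ x, ∑ y, (if A x y then N x y else 0) := by
    have e1 : ∀ x y, N x y ≤ (if A x y then N x y else 0) + ε ^ 2 * μ x y +
        (if ε ^ 8 * μ x y < α x * β y then μ x y else 0) +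
        (if ε ^ 2 < g1 x then μ x y else 0) + (if ε ^ 2 < g2 y then μ x y else 0) := by
      intro x y
      have i1 : 0 ≤ (if A x y then N x y else 0) := by
        split_ifs
        · exact hN0 x y
        · exact le_refl _
      have i2 : 0 ≤ ε ^ 2 * μ x y := mul_nonneg hp2.le (h0 x y)
      have i3 : 0 ≤ (if ε ^ 8 * μ x y < α x * β y then μ x y else 0) := by
        split_ifs
        · exact h0 x y
        · exact le_refl _
      have i4 : 0 ≤ (if ε ^ 2 < g1 x then μ x y else 0) := by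
        split_ifs
        · exact h0 x y
        · exact le_refl _
      have i5 : 0 ≤ (if ε ^ 2 < g2 y then μ x y else 0) := by
        split_ifs
        · exact h0 x y
        · exact le_refl _
      by_cases hAxy : A x y
      · rw [if_pos hAxy] at i1 ⊢
        linarith
      · rw [hA] at hAxy
        by_cases c1 : ε ^ 2 * μ x y ≤ N x y
        · by_cases c2 : α x * β y ≤ ε ^ 8 * μ x y
          · by_cases c3 : 0 < μ x y
            · by_cases c4 : g1 x ≤ ε ^ 2
              · have c5 : ¬ g2 y ≤ ε ^ 2 := fun c5 => hAxy ⟨c1, c2, c3, c4, c5⟩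
                rw [if_pos (not_le.1 c5)]
                linarith [hN1 x y]
              · rw [if_pos (not_le.1 c4)]
                linarith [hN1 x y]
            · have c6 : μ x y = 0 := le_antisymm (not_lt.1 c3) (h0 x y)
              have := hN1 x y
              rw [c6] at this
              linarith
          · rw [if_pos (not_le.1 c2)]
            linarith [hN1 x y]
        · linarith [not_le.1 c1]
    have e2 := Finset.sum_le_sum fun x (_ : x ∈ (univ : Finset P)) =>
      Finset.sum_le_sum fun y (_ : y ∈ (univ : Finset Q)) => e1 x y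
    simp only [Finset.sum_add_distrib] at e2
    have e3 : ∑ x, ∑ y, ε ^ 2 * μ x y = ε ^ 2 := by
      simp only [← Finset.mul_sum]
      rw [h1, mul_one]
    have e4 : ∑ x, ∑ y, (if ε ^ 2 < g1 x then μ x y else 0) =
        ∑ x, (if ε ^ 2 < g1 x then α x else 0) := by
      refine Finset.sum_congr rfl fun x _ => ?_
      split_ifs
      · rfl
      · exact Finset.sum_const_zero
    have e5 : ∑ x, ∑ y, (if ε ^ 2 < g2 y then μ x y else 0) =
        ∑ y, (if ε ^ 2 < g2 y then β y else 0) := by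
      rw [Finset.sum_comm]
      refine Finset.sum_congr rfl fun y _ => ?_
      split_ifs
      · rfl
      · exact Finset.sum_const_zero
    rw [e3, e4, e5] at e2
    have e6 : (0 : ℝ) ≤ W := Nat.cast_nonneg _
    nlinarith [mul_nonneg e6 hε.le]
  -- conflicts of a good pair
  have hconf : ∀ x y, A x y →
      ∑ x', ∑ y', (if C x y' ∨ C x' y then N x' y' else 0) ≤ 2 * ε ^ 2 := by
    intro x y hxy
    have e1 : ∀ x' y', (if C x y' ∨ C x' y then N x' y' else 0) ≤
        (if C x y' then μ x' y' else 0) + (if C x' y then μ x' y' else 0) := by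
      intro x' y'
      by_cases c1 : C x y'
      · rw [if_pos (Or.inl c1), if_pos c1]
        have : 0 ≤ (if C x' y then μ x' y' else 0) := by
          split_ifs
          · exact h0 x' y'
          · exact le_refl _
        linarith [hN1 x' y']
      · by_cases c2 : C x' y
        · rw [if_pos (Or.inr c2), if_neg c1, if_pos c2]
          linarith [hN1 x' y']
        · rw [if_neg (by rintro (h | h); exacts [c1 h, c2 h]), if_neg c1, if_neg c2]
          linarith
    have e2 := Finset.sum_le_sum fun x' (_ : x' ∈ (univ : Finset P)) =>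
      Finset.sum_le_sum fun y' (_ : y' ∈ (univ : Finset Q)) => e1 x' y'
    simp only [Finset.sum_add_distrib] at e2
    have e3 : ∑ x', ∑ y', (if C x y' then μ x' y' else 0) = g1 x := by
      rw [Finset.sum_comm, hg1]
      refine Finset.sum_congr rfl fun y' _ => ?_
      split_ifs
      · rfl
      · exact Finset.sum_const_zero
    have e4 : ∑ x', ∑ y', (if C x' y then μ x' y' else 0) = g2 y := by
      rw [hg2]
      refine Finset.sum_congr rfl fun x' _ => ?_
      split_ifs
      · rfl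
      · exact Finset.sum_const_zero
    rw [e3, e4] at e2
    have := hxy.2.2.2.1
    have := hxy.2.2.2.2
    linarith
  -- greedy choice
  have hgreedy : ∀ n : ℕ, n ≤ W + 1 → ∃ (xs : Fin n → P) (ys : Fin n → Q),
      (∀ i, A (xs i) (ys i)) ∧ ∀ i j, i ≠ j → ¬ C (xs i) (ys j) := by
    intro n
    induction n with
    | zero =>
      intro _
      exact ⟨fun i => i.elim0, fun i => i.elim0, fun i => i.elim0, fun i => i.elim0⟩
    | succ n ih =>
      intro hn
      obtain ⟨xs, ys, hA1, hC1⟩ := ih (by omega)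
      -- a pair without conflicts
      have hex : ∃ x y, A x y ∧ ∀ i, ¬ C (xs i) y ∧ ¬ C x (ys i) := by
        by_contra hno
        push Not at hno
        have e1 : ∀ x y, (if A x y then N x y else 0) ≤
            ∑ i : Fin n, (if C (xs i) y ∨ C x (ys i) then N x y else 0) := by
          intro x y
          have e0 : ∀ i : Fin n, 0 ≤ (if C (xs i) y ∨ C x (ys i) then N x y else 0) := by
            intro i
            split_ifs
            · exact hN0 x y
            · exact le_refl _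
          by_cases hxy : A x y
          · obtain ⟨i, hi⟩ := hno x y hxy
            have hi' : C (xs i) y ∨ C x (ys i) := by
              by_cases c1 : C (xs i) y
              · exact Or.inl c1
              · exact Or.inr (hi c1)
            rw [if_pos hxy]
            refine le_trans (le_of_eq ?_) (Finset.single_le_sum (f := fun i : Fin n =>
              (if C (xs i) y ∨ C x (ys i) then N x y else 0)) (fun i _ => e0 i)
              (Finset.mem_univ i))
            rw [if_pos hi']
          · rw [if_neg hxy]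
            exact Finset.sum_nonneg fun i _ => e0 i
        have e2 := Finset.sum_le_sum fun x (_ : x ∈ (univ : Finset P)) =>
          Finset.sum_le_sum fun y (_ : y ∈ (univ : Finset Q)) => e1 x y
        have e3 : ∑ x, ∑ y, ∑ i : Fin n, (if C (xs i) y ∨ C x (ys i) then N x y else 0) =
            ∑ i : Fin n, ∑ x, ∑ y, (if C (xs i) y ∨ C x (ys i) then N x y else 0) := by
          rw [show ∑ x, ∑ y, ∑ i : Fin n, (if C (xs i) y ∨ C x (ys i) then N x y else 0) =
              ∑ x, ∑ i : Fin n, ∑ y, (if C (xs i) y ∨ C x (ys i) then N x y else 0) from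
            Finset.sum_congr rfl fun x _ => Finset.sum_comm, Finset.sum_comm]
        rw [e3] at e2
        have e4 := Finset.sum_le_sum fun i (_ : i ∈ (univ : Finset (Fin n))) =>
          hconf (xs i) (ys i) (hA1 i)
        rw [Finset.sum_const, Finset.card_univ, Fintype.card_fin, nsmul_eq_mul] at e4
        have e5 : (n : ℝ) ≤ W := by exact_mod_cast (by omega : n ≤ W)
        nlinarith
      obtain ⟨x, y, hxy, hno⟩ := hex
      refine ⟨Fin.snoc (α := fun _ => P) xs x, Fin.snoc (α := fun _ => Q) ys y, ?_, ?_⟩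
      · intro i
        refine Fin.lastCases ?_ (fun i' => ?_) i
        · rw [Fin.snoc_last, Fin.snoc_last]
          exact hxy
        · rw [Fin.snoc_castSucc, Fin.snoc_castSucc]
          exact hA1 i'
      · intro i j
        refine Fin.lastCases ?_ (fun i' => ?_) i
        · refine Fin.lastCases ?_ (fun j' => ?_) j
          · intro h
            exact absurd rfl h
          · intro _
            rw [Fin.snoc_last, Fin.snoc_castSucc]
            exact (hno j').2
        · refine Fin.lastCases ?_ (fun j' => ?_) j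
          · intro _
            rw [Fin.snoc_last, Fin.snoc_castSucc]
            exact (hno i').1
          · intro h
            rw [Fin.snoc_castSucc, Fin.snoc_castSucc]
            exact hC1 i' j' fun e => h (by rw [e])
  obtain ⟨xs, ys, hA1, hC1⟩ := hgreedy (W + 1) le_rfl
  have hαp : ∀ i, 0 < α (xs i) := fun i => lt_of_lt_of_le (hA1 i).2.2.1 (hμα _ _)
  have hβp : ∀ i, 0 < β (ys i) := fun i => lt_of_lt_of_le (hA1 i).2.2.1 (hμβ _ _)
  refine rkb_rank W (fun i j => N (xs i) (ys j) / (α (xs i) * β (ys j)))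
    (fun i l => u l (xs i) / α (xs i)) (fun l j => v l (ys j) / β (ys j)) ?_ ?_
  · intro i j
    rw [hr, Finset.sum_div]
    refine Finset.sum_congr rfl fun l _ => ?_
    have := (hαp i).ne'
    have := (hβp j).ne'
    field_simp
  · intro i
    have hd : (ε ^ 6)⁻¹ ≤ |N (xs i) (ys i) / (α (xs i) * β (ys i))| := by
      refine le_trans ?_ (le_abs_self _)
      rw [inv_eq_one_div, div_le_div_iff₀ (by positivity) (mul_pos (hαp i) (hβp i)), one_mul]
      have c1 := (hA1 i).1
      have c2 := (hA1 i).2.1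
      calc α (xs i) * β (ys i) ≤ ε ^ 8 * μ (xs i) (ys i) := c2
        _ = ε ^ 6 * (ε ^ 2 * μ (xs i) (ys i)) := by ring
        _ ≤ ε ^ 6 * N (xs i) (ys i) := mul_le_mul_of_nonneg_left c1 (by positivity)
        _ = N (xs i) (ys i) * ε ^ 6 := by ring
    have ho : ∀ j ∈ univ.erase i, |N (xs i) (ys j) / (α (xs i) * β (ys j))| ≤ (ε ^ 4)⁻¹ := by
      intro j hj
      have hij : i ≠ j := (Finset.ne_of_mem_erase hj).symm
      rw [abs_of_nonneg (div_nonneg (hN0 _ _) (mul_pos (hαp i) (hβp j)).le), inv_eq_one_div,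
        div_le_div_iff₀ (mul_pos (hαp i) (hβp j)) hp4, one_mul]
      have c1 : ε ^ 4 * μ (xs i) (ys j) ≤ α (xs i) * β (ys j) := not_lt.1 (hC1 i j hij)
      calc N (xs i) (ys j) * ε ^ 4 ≤ μ (xs i) (ys j) * ε ^ 4 :=
            mul_le_mul_of_nonneg_right (hN1 _ _) hp4.le
        _ = ε ^ 4 * μ (xs i) (ys j) := by ring
        _ ≤ _ := c1
    have hsum := Finset.sum_le_sum ho
    rw [Finset.sum_const, Finset.card_erase_of_mem (Finset.mem_univ i), Finset.card_univ,
      Fintype.card_fin, nsmul_eq_mul, Nat.add_sub_cancel] at hsum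
    refine lt_of_le_of_lt hsum (lt_of_lt_of_le ?_ hd)
    rw [← div_eq_mul_inv, div_lt_iff₀ hp4, inv_mul_eq_div, lt_div_iff₀ (by positivity)]
    have e6 : (0 : ℝ) ≤ W := Nat.cast_nonneg _
    have e7 : (W : ℝ) * ε ^ 2 < 1 := by nlinarith
    have e8 : (W : ℝ) * ε ^ 6 = (W * ε ^ 2) * ε ^ 4 := by ring
    rw [e8]
    nlinarith

theorem thm_RkB : St_RkB := by
  intro h hh
  have he0 : 0 < Real.exp (-(h / 4)) := Real.exp_pos _
  have he1 : Real.exp (-(h / 4)) < 1 := by
    rw [Real.exp_lt_one_iff]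
    linarith
  refine ⟨1 - Real.exp (-(h / 4)), 8, by linarith, by linarith, by norm_num, ?_⟩
  intro J X Y _ _ _ _ _ _ μ hμ0 hμ1 hμB N W u v hN0 hN1 hr
  have e0 : 1 - (1 - Real.exp (-(h / 4))) = Real.exp (-(h / 4)) := by ring
  rw [e0]
  set ε : ℝ := Real.exp (-(h / 4)) ^ Fintype.card J with hε
  have hε0 : 0 < ε := pow_pos he0 _
  have hε1 : ε ≤ 1 := pow_le_one₀ he0.le he1.le
  -- the marginals of the product
  have ha : ∀ x : J → X, ∑ y : J → Y, ∏ j, μ j (x j) (y j) = ∏ j, ∑ y', μ j (x j) y' := by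
    intro x
    rw [Finset.prod_univ_sum, Fintype.piFinset_univ]
  have hb : ∀ y : J → Y, ∑ x : J → X, ∏ j, μ j (x j) (y j) = ∏ j, ∑ x', μ j x' (y j) := by
    intro y
    rw [Finset.prod_univ_sum, Fintype.piFinset_univ]
  refine rkb_core (fun x y => ∏ j, μ j (x j) (y j))
    (fun x y => Finset.prod_nonneg fun j _ => hμ0 j _ _) ?_ ε hε0 hε1 ?_ N W u v hN0 hN1 hr
  · simp only [ha]
    have e1 : ∑ x : J → X, ∏ j, ∑ y', μ j (x j) y' = ∏ j, ∑ x', ∑ y', μ j x' y' := by
      rw [Finset.prod_univ_sum, Fintype.piFinset_univ]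
    rw [e1]
    exact Finset.prod_eq_one fun j _ => hμ1 j
  · simp only [ha, hb]
    have e1 : ∀ (x : J → X) (y : J → Y), Real.sqrt ((∏ j, μ j (x j) (y j)) *
        (∏ j, ∑ y', μ j (x j) y') * ∏ j, ∑ x', μ j x' (y j)) =
        ∏ j, Real.sqrt (μ j (x j) (y j) * (∑ y', μ j (x j) y') * ∑ x', μ j x' (y j)) := by
      intro x y
      rw [← Finset.prod_mul_distrib, ← Finset.prod_mul_distrib, Real.sqrt_prod]
      intro j _
      refine mul_nonneg (mul_nonneg (hμ0 j _ _) (Finset.sum_nonneg fun y' _ => hμ0 j _ _))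
        (Finset.sum_nonneg fun x' _ => hμ0 j _ _)
    simp only [e1]
    have e2 : ∀ x : J → X, ∑ y : J → Y,
        ∏ j, Real.sqrt (μ j (x j) (y j) * (∑ y', μ j (x j) y') * ∑ x', μ j x' (y j)) =
        ∏ j, ∑ y, Real.sqrt (μ j (x j) y * (∑ y', μ j (x j) y') * ∑ x', μ j x' y) := by
      intro x
      rw [Finset.prod_univ_sum, Fintype.piFinset_univ]
    simp only [e2]
    have e3 : ∑ x : J → X,
        ∏ j, ∑ y, Real.sqrt (μ j (x j) y * (∑ y', μ j (x j) y') * ∑ x', μ j x' y) =
        ∏ j, ∑ x, ∑ y, Real.sqrt (μ j x y * (∑ y', μ j x y') * ∑ x', μ j x' y) := by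
      rw [Finset.prod_univ_sum, Fintype.piFinset_univ]
    rw [e3]
    have e4 : ε ^ 8 = ∏ _j : J, Real.exp (-2 * h) := by
      rw [Finset.prod_const, Finset.card_univ, hε, ← pow_mul, mul_comm, pow_mul]
      congr 1
      rw [← Real.exp_nat_mul]
      congr 1
      push_cast
      ring
    rw [e4]
    exact Finset.prod_le_prod (fun j _ => Finset.sum_nonneg fun x _ => Finset.sum_nonneg fun y _ =>
      Real.sqrt_nonneg _) fun j _ => hμB j

end Pool.Agent.WD
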