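import Pool.Agent.WE.St

/-!
# WE / RkM: rank across a cut passes to the core
-/

namespace Pool.Agent.WD

open Finset
open scoped NNReal

section

variable {D V : Type} [Fintype D] [DecidableEq D] [Fintype V] [DecidableEq V]

/-- real version of the marginal -/
private def rkm_marg (R : Finset V) (g : (V → D) → ℝ) (x : V → D) : ℝ :=
  ∑ y ∈ univ.filter (fun y : V → D => ∀ v, v ∉ R → y v = x v), g y

/-- a marginal depends on the same variables -/
private theorem rkm_dep (g : (V → D) → ℝ) (U R : Finset V)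
    (hg : ∀ x y : V → D, (∀ v ∈ U, x v = y v) → g x = g y) (hR : R ⊆ U) (x y : V → D)
    (hxy : ∀ v ∈ U, x v = y v) : rkm_marg R g x = rkm_marg R g y := by
  unfold rkm_marg
  refine Finset.sum_bij' (fun z _ => U.piecewise z y) (fun z _ => U.piecewise z x) ?_ ?_ ?_ ?_ ?_
  · intro z hz
    rw [mem_filter] at hz ⊢
    refine ⟨mem_univ _, fun v hv => ?_⟩
    by_cases hvU : v ∈ U
    · rw [Finset.piecewise_eq_of_mem _ _ _ hvU, hz.2 v hv, hxy v hvU]
    · rw [Finset.piecewise_eq_of_notMem _ _ _ hvU]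
  · intro z hz
    rw [mem_filter] at hz ⊢
    refine ⟨mem_univ _, fun v hv => ?_⟩
    by_cases hvU : v ∈ U
    · rw [Finset.piecewise_eq_of_mem _ _ _ hvU, hz.2 v hv, hxy v hvU]
    · rw [Finset.piecewise_eq_of_notMem _ _ _ hvU]
  · intro z hz
    rw [mem_filter] at hz
    funext v
    by_cases hvU : v ∈ U
    · rw [Finset.piecewise_eq_of_mem _ _ _ hvU, Finset.piecewise_eq_of_mem _ _ _ hvU]
    · rw [Finset.piecewise_eq_of_notMem _ _ _ hvU, hz.2 v fun h => hvU (hR h)]
  · intro z hz
    rw [mem_filter] at hz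
    funext v
    by_cases hvU : v ∈ U
    · rw [Finset.piecewise_eq_of_mem _ _ _ hvU, Finset.piecewise_eq_of_mem _ _ _ hvU]
    · rw [Finset.piecewise_eq_of_notMem _ _ _ hvU, hz.2 v fun h => hvU (hR h)]
  · intro z _
    exact hg _ _ fun v hv => (Finset.piecewise_eq_of_mem _ _ _ hv).symm

/-- the marginal of a product of functions of disjoint sets of variables -/
private theorem rkm_mul (g h : (V → D) → ℝ) (U R : Finset V)
    (hg : ∀ x y : V → D, (∀ v ∈ U, x v = y v) → g x = g y)
    (hh : ∀ x y : V → D, (∀ v, v ∉ U → x v = y v) → h x = h y)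
    (x : V → D) : rkm_marg R (fun z => g z * h z) x =
      rkm_marg (R ∩ U) g x * rkm_marg (R ∩ Uᶜ) h x := by
  unfold rkm_marg
  rw [Finset.sum_mul_sum, ← Finset.sum_product']
  refine Finset.sum_bij' (fun z _ => (U.piecewise z x, U.piecewise x z))
    (fun z _ => U.piecewise z.1 z.2) ?_ ?_ ?_ ?_ ?_
  · intro z hz
    rw [mem_filter] at hz
    rw [mem_product, mem_filter, mem_filter]
    refine ⟨⟨mem_univ _, fun v hv => ?_⟩, ⟨mem_univ _, fun v hv => ?_⟩⟩
    · show U.piecewise z x v = x v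
      by_cases hvU : v ∈ U
      · rw [Finset.piecewise_eq_of_mem _ _ _ hvU]
        exact hz.2 v fun h => hv (mem_inter.2 ⟨h, hvU⟩)
      · rw [Finset.piecewise_eq_of_notMem _ _ _ hvU]
    · show U.piecewise x z v = x v
      by_cases hvU : v ∈ U
      · rw [Finset.piecewise_eq_of_mem _ _ _ hvU]
      · rw [Finset.piecewise_eq_of_notMem _ _ _ hvU]
        exact hz.2 v fun h => hv (mem_inter.2 ⟨h, mem_compl.2 hvU⟩)
  · rintro ⟨z1, z2⟩ hz
    rw [mem_product, mem_filter, mem_filter] at hz
    rw [mem_filter]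
    refine ⟨mem_univ _, fun v hv => ?_⟩
    show U.piecewise z1 z2 v = x v
    by_cases hvU : v ∈ U
    · rw [Finset.piecewise_eq_of_mem _ _ _ hvU]
      exact hz.1.2 v fun h => hv (mem_inter.1 h).1
    · rw [Finset.piecewise_eq_of_notMem _ _ _ hvU]
      exact hz.2.2 v fun h => hv (mem_inter.1 h).1
  · intro z hz
    funext v
    show U.piecewise (U.piecewise z x) (U.piecewise x z) v = z v
    by_cases hvU : v ∈ U
    · rw [Finset.piecewise_eq_of_mem _ _ _ hvU, Finset.piecewise_eq_of_mem _ _ _ hvU]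
    · rw [Finset.piecewise_eq_of_notMem _ _ _ hvU, Finset.piecewise_eq_of_notMem _ _ _ hvU]
  · rintro ⟨z1, z2⟩ hz
    rw [mem_product, mem_filter, mem_filter] at hz
    have h1 : U.piecewise (U.piecewise z1 z2) x = z1 := by
      funext v
      by_cases hvU : v ∈ U
      · rw [Finset.piecewise_eq_of_mem _ _ _ hvU, Finset.piecewise_eq_of_mem _ _ _ hvU]
      · rw [Finset.piecewise_eq_of_notMem _ _ _ hvU]
        exact (hz.1.2 v fun h => hvU (mem_inter.1 h).2).symm
    have h2 : U.piecewise x (U.piecewise z1 z2) = z2 := by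
      funext v
      by_cases hvU : v ∈ U
      · rw [Finset.piecewise_eq_of_mem _ _ _ hvU]
        exact (hz.2.2 v fun h => mem_compl.1 (mem_inter.1 h).2 hvU).symm
      · rw [Finset.piecewise_eq_of_notMem _ _ _ hvU, Finset.piecewise_eq_of_notMem _ _ _ hvU]
    show (U.piecewise (U.piecewise z1 z2) x, U.piecewise x (U.piecewise z1 z2)) = (z1, z2)
    rw [h1, h2]
  · intro z _
    show g z * h z = g (U.piecewise z x) * h (U.piecewise x z)
    rw [hg (U.piecewise z x) z fun v hv => Finset.piecewise_eq_of_mem _ _ _ hv,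
      hh (U.piecewise x z) z fun v hv => Finset.piecewise_eq_of_notMem _ _ _ hv]

/-- rank passes to marginals -/
private theorem rkm_marg_rank (R : Finset V) (T : (V → D) → ℝ≥0) (S : Finset V) (W : ℕ)
    (hT : RankLe W T S) : RankLe W (marg R T) S := by
  obtain ⟨u, v, hu, hv, huv⟩ := hT
  refine ⟨fun i => rkm_marg (R ∩ S) (u i), fun i => rkm_marg (R ∩ Sᶜ) (v i), ?_, ?_, ?_⟩
  · intro i x y hxy
    exact rkm_dep (u i) S (R ∩ S) (hu i) inter_subset_right x y hxy
  · intro i x y hxy
    exact rkm_dep (v i) Sᶜ (R ∩ Sᶜ) (fun x y h => hv i x y fun w hw => h w (mem_compl.2 hw))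
      inter_subset_right x y fun w hw => hxy w (mem_compl.1 hw)
  · intro x
    have h1 : ∀ i, rkm_marg (R ∩ S) (u i) x * rkm_marg (R ∩ Sᶜ) (v i) x =
        ∑ y ∈ univ.filter (fun y : V → D => ∀ v, v ∉ R → y v = x v), u i y * v i y :=
      fun i => (rkm_mul (u i) (v i) S R (hu i) (hv i) x).symm
    simp only [h1]
    rw [Finset.sum_comm]
    unfold marg
    push_cast
    exact Finset.sum_congr rfl fun y _ => huv y

end

theorem thm_RkM : St_RkM := by
  intro D V K _ _ _ _ _ _ κ base R T S W hT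
  obtain ⟨u, v, hu, hv, huv⟩ := rkm_marg_rank R T S W hT
  refine ⟨fun i z => u i (Function.extend κ z base), fun i z => v i (Function.extend κ z base),
    ?_, ?_, fun z => huv _⟩
  · intro i z z' hz
    refine hu i _ _ fun w hw => ?_
    by_cases h : ∃ k, κ k = w
    · obtain ⟨k, rfl⟩ := h
      rw [κ.injective.extend_apply, κ.injective.extend_apply]
      exact hz k (mem_filter.2 ⟨mem_univ _, hw⟩)
    · rw [Function.extend_apply' _ _ _ h, Function.extend_apply' _ _ _ h]
  · intro i z z' hz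
    refine hv i _ _ fun w hw => ?_
    by_cases h : ∃ k, κ k = w
    · obtain ⟨k, rfl⟩ := h
      rw [κ.injective.extend_apply, κ.injective.extend_apply]
      exact hz k fun hk => hw (mem_filter.1 hk).2
    · rw [Function.extend_apply' _ _ _ h, Function.extend_apply' _ _ _ h]

end Pool.Agent.WD
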