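import Pool.Agent.WD.Main
import Pool.Agent.WE.Dec2
import Pool.Agent.WE.Net2
import Pool.Agent.WE.PatM
import Pool.Agent.WE.RkM
import Pool.Agent.WE.LossA2
import Pool.Agent.WE.RkB
import Pool.Agent.WE.LossB2
import Pool.Agent.WE.Hard3

/-!
# Assembly of the second version
-/

namespace Pool.Agent.WD

open Finset
open scoped NNReal

theorem net_side : St_Net2 :=
  thm_Net2 thm_LossA thm_LossB thm_LossA2 (thm_LossB2 thm_RkB)

theorem hard_side3 : St_Hard3 :=
  thm_Hard3 (thm_Dec2 thm_Bro) net_side thm_Gra thm_PatM thm_Lift thm_RkM thm_Ins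

end Pool.Agent.WD
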